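import Pool.Agent.Lib.MP_8a52c3_lc.Mono.Basic

/-! One round of deletion and an auction: every live bidder wins a fixed share of the columns. -/

open Finset
open scoped BigOperators

namespace Pool.Agent.Lib.MP_8a52c3_lc.LS

open Pool.Agent.Lib.MP_8a52c3_lc.Mono

variable {Y J : Type} [Fintype Y] [Fintype J]

/-- After deleting a small set, each of the given sets is gone or large. -/
theorem del_small (p : J → Y → Prop) {g : ℝ} :
    ∃ E : Y → Prop, 𝔼 y, ind (E y) ≤ Fintype.card J * |g| ∧
      ∀ j, (∀ y, p j y → E y) ∨ g ≤ 𝔼 y, ind (p j y ∧ ¬ E y) := by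
  classical
  let F : Finset (Finset J) := univ.filter fun D => 𝔼 y, ind (∃ j ∈ D, p j y) ≤ D.card * |g|
  have h0 : (∅ : Finset J) ∈ F := by simp [F, ind]
  obtain ⟨D, hD, hmax⟩ := exists_max_image F card ⟨_, h0⟩
  have hD' := (mem_filter.1 hD).2
  refine ⟨fun y => ∃ j ∈ D, p j y, hD'.trans ?_, fun j => ?_⟩
  · exact mul_le_mul_of_nonneg_right (by exact_mod_cast card_le_univ D) (abs_nonneg g)
  · by_cases hj : j ∈ D
    · exact Or.inl fun y hy => ⟨j, hj, hy⟩
    · right
      by_contra hlt
      have h1 : insert j D ∈ F := by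
        refine mem_filter.2 ⟨mem_univ _, ?_⟩
        have h2 : ∀ y, ind (∃ i ∈ insert j D, p i y) ≤
            ind (∃ i ∈ D, p i y) + ind (p j y ∧ ¬ ∃ i ∈ D, p i y) := fun y => by
          refine le_trans (ind_mono fun h => ?_) (ind_or_le _ _)
          by_cases h3 : ∃ i ∈ D, p i y
          · exact Or.inl h3
          · obtain ⟨i, hi, hp⟩ := h
            rcases mem_insert.1 hi with rfl | hi
            · exact Or.inr ⟨hp, h3⟩
            · exact absurd ⟨i, hi, hp⟩ h3
        refine (ex_mono h2).trans ?_
        rw [expect_add_distrib, card_insert_of_notMem hj]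
        push_cast
        have := le_abs_self g
        linarith [not_le.1 hlt]
      have := hmax _ h1
      rw [card_insert_of_notMem hj] at this
      omega

open Classical in
/-- The best bid on column `y`, in logarithmic scale. -/
noncomputable def best (b : J → Y → ℝ) (l : J → ℝ) (y : Y) : ℝ :=
  if h : (univ.filter fun j => 0 < b j y).Nonempty then
    (univ.filter fun j => 0 < b j y).sup' h fun j => Real.log (b j y) + l j else 0

omit [Fintype Y] in
theorem le_best (b : J → Y → ℝ) (l : J → ℝ) {y : Y} {j : J} (h : 0 < b j y) :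
    Real.log (b j y) + l j ≤ best b l y := by
  classical
  have hm : j ∈ univ.filter fun j => 0 < b j y := by simp [h]
  unfold best
  rw [dif_pos ⟨j, by convert hm⟩]
  exact le_sup' (fun j => Real.log (b j y) + l j) (by convert hm)

omit [Fintype Y] in
theorem best_cases (b : J → Y → ℝ) (y : Y) :
    (∀ l, best b l y = 0) ∨ ∀ l, ∃ j, 0 < b j y ∧ best b l y = Real.log (b j y) + l j := by
  classical
  by_cases h : ∃ j, 0 < b j y
  · right
    intro l
    obtain ⟨j, hj⟩ := h
    unfold best
    rw [dif_pos ⟨j, by simp [hj]⟩]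
    obtain ⟨i, hi, he⟩ := exists_mem_eq_sup' (s := univ.filter fun j => 0 < b j y)
      ⟨j, by simp [hj]⟩ fun j => Real.log (b j y) + l j
    exact ⟨i, by simpa using hi, by convert he⟩
  · left
    intro l
    unfold best
    rw [dif_neg]
    rintro ⟨j, hj⟩
    exact h ⟨j, by simpa using hj⟩

omit [Fintype Y] in
theorem best_cont (b : J → Y → ℝ) (y : Y) : Continuous fun l => best b l y := by
  unfold best
  split_ifs with h
  · exact Continuous.finset_sup'_apply h fun j _ => by fun_prop
  · exact continuous_const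

/-- The auction when all bidders are live. -/
theorem auction0 [Nonempty Y] (b : J → Y → ℝ) {g : ℝ} (hg : 0 < g)
    (hS : ∀ j, 2 * Fintype.card J * g ≤ 𝔼 y, ind (0 < b j y)) :
    ∃ w : J → ℝ, (∀ j, 0 < w j) ∧
      ∀ j, g ≤ 𝔼 y, ind (0 < b j y ∧ ∀ j', w j' * b j' y ≤ w j * b j y) := by
  classical
  let F : (J → ℝ) → ℝ := fun l => 𝔼 y, best b l y - g * ∑ j, l j
  have hF : Continuous F := by
    simp only [F, ex_eq_sum]
    have := best_cont b
    fun_prop
  obtain ⟨C, hC⟩ : ∃ C : ℝ, ∀ p : J × Y, |Real.log (b p.1 p.2)| ≤ C :=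
    (Set.finite_range fun p : J × Y => |Real.log (b p.1 p.2)|).bddAbove.imp fun C h p =>
      h ⟨p, rfl⟩
  let R : ℝ := (F 0 + |C|) / g
  have low : ∀ l : J → ℝ, 0 ≤ l → F l ≤ F 0 → ∀ j, l j ≤ R := by
    intro l hl hle j
    haveI : Nonempty J := ⟨j⟩
    obtain ⟨i, hi⟩ := Finite.exists_max l
    have h1 : ∀ y, -|C| + l i * ind (0 < b i y) ≤ best b l y := fun y => by
      have hc := le_abs_self C
      by_cases hy : 0 < b i y
      · have := le_best b l hy
        rw [ind_of hy]
        linarith [neg_abs_le (Real.log (b i y)), hC (i, y)]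
      · rw [ind_of_not hy]
        rcases best_cases b y with h | h
        · rw [h]; linarith [abs_nonneg C]
        · obtain ⟨k, -, hk⟩ := h l
          rw [hk]
          linarith [neg_abs_le (Real.log (b k y)), hC (k, y), hl k, show (0 : J → ℝ) k = 0 from rfl]
    have h2 := ex_mono h1
    rw [expect_add_distrib, ex_const, ← mul_expect] at h2
    have h3 : ∑ k, l k ≤ Fintype.card J * l i := by
      rw [← nsmul_eq_mul]
      exact sum_le_card_nsmul _ _ _ fun k _ => hi k
    have h4 : (1 : ℝ) ≤ Fintype.card J := by exact_mod_cast Fintype.card_pos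
    have h5 : 0 ≤ l i := hl i
    have h6 := mul_le_mul_of_nonneg_left (hS i) h5
    have h7 := mul_le_mul_of_nonneg_left h3 hg.le
    have h8 := mul_le_mul_of_nonneg_left h4 (mul_nonneg h5 hg.le)
    have h9 : F l = 𝔼 y, best b l y - g * ∑ j, l j := rfl
    refine (hi j).trans ?_
    rw [le_div_iff₀ hg]
    nlinarith
  obtain ⟨l, hl, hmin⟩ := (isCompact_Icc (a := (0 : J → ℝ)) (b := fun _ => |R| + 1)).exists_isMinOn
    ⟨0, le_rfl, fun _ => by positivity⟩ hF.continuousOn
  have hlR := low l hl.1 (hmin ⟨le_rfl, fun _ => by positivity⟩)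
  refine ⟨fun j => Real.exp (l j), fun j => Real.exp_pos _, fun j => ?_⟩
  let gap : Option Y → ℝ := fun o => o.elim 1 fun y =>
    if Real.log (b j y) + l j < best b l y then best b l y - (Real.log (b j y) + l j) else 1
  obtain ⟨o, ho⟩ := Finite.exists_min gap
  have hd : 0 < gap o := by
    cases o with
    | none => simp [gap]
    | some y =>
      simp only [gap, Option.elim]
      split_ifs with h
      · linarith
      · exact one_pos
  set d := gap o
  have hd1 : d ≤ 1 := ho none
  let l' : J → ℝ := Function.update l j (l j + d)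
  have hl' : l' ∈ Set.Icc (0 : J → ℝ) fun _ => |R| + 1 := by
    constructor <;> intro k <;> by_cases hk : k = j
    · subst hk
      have : 0 ≤ l k := hl.1 k
      simp only [l', Function.update_self, Pi.zero_apply]
      linarith
    · simpa [l', hk] using hl.1 k
    · subst hk
      simp only [l', Function.update_self]
      linarith [hlR k, le_abs_self R]
    · simpa [l', hk] using hl.2 k
  have h1 : ∀ y, best b l' y ≤ best b l y +
      d * ind (0 < b j y ∧ ∀ j', Real.exp (l j') * b j' y ≤ Real.exp (l j) * b j y) := fun y => by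
    have hn := mul_nonneg hd.le
      (ind_nonneg (0 < b j y ∧ ∀ j', Real.exp (l j') * b j' y ≤ Real.exp (l j) * b j y))
    rcases best_cases b y with h | h
    · rw [h, h]; linarith
    · obtain ⟨k, hk, he⟩ := h l'
      have h2 := le_best b l hk
      rw [he]
      by_cases hkj : k = j
      · subst hkj
        simp only [l', Function.update_self]
        by_cases h3 : Real.log (b k y) + l k < best b l y
        · have h4 := ho (some y)
          simp only [gap, Option.elim, if_pos h3] at h4
          linarith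
        · have h6 : ∀ j', Real.exp (l j') * b j' y ≤ Real.exp (l k) * b k y := fun j' => by
            rcases le_or_gt (b j' y) 0 with h4 | h4
            · exact (mul_nonpos_of_nonneg_of_nonpos (Real.exp_pos _).le h4).trans (by positivity)
            · have h5 := le_best b l h4
              rw [← Real.exp_log h4, ← Real.exp_log hk, ← Real.exp_add, ← Real.exp_add]
              exact Real.exp_le_exp.2 (by linarith [not_lt.1 h3])
          rw [ind_of (And.intro hk h6)]
          linarith
      · simp only [l', Function.update_of_ne hkj]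
        linarith
  have h2 := ex_mono h1
  rw [expect_add_distrib, ← mul_expect] at h2
  have h3 : ∑ k, l' k = ∑ k, l k + d := by
    simp only [l']
    rw [sum_update_of_mem (mem_univ j), ← add_sum_erase univ l (mem_univ j), sdiff_singleton_eq_erase]
    ring
  have h4 : F l ≤ F l' := hmin hl'
  simp only [F, h3] at h4
  refine le_of_mul_le_mul_left ?_ hd
  linarith

/-- Deletion and auction together. -/
theorem auction [Nonempty Y] (b : J → Y → ℝ) {g : ℝ} (hg : 0 < g) :
    ∃ (E : Y → Prop) (w : J → ℝ), 𝔼 y, ind (E y) ≤ 2 * (Fintype.card J : ℝ) ^ 2 * g ∧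
      (∀ j, 0 < w j) ∧ ∀ j, (∀ y, 0 < b j y → E y) ∨
        g ≤ 𝔼 y, ind (¬ E y ∧ 0 < b j y ∧ ∀ j', w j' * b j' y ≤ w j * b j y) := by
  classical
  obtain ⟨E, hE, hj⟩ := del_small (fun j y => 0 < b j y) (g := 2 * Fintype.card J * g)
  let J' := {j : J // ¬ ∀ y, 0 < b j y → E y}
  obtain ⟨w, hw, hwin⟩ := auction0 (J := J') (fun j y => if E y then 0 else b j y) hg fun j => by
    have h1 : (Fintype.card J' : ℝ) ≤ Fintype.card J := by exact_mod_cast Fintype.card_subtype_le _
    refine le_trans (by gcongr) (((hj j).resolve_left j.2).trans (ex_mono fun y => ind_mono ?_))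
    rintro ⟨h2, h3⟩
    simpa [h3] using h2
  refine ⟨E, fun j => if h : ¬ ∀ y, 0 < b j y → E y then w ⟨j, h⟩ else 1, ?_, fun j => ?_,
    fun j => ?_⟩
  · refine hE.trans_eq ?_
    rw [abs_of_nonneg (by positivity)]
    ring
  · dsimp only
    split_ifs
    · exact one_pos
    · exact hw _
  · by_cases h : ∀ y, 0 < b j y → E y
    · exact Or.inl h
    · refine Or.inr ((hwin ⟨j, h⟩).trans (ex_mono fun y => ind_mono ?_))
      rintro ⟨h1, h2⟩
      have hy : ¬ E y := fun hy => by simp [hy] at h1
      simp only [if_neg hy] at h1 h2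
      refine ⟨hy, h1, fun j' => ?_⟩
      dsimp only
      rw [dif_pos h]
      by_cases h' : ∀ y, 0 < b j' y → E y
      · rw [dif_neg (not_not.2 h'), one_mul]
        exact (not_lt.1 fun h3 => hy (h' y h3)).trans (mul_pos (hw _) h1).le
      · rw [dif_pos h']
        exact h2 ⟨j', h'⟩

end Pool.Agent.Lib.MP_8a52c3_lc.LS
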