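import Pool.Agent.Lib.MP_8a52c3_lc.Mono.P1
import Pool.Agent.Lib.MP_8a52c3_lc.Mono.Gad
import Pool.Agent.Lib.MP_8a52c3_lc.Mono.Tseitin

/-! Boxes, juntas and the one sided discrepancy bound. -/

open Finset
open scoped BigOperators

namespace Pool.Agent.Lib.MP_8a52c3_lc.LS

open Pool.Agent.Lib.MP_8a52c3_lc.Mono

/-- Rows. -/
abbrev Row (n r : ℕ) (Q : Type) : Type := Fin n → Fin r × Q

/-- Columns. -/
abbrev Col (n r : ℕ) (Q : Type) : Type := Fin (n * r) → Q → Bool

/-- Number of a group. -/
def gp {n r : ℕ} (e : Fin n) (j : Fin r) : Fin (n * r) := finProdFinEquiv (e, j)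

theorem gp_inj {n r : ℕ} {e e' : Fin n} {j j' : Fin r} (h : gp e j = gp e' j') :
    e = e' ∧ j = j' := by
  have := finProdFinEquiv.injective h
  simpa using this

/-- Number of fixed places. -/
def szo {n : ℕ} {X : Type} (π : Fin n → Option X) : ℕ := (univ.filter fun j => π j ≠ none).card

theorem sum_szo {n : ℕ} {X : Type} [Fintype X] (x : ℝ) :
    ∑ π : Fin n → Option X, x ^ szo π = (1 + Fintype.card X * x) ^ n := by
  classical
  have h : ∀ π : Fin n → Option X, x ^ szo π = ∏ j, (if π j ≠ none then x else 1) := by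
    intro π
    rw [szo, ← prod_const, prod_filter]
  simp only [h]
  rw [← Fintype.piFinset_univ,
    ← Finset.prod_univ_sum (fun _ => univ) fun (_ : Fin n) (o : Option X) =>
      if o ≠ none then x else 1]
  simp [Fintype.sum_option]

theorem card_small {n : ℕ} {X : Type} [Fintype X] [Nonempty X] [DecidableEq X] (K : ℕ) :
    (univ.filter fun π : Fin n → Option X => szo π ≤ K).card ≤ 2 ^ n * Fintype.card X ^ K := by
  have hm : (1 : ℝ) ≤ Fintype.card X := by exact_mod_cast Fintype.card_pos
  have h1 : ((univ.filter fun π : Fin n → Option X => szo π ≤ K).card : ℝ) ≤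
      ∑ π : Fin n → Option X, (1 / (Fintype.card X : ℝ)) ^ szo π * Fintype.card X ^ K := by
    rw [card_filter]
    push_cast
    refine sum_le_sum fun π _ => ?_
    split_ifs with h
    · rw [one_div, inv_pow, ← div_eq_inv_mul, le_div_iff₀ (by positivity), one_mul]
      exact pow_le_pow_right₀ hm h
    · positivity
  rw [← sum_mul, sum_szo, mul_one_div_cancel (by positivity)] at h1
  norm_num at h1
  exact_mod_cast h1

theorem ex_extend {ι κ β : Type} [Fintype ι] [DecidableEq ι] [Fintype κ] [DecidableEq κ]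
    [Fintype β] [Nonempty β] {f : ι → κ} (hf : Function.Injective f) (H : (κ → β) → ℝ) :
    𝔼 u, H u = 𝔼 u : κ → β, 𝔼 z : ι → β, H (Function.extend f z u) := by
  have hinv : Function.Involutive fun p : (κ → β) × (ι → β) =>
      ((Function.extend f p.2 p.1, p.1 ∘ f) : (κ → β) × (ι → β)) := by
    rintro ⟨u, z⟩
    refine Prod.ext ?_ ?_
    · funext i
      by_cases hi : ∃ a, f a = i
      · obtain ⟨a, rfl⟩ := hi
        simp [hf.extend_apply]
      · simp [Function.extend_apply' _ _ _ hi]
    · funext a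
      simp [hf.extend_apply]
  have h1 := ex_equiv hinv.toPerm fun p : (κ → β) × (ι → β) => H p.1
  rw [ex_prod, ex_prod] at h1
  simp only [ex_const] at h1
  exact h1.symm

theorem ex_comp {ι κ β : Type} [Fintype ι] [DecidableEq ι] [Fintype κ] [DecidableEq κ]
    [Fintype β] [Nonempty β] {f : ι → κ} (hf : Function.Injective f) (G : (ι → β) → ℝ) :
    𝔼 u : κ → β, G (fun i => u (f i)) = 𝔼 z, G z := by
  rw [ex_extend hf]
  simp only [hf.extend_apply, ex_const]

section Cube

variable {n D : ℕ} {Λ : ℝ} {σ : (Fin n → Bool) → ℝ}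

/-- Restriction of a point to a set of places. -/
def res (I : Finset (Fin n)) (w : Fin n → Bool) : PA n := fun e => if e ∈ I then some (w e) else none

theorem sz_res (I : Finset (Fin n)) (w : Fin n → Bool) : sz (res I w) = I.card := by
  unfold sz res
  congr 1
  ext e
  by_cases h : e ∈ I <;> simp [h]

theorem agr_res (I : Finset (Fin n)) (w z : Fin n → Bool) :
    Agr (res I w) z ↔ ∀ e ∈ I, z e = w e := by
  unfold Agr res
  constructor
  · intro h e he
    exact h e _ (by simp [he])
  · intro h e c hc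
    by_cases he : e ∈ I
    · simp only [he, if_true, Option.some.injEq] at hc
      rw [h e he, hc]
    · simp [he] at hc

theorem pe_nonneg (hσ : IsPseudo n D Λ σ) {ρ : PA n} (h : sz ρ ≤ D) : 0 ≤ pe σ ρ := by
  rcases hσ.dich ρ h with h1 | h1
  · exact h1.ge
  · exact le_trans (by positivity) h1.1

theorem pos_junta (hσ : IsPseudo n D Λ σ) {U : Finset (Fin n)} (hU : U.card ≤ D)
    {H : (Fin n → Bool) → ℝ} (h0 : ∀ w, 0 ≤ H w)
    (hH : ∀ w w', (∀ e ∈ U, w e = w' e) → H w = H w') : 0 ≤ 𝔼 w, σ w * H w := by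
  have h1 : ∀ z, (1 / 2 : ℝ) ^ U.card * (σ z * H z) =
      𝔼 w, H w * (σ z * ind (Agr (res U w) z)) := by
    intro z
    have h2 : ∀ w, H w * (σ z * ind (Agr (res U w) z)) =
        σ z * H z * ind (Agr (res U z) w) := by
      intro w
      by_cases h : ∀ e ∈ U, z e = w e
      · rw [ind_of ((agr_res U w z).2 h), ind_of ((agr_res U z w).2 fun e he => (h e he).symm),
          hH z w h]
        ring
      · rw [ind_of_not fun h' => h ((agr_res U w z).1 h'),
          ind_of_not fun h' => h fun e he => ((agr_res U z w).1 h' e he).symm]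
        ring
    simp only [h2]
    rw [← mul_expect, psA_ex_agr, sz_res]
    ring
  have h3 : (1 / 2 : ℝ) ^ U.card * 𝔼 w, σ w * H w = 𝔼 w, H w * pe σ (res U w) := by
    rw [mul_expect]
    simp only [h1]
    rw [ex_comm]
    simp only [pe, mul_expect]
  have h4 : 0 ≤ 𝔼 w, H w * pe σ (res U w) :=
    ex_nonneg fun w => mul_nonneg (h0 w) (pe_nonneg hσ (by rw [sz_res]; exact hU))
  rw [← h3] at h4
  exact nonneg_of_mul_nonneg_right h4 (by positivity) |>.trans_eq rfl

theorem null_junta (hσ : IsPseudo n D Λ σ) {U : Finset (Fin n)} (hU : U.card ≤ D)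
    {H F : (Fin n → Bool) → ℝ} (h0 : 𝔼 w, σ w * H w = 0) (hF : ∀ w, |F w| ≤ H w)
    (hH : ∀ w w', (∀ e ∈ U, w e = w' e) → H w = H w')
    (hF' : ∀ w w', (∀ e ∈ U, w e = w' e) → F w = F w') : 𝔼 w, σ w * F w = 0 := by
  have h1 := pos_junta hσ hU (H := fun w => H w - F w)
    (fun w => by linarith [(abs_le.1 (hF w)).2]) fun w w' h => by rw [hH w w' h, hF' w w' h]
  have h2 := pos_junta hσ hU (H := fun w => H w + F w)
    (fun w => by linarith [(abs_le.1 (hF w)).1]) fun w w' h => by rw [hH w w' h, hF' w w' h]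
  simp only [mul_sub, expect_sub_distrib, h0] at h1
  simp only [mul_add, expect_add_distrib, h0] at h2
  linarith

theorem null_mono (hσ : IsPseudo n D Λ σ) {I J : Finset (Fin n)} (hIJ : I ⊆ J) (hJ : J.card ≤ D)
    {w : Fin n → Bool} (h : pe σ (res I w) = 0) : pe σ (res J w) = 0 := by
  refine null_junta hσ hJ h (fun z => ?_) (fun z z' hz => ind_congr ?_) fun z z' hz => ind_congr ?_
  · rw [abs_of_nonneg (ind_nonneg _)]
    refine ind_mono ?_
    rw [agr_res, agr_res]
    exact fun h' e he => h' e (hIJ he)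
  · rw [agr_res, agr_res]
    exact forall₂_congr fun e he => by rw [hz e (hIJ he)]
  · rw [agr_res, agr_res]
    exact forall₂_congr fun e he => by rw [hz e he]

theorem pe_box {N : ℕ} {f : Fin n → Fin N} (hf : Function.Injective f) (σ : (Fin n → Bool) → ℝ)
    (τ : PA N) : ∃ c : ℕ, sz (fun e => τ (f e)) + c ≤ sz τ ∧
      pe (fun u => σ fun e => u (f e)) τ = pe σ (fun e => τ (f e)) * (1 / 2) ^ c := by
  classical
  let τ' : PA N := fun i => if ∃ e, f e = i then none else τ i
  refine ⟨sz τ', ?_, ?_⟩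
  · unfold sz
    rw [← card_map ⟨f, hf⟩, ← card_union_of_disjoint]
    · refine card_le_card fun i hi => ?_
      simp only [mem_union, mem_map, mem_filter, mem_univ, true_and, Function.Embedding.coeFn_mk,
        τ'] at hi ⊢
      rcases hi with ⟨e, he, rfl⟩ | hi
      · exact he
      · split_ifs at hi
        · exact absurd rfl hi
        · exact hi
    · rw [disjoint_left]
      intro i hi hi'
      simp only [mem_map, mem_filter, mem_univ, true_and, Function.Embedding.coeFn_mk,
        τ'] at hi hi'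
      obtain ⟨e, _, rfl⟩ := hi
      simp at hi'
  · unfold pe
    rw [ex_extend hf, ← psA_ex_agr, mul_expect]
    refine expect_congr rfl fun u _ => ?_
    rw [expect_mul]
    refine expect_congr rfl fun z _ => ?_
    simp only [hf.extend_apply]
    rw [mul_assoc, ← ind_and]
    congr 1
    refine ind_congr ⟨fun h => ⟨fun e c hc => ?_, fun i c hc => ?_⟩, fun h i c hc => ?_⟩
    · have := h (f e) c hc
      rwa [hf.extend_apply] at this
    · by_cases hi : ∃ e, f e = i
      · simp [τ', hi] at hc
      · simp only [τ', hi, if_false] at hc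
        have := h i c hc
        rwa [Function.extend_apply' _ _ _ hi] at this
    · by_cases hi : ∃ e, f e = i
      · obtain ⟨e, rfl⟩ := hi
        rw [hf.extend_apply]
        exact h.1 e c hc
      · rw [Function.extend_apply' _ _ _ hi]
        exact h.2 i c (by simp only [τ', hi, if_false]; exact hc)

theorem pe_ge {N : ℕ} {s : (Fin N → Bool) → ℝ} (hs : ∀ u, |s u| ≤ Λ) (τ : PA N) :
    -Λ * (1 / 2) ^ sz τ ≤ pe s τ := by
  rw [← psA_ex_agr, mul_expect]
  exact ex_mono fun u => mul_le_mul_of_nonneg_right (abs_le.1 (hs u)).1 (ind_nonneg _)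

end Cube

end Pool.Agent.Lib.MP_8a52c3_lc.LS
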