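import Pool.Agent.Lib.MP_8a52c3_lc.LS.Base

/-! The junta decomposition in a random box. -/

open Finset
open scoped BigOperators

namespace Pool.Agent.Lib.MP_8a52c3_lc.LS

open Pool.Agent.Lib.MP_8a52c3_lc.Mono

section Pot

variable {A L : Type} [Fintype A] [Fintype L] [Nonempty A] [Nonempty L]
  {τ : A → Bool → L → ℝ} {n : ℕ}

omit [Nonempty A] [Nonempty L] in
theorem pot_step {lam t : ℝ} (hτ : IsGad τ lam) (ht : 0 ≤ t)
    {h : (Fin (n + 1) → L) → ℝ} (h0 : ∀ l, 0 ≤ h l) (l' : Fin n → L) :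
    𝔼 a, ∑ o : Option Bool, t ^ (if o ≠ none then 1 else 0) * br τ false o a h l' ^ 2 ≤
      (1 + 4 * t * lam) * 𝔼 l, h (Fin.cons l l') ^ 2 := by
  have hA := hτ.avg fun l => h (Fin.cons l l')
  have hD := hτ.dif fun l => h (Fin.cons l l')
  have eA : ∀ a, 𝔼 l, (τ a false l + τ a true l) / 2 * h (Fin.cons l l') =
      (Tr τ a false h l' + Tr τ a true h l') / 2 := by
    intro a
    simp only [Tr]
    rw [← expect_add_distrib, expect_div]
    exact expect_congr rfl fun l _ => by ring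
  have eD : ∀ a, 𝔼 l, (τ a true l - τ a false l) / 2 * h (Fin.cons l l') =
      (Tr τ a true h l' - Tr τ a false h l') / 2 := by
    intro a
    simp only [Tr]
    rw [← expect_sub_distrib, expect_div]
    exact expect_congr rfl fun l _ => by ring
  simp only [eA] at hA
  simp only [eD] at hD
  have key : ∀ a, ∑ o : Option Bool, t ^ (if o ≠ none then 1 else 0) * br τ false o a h l' ^ 2 ≤
      ((Tr τ a false h l' + Tr τ a true h l') / 2) ^ 2 +
        4 * t * ((Tr τ a true h l' - Tr τ a false h l') / 2) ^ 2 := by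
    intro a
    have h1 := potA_Tr_nonneg hτ.nonneg a false h0 l'
    have h2 := potA_Tr_nonneg hτ.nonneg a true h0 l'
    simp only [Fintype.sum_option, Fintype.sum_bool, br]
    simp only [ne_eq, not_true_eq_false, if_false, reduceCtorEq, not_false_eq_true,
      if_true, pow_zero, pow_one, one_mul, Bool.false_eq_true, Option.elim]
    rcases le_total (Tr τ a false h l') (Tr τ a true h l') with h3 | h3
    · rw [min_eq_left h3]; nlinarith
    · rw [min_eq_right h3]; nlinarith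
  refine (ex_mono key).trans ?_
  rw [expect_add_distrib, ← mul_expect]
  nlinarith [mul_le_mul_of_nonneg_left hD (show 0 ≤ 4 * t by positivity)]

theorem sz_cons (o : Option Bool) (ρ : PA n) :
    sz (Fin.cons o ρ : PA (n + 1)) = (if o ≠ none then 1 else 0) + sz ρ := by
  unfold sz
  rw [card_filter, card_filter, Fin.sum_univ_succ]
  simp only [Fin.cons_zero, Fin.cons_succ]

theorem pot2 {lam t : ℝ} (hτ : IsGad τ lam) (ht : 0 ≤ t) (hl : 0 ≤ lam)
    {h : (Fin n → L) → ℝ} (h0 : ∀ l, 0 ≤ h l) :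
    𝔼 x, ∑ ρ : PA n, t ^ sz ρ * W τ n (fun _ => false) ρ x h ^ 2 ≤
      (1 + 4 * t * lam) ^ n * 𝔼 l, h l ^ 2 := by
  induction n with
  | zero =>
    have e : ∀ l, h l = h Fin.elim0 := fun l => congrArg h (Subsingleton.elim _ _)
    have e' : ∀ ρ : PA 0, sz ρ = 0 := fun ρ => by simp [sz]
    simp only [W, e', e, ex_const]
    simp
  | succ n ih =>
    rw [ex_cons, ex_comm]
    have e1 : ∀ (a : A) (x : Fin n → A), ∑ ρ : PA (n + 1),
        t ^ sz ρ * W τ (n + 1) (fun _ => false) ρ (Fin.cons a x) h ^ 2 =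
        ∑ o : Option Bool, t ^ (if o ≠ none then 1 else 0) *
          ∑ ρ : PA n, t ^ sz ρ * W τ n (fun _ => false) ρ x (br τ false o a h) ^ 2 := by
      intro a x
      rw [← (Fin.consEquiv fun _ => Option Bool).sum_comp, Fintype.sum_prod_type]
      refine sum_congr rfl fun o _ => ?_
      rw [mul_sum]
      refine sum_congr rfl fun ρ _ => ?_
      have e : (Fin.consEquiv fun _ => Option Bool) (o, ρ) = (Fin.cons o ρ : PA (n + 1)) := rfl
      rw [e, sz_cons, pow_add, mul_assoc]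
      simp only [W, Fin.tail_cons, Fin.cons_zero]
      rfl
    simp only [e1]
    have h1 : ∀ a, 𝔼 x : Fin n → A, ∑ o : Option Bool, t ^ (if o ≠ none then 1 else 0) *
          ∑ ρ : PA n, t ^ sz ρ * W τ n (fun _ => false) ρ x (br τ false o a h) ^ 2 ≤
        (1 + 4 * t * lam) ^ n * 𝔼 l', ∑ o : Option Bool,
          t ^ (if o ≠ none then 1 else 0) * br τ false o a h l' ^ 2 := by
      intro a
      rw [expect_sum_comm, expect_sum_comm, mul_sum]
      refine sum_le_sum fun o _ => ?_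
      rw [← mul_expect, ← mul_expect, mul_left_comm]
      exact mul_le_mul_of_nonneg_left
        (ih (potA_br_nonneg hτ.nonneg false o a h0)) (by positivity)
    refine (ex_mono h1).trans ?_
    rw [← mul_expect, ex_comm, ex_cons fun l => h l ^ 2]
    have h2 := ex_mono fun l' => pot_step hτ ht h0 l'
    rw [← mul_expect] at h2
    refine (mul_le_mul_of_nonneg_left h2 (by positivity)).trans_eq ?_
    ring

end Pot

variable {n r : ℕ} {Q : Type} [Fintype Q] [DecidableEq Q] [Nonempty Q]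

/-- The lifted assignment. -/
def zz (α : Row n r Q) (y : Col n r Q) : Fin n → Bool := fun e => y (gp e (α e).1) (α e).2

/-- The row with groups `φ` in the box `p`. -/
def bx (φ : Fin n → Fin r) (p : Fin (n * r) → Q) : Row n r Q := fun e => (φ e, p (gp e (φ e)))

/-- Pseudo-measure of a function on rows and columns. -/
noncomputable def vl (σ : (Fin n → Bool) → ℝ) (H : Row n r Q → Col n r Q → ℝ) : ℝ :=
  𝔼 α, 𝔼 y, σ (zz α y) * H α y

/-- Mass of a subcube in the decomposition of `h` in the box `p`. -/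
noncomputable def ms (p : Fin (n * r) → Q) (h : Col n r Q → ℝ) (τ : PA (n * r)) : ℝ :=
  W tauY (n * r) (fun _ => false) τ p h * (1 / 2) ^ sz τ

/-- Mass of the subcubes of large codimension. -/
noncomputable def tl (D : ℕ) (p : Fin (n * r) → Q) (h : Col n r Q → ℝ) : ℝ :=
  ∑ τ : PA (n * r), if D < sz τ then ms p h τ else 0

theorem gp_graph (φ : Fin n → Fin r) : Function.Injective fun e => gp e (φ e) :=
  fun _ _ h => (gp_inj h).1

omit [DecidableEq Q] in
theorem ex_bx [NeZero r] (F : Row n r Q → ℝ) :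
    𝔼 α, F α = 𝔼 p, 𝔼 φ, F (bx φ p) := by
  rw [ex_comm, ← ex_equiv (Equiv.arrowProdEquivProdArrow (Fin n) (fun _ => Fin r) fun _ => Q).symm,
    ex_prod]
  refine expect_congr rfl fun φ _ => ?_
  exact (ex_comp (gp_graph φ) fun q => F fun e => (φ e, q e)).symm

theorem box_sum (s : (Fin (n * r) → Bool) → ℝ) (p : Fin (n * r) → Q) (h : Col n r Q → ℝ) :
    𝔼 y, s (gad p y) * h y = ∑ τ : PA (n * r), W tauY (n * r) (fun _ => false) τ p h * pe s τ := by
  rw [← p1A_ff, ff_tauY]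
  rfl

theorem W0 (p : Fin (n * r) → Q) {h : Col n r Q → ℝ} (h0 : ∀ y, 0 ≤ h y) (τ : PA (n * r)) :
    0 ≤ W tauY (n * r) (fun _ => false) τ p h :=
  W_nonneg gad_tauY.nonneg _ _ _ h0

theorem ms_nonneg (p : Fin (n * r) → Q) {h : Col n r Q → ℝ} (h0 : ∀ y, 0 ≤ h y)
    (τ : PA (n * r)) : 0 ≤ ms p h τ := mul_nonneg (W0 p h0 τ) (by positivity)

theorem tl_nonneg (D : ℕ) (p : Fin (n * r) → Q) {h : Col n r Q → ℝ} (h0 : ∀ y, 0 ≤ h y) :
    0 ≤ tl D p h := sum_nonneg fun τ _ => by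
  split_ifs
  · exact ms_nonneg p h0 τ
  · exact le_rfl

theorem ms_sum (p : Fin (n * r) → Q) (h : Col n r Q → ℝ) : ∑ τ, ms p h τ = 𝔼 y, h y := by
  have h1 := box_sum (fun _ => 1) p h
  simp only [one_mul, pe, psA_ex_agr] at h1
  exact h1.symm

/-- A subcube of positive mass fixes every bit that is fixed on the support of `h`. -/
theorem ms_fix (p : Fin (n * r) → Q) {h : Col n r Q → ℝ} (h0 : ∀ y, 0 ≤ h y) {τ : PA (n * r)}
    (hτ : ms p h τ ≠ 0) {i : Fin (n * r)} {c : Bool} (hc : ∀ y, h y ≠ 0 → y i (p i) = c) :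
    τ i = some c := by
  have h1 := box_sum (fun u => ind (u i ≠ c)) p h
  have h2 : ∀ y : Col n r Q, ind (gad p y i ≠ c) * h y = 0 := fun y => by
    by_cases hy : h y = 0
    · rw [hy, mul_zero]
    · rw [ind_of_not (p := gad p y i ≠ c) (not_not.2 (hc y hy)), zero_mul]
  simp only [h2, expect_const_zero] at h1
  have h3 : ∀ τ : PA (n * r), 0 ≤ pe (fun u => ind (u i ≠ c)) τ := fun τ =>
    ex_nonneg fun u => mul_nonneg (ind_nonneg _) (ind_nonneg _)
  have h4 := (sum_eq_zero_iff_of_nonneg fun τ _ => mul_nonneg (W0 p h0 τ) (h3 τ)).1 h1.symm τ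
    (mem_univ _)
  have h5 : pe (fun u => ind (u i ≠ c)) τ = 0 :=
    (mul_eq_zero.1 h4).resolve_left fun h' => hτ (by rw [ms, h', zero_mul])
  by_contra h6
  have h7 := (expect_eq_zero_iff_of_nonneg fun u _ =>
    mul_nonneg (ind_nonneg (u i ≠ c)) (ind_nonneg (Agr τ u))).1 h5
    (fun j => (τ j).getD (!c)) (mem_univ _)
  beta_reduce at h7
  rw [ind_of, ind_of] at h7
  · norm_num at h7
  · intro j c' hj
    simp [hj]
  · revert h6
    rcases τ i with _ | _ | _ <;> cases c <;> simp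

theorem one_add_pow_le [NeZero r] : (1 + 1 / (r : ℝ)) ^ (n * r) ≤ 3 ^ n := by
  have hr : (0 : ℝ) < r := by exact_mod_cast Nat.pos_of_ne_zero (NeZero.ne r)
  rw [mul_comm, pow_mul]
  refine pow_le_pow_left₀ (by positivity) ?_ n
  have h1 : (1 + 1 / (r : ℝ)) ^ r ≤ Real.exp (1 / r) ^ r :=
    pow_le_pow_left₀ (by positivity) (by linarith [Real.add_one_le_exp (1 / (r : ℝ))]) r
  rw [← Real.exp_nat_mul, mul_one_div_cancel hr.ne'] at h1
  linarith [Real.exp_one_lt_d9]

theorem tl_le [NeZero r] (hQ : 2 * r ^ 3 ≤ Fintype.card Q) (d : ℕ)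
    {h : Col n r Q → ℝ} (h0 : ∀ y, 0 ≤ h y) (h1 : ∀ y, h y ≤ 1) :
    𝔼 p, tl (2 * d) p h ≤ 3 ^ n / (r : ℝ) ^ d := by
  have hr : (1 : ℝ) ≤ r := by exact_mod_cast Nat.pos_of_ne_zero (NeZero.ne r)
  have hQ' : 2 * (r : ℝ) ^ 3 ≤ Fintype.card Q := by exact_mod_cast hQ
  have hp := pot2 (n := n * r) (gad_tauY (X := Q)) (t := (r : ℝ) ^ 2 / 2) (by positivity)
    (by positivity) h0
  have h2 : 𝔼 y, h y ^ 2 ≤ 1 := ex_le fun y => pow_le_one₀ (h0 y) (h1 y)
  have h3 : (1 + 4 * ((r : ℝ) ^ 2 / 2) * (1 / Fintype.card Q)) ^ (n * r) ≤ 3 ^ n := by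
    refine le_trans (pow_le_pow_left₀ (by positivity) ?_ _) (one_add_pow_le (r := r))
    rw [add_le_add_iff_left, mul_one_div, div_le_div_iff₀ (by positivity) (by positivity)]
    nlinarith
  have h4 := hp.trans (mul_le_mul h3 h2 (ex_nonneg fun y => sq_nonneg _) (by positivity))
  have h5 : ∑ τ : PA (n * r), (1 / (2 * (r : ℝ))) ^ sz τ ≤ 3 ^ n := by
    have := sum_szo (n := n * r) (X := Bool) (1 / (2 * (r : ℝ)))
    refine le_trans (le_of_eq this) (le_trans (le_of_eq ?_) (one_add_pow_le (r := r)))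
    congr 1
    simp only [Fintype.card_bool]
    field_simp
    norm_num
    ring
  have h6 : ∀ p, tl (2 * d) p h ≤ (∑ τ : PA (n * r), ((r : ℝ) ^ 2 / 2) ^ sz τ *
      W tauY (n * r) (fun _ => false) τ p h ^ 2 + 3 ^ n) / (2 * (r : ℝ) ^ d) := by
    intro p
    refine le_trans ?_ (div_le_div_of_nonneg_right (add_le_add_right h5 _) (by positivity))
    rw [← sum_add_distrib, sum_div]
    refine sum_le_sum fun τ _ => ?_
    have hw := W0 p h0 τ
    split_ifs with hτ
    · rw [ms, le_div_iff₀ (by positivity)]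
      generalize W tauY (n * r) (fun _ => false) τ p h = w at hw ⊢
      generalize sz τ = k at hτ ⊢
      have e1 : ((r : ℝ) ^ 2 / 2) ^ k * (1 / (2 * (r : ℝ))) ^ k = r ^ k * ((1 / 2) ^ k) ^ 2 := by
        rw [← mul_pow, ← pow_mul, mul_comm k 2, pow_mul, ← mul_pow]
        congr 1
        field_simp
      have e2 : ((r : ℝ) ^ d) ^ 2 ≤ r ^ k := by
        rw [← pow_mul]
        exact pow_le_pow_right₀ hr (by omega)
      have ha : 0 < ((r : ℝ) ^ 2 / 2) ^ k := by positivity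
      have hb : 0 < (1 / (2 * (r : ℝ))) ^ k := by positivity
      have hc : 0 < ((1 : ℝ) / 2) ^ k := by positivity
      have hd : 0 < (r : ℝ) ^ d := by positivity
      generalize ((r : ℝ) ^ 2 / 2) ^ k = a at *
      generalize (1 / (2 * (r : ℝ))) ^ k = b at *
      generalize ((1 : ℝ) / 2) ^ k = c at *
      have e3 : (c * (r : ℝ) ^ d) ^ 2 ≤ a * b := by
        rw [e1, mul_pow, mul_comm]
        exact mul_le_mul_of_nonneg_right e2 (sq_nonneg _)
      generalize (r : ℝ) ^ d = s at *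
      refine le_of_mul_le_mul_left ?_ ha
      nlinarith [sq_nonneg (a * w - c * s)]
    · positivity
  refine (ex_mono h6).trans ?_
  rw [← expect_div, expect_add_distrib, ex_const, div_le_div_iff₀ (by positivity) (by positivity)]
  nlinarith [pow_pos (show (0 : ℝ) < r by positivity) d]

variable {D : ℕ} {Λ : ℝ} {σ : (Fin n → Bool) → ℝ}

theorem row_lower (hσ : IsPseudo n D Λ σ) (φ : Fin n → Fin r) (p : Fin (n * r) → Q)
    {h : Col n r Q → ℝ} (h0 : ∀ y, 0 ≤ h y) :
    ∑ τ : PA (n * r), ms p h τ * ind (sz τ ≤ D ∧ pe σ (fun e => τ (gp e (φ e))) ≠ 0) -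
      Λ * tl D p h ≤ 𝔼 y, σ (zz (bx φ p) y) * h y := by
  have h1 := box_sum (fun u => σ fun e => u (gp e (φ e))) p h
  refine le_trans ?_ h1.ge
  rw [tl, mul_sum, ← sum_sub_distrib]
  refine sum_le_sum fun τ _ => ?_
  have hw := W0 p h0 τ
  obtain ⟨c, hc, he⟩ := pe_box (gp_graph φ) σ τ
  split_ifs with hτ
  · rw [ind_of_not fun h' => absurd h'.1 (not_le.2 hτ)]
    have := mul_le_mul_of_nonneg_left
      (pe_ge (s := fun u => σ fun e => u (gp e (φ e))) (fun u => hσ.bound _) τ) hw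
    rw [ms]
    linarith
  · rw [mul_zero, sub_zero, he, ms, mul_assoc]
    refine mul_le_mul_of_nonneg_left ?_ hw
    rcases hσ.dich (fun e => τ (gp e (φ e))) (by omega) with h2 | h2
    · rw [ind_of_not fun h' => h'.2 h2, h2]
      simp
    · refine (mul_le_of_le_one_right (by positivity) (ind_le_one _)).trans ?_
      refine le_trans ?_ (mul_le_mul_of_nonneg_right h2.1 (by positivity))
      rw [← pow_add]
      exact pow_le_pow_of_le_one (by norm_num) (by norm_num) hc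

/-- The tail bound as a hypothesis. -/
def Tail (n r : ℕ) (Q : Type) [Fintype Q] [DecidableEq Q] (D : ℕ) (η : ℝ) : Prop :=
  ∀ h : Col n r Q → ℝ, (∀ y, 0 ≤ h y) → (∀ y, h y ≤ 1) → 𝔼 p, tl D p h ≤ η

theorem vl_rank_one [NeZero r] (hσ : IsPseudo n D Λ σ) {η : ℝ}
    (hη : Tail n r Q D η) {u : Row n r Q → ℝ} {v : Col n r Q → ℝ} {U V : ℝ}
    (hu : ∀ α, 0 ≤ u α ∧ u α ≤ U) (hv : ∀ y, 0 ≤ v y ∧ v y ≤ V) (hV : 0 < V) :
    -(U * V * (Λ * η)) ≤ vl σ fun α y => u α * v y := by
  have hΛ : 0 ≤ Λ := (abs_nonneg _).trans (hσ.bound fun _ => false)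
  have h0 : ∀ y, 0 ≤ v y / V := fun y => div_nonneg (hv y).1 hV.le
  have h1 := hη (fun y => v y / V) h0 fun y => (div_le_one hV).2 (hv y).2
  have hU : 0 ≤ U := (hu (Classical.arbitrary _)).1.trans (hu _).2
  rw [vl, ex_bx]
  have h2 : ∀ p φ, -(U * V * Λ) * tl D p (fun y => v y / V) ≤
      𝔼 y, σ (zz (bx φ p) y) * (u (bx φ p) * v y) := by
    intro p φ
    have h3 := row_lower hσ φ p h0
    have h4 : 0 ≤ ∑ τ : PA (n * r), ms p (fun y => v y / V) τ *
        ind (sz τ ≤ D ∧ pe σ (fun e => τ (gp e (φ e))) ≠ 0) :=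
      sum_nonneg fun τ _ => mul_nonneg (ms_nonneg p h0 τ) (ind_nonneg _)
    have h5 : 𝔼 y, σ (zz (bx φ p) y) * (u (bx φ p) * v y) =
        u (bx φ p) * V * 𝔼 y, σ (zz (bx φ p) y) * (v y / V) := by
      rw [mul_expect]
      refine expect_congr rfl fun y _ => ?_
      field_simp
    rw [h5]
    have h6 := mul_nonneg hΛ (tl_nonneg D p h0)
    have h7 := mul_le_mul_of_nonneg_left (show -(Λ * tl D p fun y => v y / V) ≤
      𝔼 y, σ (zz (bx φ p) y) * (v y / V) by linarith) (mul_nonneg (hu (bx φ p)).1 hV.le)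
    refine le_trans ?_ h7
    nlinarith [mul_le_mul_of_nonneg_right (hu (bx φ p)).2 (mul_nonneg hV.le h6)]
  refine le_trans ?_ (ex_mono fun p => (ex_const (-(U * V * Λ) * tl D p (fun y => v y / V))).ge.trans
    (ex_mono fun φ => h2 p φ))
  rw [← mul_expect]
  nlinarith [mul_le_mul_of_nonneg_left h1 (show 0 ≤ U * V * Λ by positivity)]

end Pool.Agent.Lib.MP_8a52c3_lc.LS
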