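import Pool.Agent.Lib.MP_8a52c3_lc.LS.Rank

/-! The cover lemma for triangles. -/

open Finset
open scoped BigOperators

namespace Pool.Agent.Lib.MP_8a52c3_lc.LS

open Pool.Agent.Lib.MP_8a52c3_lc.Mono

/-- Density of a set. -/
noncomputable def mu {α : Type} [Fintype α] (A : α → Prop) : ℝ := 𝔼 a, ind (A a)

theorem mu_mono {α : Type} [Fintype α] {A B : α → Prop} (h : ∀ a, A a → B a) : mu A ≤ mu B :=
  ex_mono fun a => ind_mono (h a)

theorem mu_nonneg {α : Type} [Fintype α] (A : α → Prop) : 0 ≤ mu A :=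
  ex_nonneg fun _ => ind_nonneg _

theorem mu_le_one {α : Type} [Fintype α] [Nonempty α] (A : α → Prop) : mu A ≤ 1 :=
  ex_le fun _ => ind_le_one _

theorem mu_pos {α : Type} [Fintype α] {A : α → Prop} (h : 0 < mu A) : ∃ a, A a := by
  by_contra hc
  have : mu A = 0 := by
    simp only [mu, ind_of_not fun h' => hc ⟨_, h'⟩, expect_const_zero]
  linarith

theorem mu_union {α ι : Type} [Fintype α] (s : Finset ι) {A : α → Prop} {B : α → Prop}
    {E : ι → α → Prop} (h : ∀ a, A a → B a ∨ ∃ i ∈ s, E i a) :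
    mu A ≤ mu B + ∑ i ∈ s, mu (E i) := by
  unfold mu
  rw [← expect_sum_comm, ← expect_add_distrib]
  refine ex_mono fun a => ?_
  have h1 : 0 ≤ ∑ i ∈ s, ind (E i a) := sum_nonneg fun i _ => ind_nonneg _
  by_cases ha : A a
  · rw [ind_of ha]
    rcases h a ha with hb | ⟨i, hi, hE⟩
    · rw [ind_of hb]; linarith
    · have := single_le_sum (f := fun i => ind (E i a)) (fun i _ => ind_nonneg _) hi
      rw [ind_of hE] at this
      linarith [ind_nonneg (B a)]
  · rw [ind_of_not ha]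
    linarith [ind_nonneg (B a)]

theorem mu_false {α : Type} [Fintype α] : mu (fun _ : α => False) = 0 := by
  simp [mu, ind]

/-- The row sections are nested. -/
def Chain {α β : Type} (T : α → β → Prop) : Prop :=
  ∀ a a', (∀ y, T a y → T a' y) ∨ ∀ y, T a' y → T a y

theorem Chain.max {α β : Type} [Fintype α] [Fintype β] {T : α → β → Prop} (hT : Chain T)
    {S : α → Prop} (hS : ∃ a, S a) : ∃ a₀, S a₀ ∧ ∀ a, S a → ∀ y, T a y → T a₀ y := by
  classical
  obtain ⟨a₀, h0, h1⟩ := exists_max_image (univ.filter S) (fun a => (univ.filter (T a)).card)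
    (by simpa [Finset.Nonempty] using hS)
  refine ⟨a₀, (mem_filter.1 h0).2, fun a ha y hy => ?_⟩
  rcases hT a a₀ with h | h
  · exact h y hy
  · have h2 : univ.filter (T a₀) = univ.filter (T a) :=
      eq_of_subset_of_card_le (fun y hy => by simpa using h y (by simpa using hy))
        (h1 a (by simpa using ha))
    have : y ∈ univ.filter (T a₀) := by rw [h2]; simpa using hy
    simpa using this

theorem Chain.min {α β : Type} [Fintype α] [Fintype β] {T : α → β → Prop} (hT : Chain T)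
    {S : α → Prop} (hS : ∃ a, S a) : ∃ a₀, S a₀ ∧ ∀ a, S a → ∀ y, T a₀ y → T a y := by
  have h : Chain fun a y => ¬ T a y := fun a a' =>
    (hT a a').symm.imp (fun h y => mt (h y)) fun h y => mt (h y)
  obtain ⟨a₀, h0, h1⟩ := h.max hS
  exact ⟨a₀, h0, fun a ha y hy => by_contra fun hc => h1 a ha y hc hy⟩

theorem spread {n r k : ℕ} [NeZero r] {lam κ : ℝ} (hκ : 0 < κ) (hl : 1 ≤ lam) (hr : lam ≤ r)
    (hk : 1 / κ < (r / lam) ^ (k + 1)) {U : (Fin n → Fin r) → Prop} (hU : κ ≤ mu U) :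
    ∃ (I : Finset (Fin n)) (γ : Fin n → Fin r), I.card ≤ k ∧
      κ / lam ^ k ≤ mu (fun φ => U φ ∧ ∀ e ∈ I, φ e = γ e) ∧ ∀ e ∉ I, ∀ j,
        lam * mu (fun φ => (U φ ∧ ∀ e ∈ I, φ e = γ e) ∧ φ e = j) ≤
          mu fun φ => U φ ∧ ∀ e ∈ I, φ e = γ e := by
  classical
  have hl0 : 0 < lam := one_pos.trans_le hl
  obtain ⟨⟨I, γ⟩, -, h1⟩ := exists_max_image (univ : Finset (Finset (Fin n) × (Fin n → Fin r)))
    (fun x => lam ^ x.1.card * mu fun φ => U φ ∧ ∀ e ∈ x.1, φ e = x.2 e) univ_nonempty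
  have h2 := h1 (∅, γ) (mem_univ _)
  simp only [card_empty, pow_zero, one_mul, notMem_empty, false_imp_iff, imp_true_iff,
    and_true] at h2
  have h3 : mu (fun φ : Fin n → Fin r => ∀ e ∈ I, φ e = γ e) = (1 / (r : ℝ)) ^ I.card := by
    have h4 : ∀ φ : Fin n → Fin r, ind (∀ e ∈ I, φ e = γ e) =
        ∏ e, (if e ∈ I then (if φ e = γ e then (1 : ℝ) else 0) else 1) := by
      intro φ
      by_cases h : ∀ e ∈ I, φ e = γ e
      · rw [ind_of h]
        exact (prod_eq_one fun e _ => by by_cases he : e ∈ I <;> simp [he, h e]).symm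
      · rw [ind_of_not h]
        push Not at h
        obtain ⟨e, he, hne⟩ := h
        exact (prod_eq_zero (mem_univ e) (by simp [he, hne])).symm
    simp only [mu, h4]
    rw [ex_pi_prod fun (e : Fin n) (a : Fin r) =>
      if e ∈ I then (if a = γ e then (1 : ℝ) else 0) else 1, ← prod_const,
      ← prod_filter_mul_prod_filter_not univ (· ∈ I), filter_mem_eq_inter, univ_inter,
      prod_eq_one (s := univ.filter _) fun e he => by simp [(mem_filter.1 he).2],
      mul_one]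
    exact prod_congr rfl fun e he => by simp [he]
  have h5 : I.card ≤ k := by
    by_contra hc
    have h6 := (hU.trans h2).trans (mul_le_mul_of_nonneg_left
      ((mu_mono fun φ h => h.2).trans_eq h3) (by positivity))
    have h7 : ((r : ℝ) / lam) ^ (k + 1) ≤ (r / lam) ^ I.card :=
      pow_le_pow_right₀ ((one_le_div hl0).2 hr) (by omega)
    have h8 : (0 : ℝ) < r := hl0.trans_le hr
    have h9 : (r / lam) ^ I.card * (lam ^ I.card * (1 / (r : ℝ)) ^ I.card) = 1 := by
      rw [← mul_pow, ← mul_pow]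
      rw [show (r / lam) * (lam * (1 / (r : ℝ))) = 1 by field_simp, one_pow]
    have h10 := mul_le_mul_of_nonneg_left h6 (show 0 ≤ ((r : ℝ) / lam) ^ I.card by positivity)
    rw [div_lt_iff₀ hκ] at hk
    nlinarith [mul_le_mul_of_nonneg_right h7 hκ.le]
  refine ⟨I, γ, h5, ?_, fun e he j => ?_⟩
  · rw [div_le_iff₀' (by positivity)]
    exact (hU.trans h2).trans
      (mul_le_mul_of_nonneg_right (pow_le_pow_right₀ hl h5) (mu_nonneg _))
  · have h6 := h1 (insert e I, Function.update γ e j) (mem_univ _)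
    simp only [card_insert_of_notMem he, pow_succ, mul_assoc] at h6
    refine le_trans (mul_le_mul_of_nonneg_left (mu_mono fun φ h => ?_) hl0.le)
      (le_of_mul_le_mul_left h6 (by positivity))
    refine ⟨h.1.1, fun e' he' => ?_⟩
    rcases mem_insert.1 he' with rfl | h'
    · simp [h.2]
    · rw [Function.update_of_ne (fun h'' => he (by rw [← h'']; exact h')), h.1.2 e' h']

variable {n r : ℕ} {Q : Type}

/-- Patterns: positions and bits in some blocks. -/
abbrev Pat (n r : ℕ) (Q : Type) : Type := Fin n → Option ((Fin r × Q) × Bool)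

/-- The pattern of a row and an assignment on `I`. -/
def pat (I : Finset (Fin n)) (α : Row n r Q) (w : Fin n → Bool) : Pat n r Q :=
  fun e => if e ∈ I then some (α e, w e) else none

/-- The restriction given by a pattern. -/
def rho (π : Pat n r Q) : PA n := fun e => (π e).map Prod.snd

/-- Columns that fit a pattern. -/
def CY (π : Pat n r Q) (y : Col n r Q) : Prop :=
  ∀ e a c, π e = some (a, c) → y (gp e a.1) a.2 = c

theorem rho_pat (I : Finset (Fin n)) (α : Row n r Q) (w : Fin n → Bool) :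
    rho (pat I α w) = res I w := by
  funext e
  by_cases h : e ∈ I <;> simp [rho, pat, res, h]

theorem szo_pat (I : Finset (Fin n)) (α : Row n r Q) (w : Fin n → Bool) :
    szo (pat I α w) = I.card := by
  unfold szo
  congr 1
  ext e
  by_cases h : e ∈ I <;> simp [pat, h]

theorem CY_pat (I : Finset (Fin n)) (α : Row n r Q) (y : Col n r Q) :
    CY (pat I α (zz α y)) y := by
  intro e a c h
  by_cases he : e ∈ I
  · simp only [pat, he, if_true, Option.some.injEq, Prod.mk.injEq] at h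
    rw [← h.1, ← h.2]
    rfl
  · simp [pat, he] at h

variable [Fintype Q] [DecidableEq Q] [Nonempty Q]

/-- Bound for the number of patterns of width `k`. -/
def MM (n r : ℕ) (Q : Type) [Fintype Q] (k : ℕ) : ℕ :=
  2 ^ n * (Fintype.card (Fin r × Q) * 2) ^ k

theorem card_pat [NeZero r] (k : ℕ) :
    (univ.filter fun π : Pat n r Q => szo π ≤ k).card ≤ MM n r Q k := by
  have := card_small (n := n) (X := (Fin r × Q) × Bool) k
  rwa [Fintype.card_prod _ Bool, Fintype.card_bool] at this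

/-- `T` is covered by null patterns of width `k` on the rectangle `A × B`. -/
def Cvd (σ : (Fin n → Bool) → ℝ) (k : ℕ) (T : Row n r Q → Col n r Q → Prop)
    (A : Row n r Q → Prop) (B : Col n r Q → Prop) : Prop :=
  ∃ I : Row n r Q → Finset (Fin n), (∀ α, (I α).card ≤ k) ∧
    ∀ α y, A α → B y → T α y → pe σ (res (I α) (zz α y)) = 0

/-- Indicator of a rectangle. -/
noncomputable def rect (A : Row n r Q → Prop) (B : Col n r Q → Prop) :
    Row n r Q → Col n r Q → ℝ := fun α y => ind (A α) * ind (B y)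

/-- The statement of the cover lemma. -/
def CovOK (r : ℕ) (Q : Type) [Fintype Q] [DecidableEq Q] (σ : (Fin n → Bool) → ℝ) (κ : ℝ) (k : ℕ)
    (ν : ℝ) : Prop :=
  ∀ T : Row n r Q → Col n r Q → Prop, Chain T →
    (∃ A B, (∀ α y, A α → B y → T α y) ∧ ν ≤ vl σ (rect A B)) ∨
      ∃ EA EB, mu EA ≤ κ ∧ mu EB ≤ κ ∧ Cvd σ k T (fun α => ¬ EA α) fun y => ¬ EB y

variable {D : ℕ} {Λ : ℝ} {σ : (Fin n → Bool) → ℝ}

theorem good_box [NeZero r] {lam : ℝ} (hD : 2 * (D : ℝ) ≤ lam) (hl : 1 ≤ lam)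
    (p : Fin (n * r) → Q) {π : Pat n r Q} (hπ : pe σ (rho π) ≠ 0) {B : Col n r Q → Prop}
    (hB : ∀ y, B y → CY π y) {V : (Fin n → Fin r) → Prop}
    (hV : ∀ φ, V φ → ∀ e a c, π e = some (a, c) → bx φ p e = a)
    (hs : ∀ e, π e = none → ∀ j, lam * mu (fun φ => V φ ∧ φ e = j) ≤ mu V) :
    mu V / 2 * (mu B - tl D p fun y => ind (B y)) ≤
      𝔼 φ, ind (V φ) * ∑ τ : PA (n * r), ms p (fun y => ind (B y)) τ *
        ind (sz τ ≤ D ∧ pe σ (fun e => τ (gp e (φ e))) ≠ 0) := by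
  classical
  have h0 : ∀ y, 0 ≤ ind (B y) := fun y => ind_nonneg _
  simp only [mul_sum]
  rw [expect_sum_comm, mu.eq_def B, ← ms_sum p, tl, ← sum_sub_distrib, mul_sum]
  refine sum_le_sum fun τ _ => ?_
  have hm := ms_nonneg p h0 τ
  split_ifs with hτ
  · rw [sub_self, mul_zero]
    exact ex_nonneg fun φ => mul_nonneg (ind_nonneg _) (mul_nonneg hm (ind_nonneg _))
  · by_cases hz : ms p (fun y => ind (B y)) τ = 0
    · simp [hz]
    have h1 : mu V ≤ mu (fun φ => V φ ∧ sz τ ≤ D ∧ pe σ (fun e => τ (gp e (φ e))) ≠ 0) +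
        ∑ x ∈ univ.filter (fun x : Fin n × Fin r => π x.1 = none ∧ τ (gp x.1 x.2) ≠ none),
          mu fun φ => V φ ∧ φ x.1 = x.2 := by
      refine mu_union _ fun φ hφ => ?_
      by_cases h : ∃ e, π e = none ∧ τ (gp e (φ e)) ≠ none
      · obtain ⟨e, he⟩ := h
        exact Or.inr ⟨(e, φ e), by simpa using he, hφ, rfl⟩
      · refine Or.inl ⟨hφ, not_lt.1 hτ, ?_⟩
        convert hπ using 2
        funext e
        rcases hπe : π e with _ | ⟨a, c⟩
        · simp only [rho, hπe, Option.map_none]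
          exact by_contra fun h' => h ⟨e, hπe, h'⟩
        · simp only [rho, hπe, Option.map_some]
          refine ms_fix p h0 hz fun y hy => ?_
          have h2 := hB y (by_contra fun h' => hy (ind_of_not h')) e a c hπe
          rw [← hV φ hφ e a c hπe] at h2
          exact h2
    have h3 : (univ.filter fun x : Fin n × Fin r => π x.1 = none ∧ τ (gp x.1 x.2) ≠ none).card
        ≤ D := by
      refine le_trans ?_ (not_lt.1 hτ)
      refine card_le_card_of_injOn (fun x => gp x.1 x.2) (fun x hx => ?_) fun x _ x' _ h => ?_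
      · simpa using (by simpa using hx : _ ∧ _).2
      · exact Prod.ext (gp_inj h).1 (gp_inj h).2
    have h4 := sum_le_card_nsmul (univ.filter fun x : Fin n × Fin r =>
      π x.1 = none ∧ τ (gp x.1 x.2) ≠ none) (fun x => mu fun φ => V φ ∧ φ x.1 = x.2) (mu V / lam)
      fun x hx => by
        rw [le_div_iff₀' (by positivity)]
        exact hs x.1 (mem_filter.1 hx).2.1 x.2
    rw [nsmul_eq_mul] at h4
    have h5 : ((univ.filter fun x : Fin n × Fin r => π x.1 = none ∧ τ (gp x.1 x.2) ≠ none).card : ℝ)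
        * (mu V / lam) ≤ mu V / 2 := by
      have h6 : ((univ.filter fun x : Fin n × Fin r =>
        π x.1 = none ∧ τ (gp x.1 x.2) ≠ none).card : ℝ) ≤ D := by exact_mod_cast h3
      rw [← mul_div_assoc, div_le_div_iff₀ (by positivity) (by positivity)]
      nlinarith [mu_nonneg V]
    have h7 : 𝔼 φ, ind (V φ) * (ms p (fun y => ind (B y)) τ *
        ind (sz τ ≤ D ∧ pe σ (fun e => τ (gp e (φ e))) ≠ 0)) =
        mu (fun φ => V φ ∧ sz τ ≤ D ∧ pe σ (fun e => τ (gp e (φ e))) ≠ 0) *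
          ms p (fun y => ind (B y)) τ := by
      rw [mu, expect_mul]
      exact expect_congr rfl fun φ _ => by rw [ind_and (V φ)]; ring
    rw [h7, sub_zero]
    exact mul_le_mul_of_nonneg_right (by linarith) hm

theorem cover [NeZero r] (hσ : IsPseudo n D Λ σ) {η lam κ ν : ℝ} {k : ℕ} (hη : Tail n r Q D η)
    (hκ : 0 < κ) (hl : 1 ≤ lam) (hr : lam ≤ r) (hD : 2 * (D : ℝ) ≤ lam)
    (hk : 2 / κ < (r / lam) ^ (k + 1))
    (hν : ν + (1 + Λ) * η ≤ κ ^ 3 / (8 * (MM n r Q k : ℝ) ^ 2 * lam ^ k)) :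
    CovOK r Q σ κ k ν := by
  classical
  intro T hT
  have hΛ : 0 ≤ Λ := (abs_nonneg _).trans (hσ.bound fun _ => false)
  have hM : (0 : ℝ) < MM n r Q k := by
    have : 0 < Fintype.card (Fin r × Q) := Fintype.card_pos
    unfold MM
    positivity
  have hcard : ((univ.filter fun π : Pat n r Q => szo π ≤ k).card : ℝ) ≤ MM n r Q k := by
    exact_mod_cast card_pat k
  let Sm : Row n r Q → Pat n r Q → Prop := fun α π =>
    mu (fun y => T α y ∧ CY π y) < κ / MM n r Q k
  let EA : Row n r Q → Prop := fun α =>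
    ¬ ∃ I : Finset (Fin n), I.card ≤ k ∧ ∀ w, pe σ (res I w) ≠ 0 → Sm α (pat I α w)
  by_cases hEA : mu EA ≤ κ
  · refine Or.inr ⟨EA, fun y => ∃ π ∈ univ.filter fun π : Pat n r Q => szo π ≤ k,
      ∃ α, Sm α π ∧ T α y ∧ CY π y, hEA, ?_, ?_⟩
    · refine (mu_union (B := fun _ => False) _ fun y hy => Or.inr hy).trans ?_
      rw [mu_false, zero_add]
      refine (sum_le_card_nsmul _ _ (κ / MM n r Q k) fun π _ => ?_).trans ?_
      · by_cases h : ∃ α, Sm α π
        · obtain ⟨a₀, h1, h2⟩ := hT.max h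
          exact le_trans (mu_mono fun y ⟨α, h3, h4, h5⟩ => ⟨h2 α h3 y h4, h5⟩) h1.le
        · refine le_trans (mu_mono fun y ⟨α, h3, _⟩ => h ⟨α, h3⟩) ?_
          rw [mu_false]
          positivity
      · rw [nsmul_eq_mul, ← mul_div_assoc, div_le_iff₀ hM]
        nlinarith
    · have h1 : ∀ α, ∃ I : Finset (Fin n), I.card ≤ k ∧
          (¬ EA α → ∀ w, pe σ (res I w) ≠ 0 → Sm α (pat I α w)) := by
        intro α
        by_cases h : EA α
        · exact ⟨∅, by simp, fun h' => absurd h h'⟩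
        · obtain ⟨I, h2, h3⟩ := not_not.1 h
          exact ⟨I, h2, fun _ => h3⟩
      choose I h2 h3 using h1
      refine ⟨I, h2, fun α y hα hy hαy => by_contra fun hc => hy ?_⟩
      exact ⟨_, mem_filter.2 ⟨mem_univ _, (szo_pat _ _ _).trans_le (h2 α)⟩, α, h3 α hα _ hc, hαy,
        CY_pat _ _ _⟩
  left
  have hκ1 : κ ≤ 1 := (not_le.1 hEA).le.trans (mu_le_one _)
  let Good : Pat n r Q → (Fin (n * r) → Q) → Prop := fun π p => pe σ (rho π) ≠ 0 ∧
    ∃ V : (Fin n → Fin r) → Prop, κ / 2 / lam ^ k ≤ mu V ∧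
      (∀ φ, V φ → ¬ Sm (bx φ p) π ∧ ∀ e a c, π e = some (a, c) → bx φ p e = a) ∧
      ∀ e, π e = none → ∀ j, lam * mu (fun φ => V φ ∧ φ e = j) ≤ mu V
  have h1 : ∀ p, κ / 2 ≤ mu (fun φ => EA (bx φ p)) →
      ∃ π ∈ univ.filter fun π : Pat n r Q => szo π ≤ k, Good π p := by
    intro p hp
    obtain ⟨I, γ, hI, hV, hs⟩ := spread (half_pos hκ) hl hr (by rwa [one_div_div]) hp
    obtain ⟨φ₁, hφ₁⟩ := mu_pos (lt_of_lt_of_le (by positivity) hV)
    obtain ⟨_, ⟨φ₀, hφ₀, rfl⟩, hmin⟩ := hT.min (S := fun α => ∃ φ,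
      (EA (bx φ p) ∧ ∀ e ∈ I, φ e = γ e) ∧ bx φ p = α) ⟨_, φ₁, hφ₁, rfl⟩
    obtain ⟨w, hw, hw'⟩ : ∃ w, pe σ (res I w) ≠ 0 ∧ ¬ Sm (bx φ₀ p) (pat I (bx φ₀ p) w) := by
      by_contra hc
      exact hφ₀.1 ⟨I, hI, fun w hw => by_contra fun h' => hc ⟨w, hw, h'⟩⟩
    refine ⟨pat I (bx φ₀ p) w, mem_filter.2 ⟨mem_univ _, (szo_pat _ _ _).trans_le hI⟩,
      by rwa [rho_pat], _, hV, fun φ hφ => ⟨fun h => hw' ?_, fun e a c h => ?_⟩,
      fun e he j => hs e (fun h => by simp [pat, h] at he) j⟩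
    · exact lt_of_le_of_lt (mu_mono fun y hy => ⟨hmin _ ⟨φ, hφ, rfl⟩ y hy.1, hy.2⟩) h
    · by_cases he : e ∈ I
      · simp only [pat, he, if_true, Option.some.injEq, Prod.mk.injEq] at h
        rw [← h.1]
        simp only [bx, hφ.2 e he, hφ₀.2 e he]
      · simp [pat, he] at h
  have h2 : κ / 2 ≤ mu fun p : Fin (n * r) → Q => κ / 2 ≤ mu fun φ => EA (bx φ p) := by
    have h3 := (not_le.1 hEA).le
    rw [mu, ex_bx] at h3
    have h4 : ∀ p : Fin (n * r) → Q, 𝔼 φ, ind (EA (bx φ p)) ≤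
        κ / 2 + ind (κ / 2 ≤ mu fun φ => EA (bx φ p)) := by
      intro p
      by_cases h : κ / 2 ≤ mu fun φ => EA (bx φ p)
      · rw [ind_of h]
        linarith [mu_le_one fun φ => EA (bx φ p), mu.eq_def fun φ => EA (bx φ p)]
      · rw [ind_of_not h, add_zero]
        exact (not_le.1 h).le
    have h5 := h3.trans (ex_mono h4)
    rw [expect_add_distrib, ex_const] at h5
    rw [mu]
    linarith
  obtain ⟨π, hπ⟩ : ∃ π, κ / 2 / MM n r Q k ≤ mu (Good π) := by
    by_contra hc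
    push Not at hc
    have h3 := h2.trans (mu_union (B := fun _ => False) _ fun p hp => Or.inr (h1 p hp))
    rw [mu_false, zero_add] at h3
    have h4 := sum_lt_sum_of_nonempty (s := univ.filter fun π : Pat n r Q => szo π ≤ k)
      ⟨fun _ => none, by simp [szo]⟩ fun π _ => hc π
    rw [sum_const, nsmul_eq_mul, ← mul_div_assoc, lt_div_iff₀ hM] at h4
    nlinarith
  obtain ⟨p₀, hπ0, V₀, hV₀, hV₀', -⟩ := mu_pos (lt_of_lt_of_le (by positivity) hπ)
  obtain ⟨φ₀, hφ₀⟩ := mu_pos (lt_of_lt_of_le (by positivity) hV₀)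
  obtain ⟨α₁, hα₁, hmin⟩ := hT.min (S := fun α => ¬ Sm α π) ⟨_, (hV₀' φ₀ hφ₀).1⟩
  let B : Col n r Q → Prop := fun y => T α₁ y ∧ CY π y
  have hB : κ / MM n r Q k ≤ mu B := not_lt.1 hα₁
  have hB0 : ∀ y, 0 ≤ ind (B y) := fun y => ind_nonneg _
  refine ⟨fun α => ¬ Sm α π, B, fun α y hα hy => hmin α hα y hy.1, ?_⟩
  have hc1 : κ / 2 / lam ^ k / 2 ≤ 1 := by
    have := one_le_pow₀ (n := k) hl
    rw [div_div, div_div, div_le_one (by positivity)]
    nlinarith
  have h3 : ∀ p, κ / 2 / lam ^ k / 2 * (κ / MM n r Q k) * ind (Good π p) -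
      (1 + Λ) * tl D p (fun y => ind (B y)) ≤
      𝔼 φ, 𝔼 y, σ (zz (bx φ p) y) * rect (fun α => ¬ Sm α π) B (bx φ p) y := by
    intro p
    have ht := tl_nonneg D p hB0
    have h4 : ∀ φ, ind (¬ Sm (bx φ p) π) * (∑ τ : PA (n * r), ms p (fun y => ind (B y)) τ *
        ind (sz τ ≤ D ∧ pe σ (fun e => τ (gp e (φ e))) ≠ 0)) - Λ * tl D p (fun y => ind (B y)) ≤
        𝔼 y, σ (zz (bx φ p) y) * rect (fun α => ¬ Sm α π) B (bx φ p) y := by
      intro φ
      unfold rect
      by_cases h : ¬ Sm (bx φ p) π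
      · simp only [ind_of h, one_mul]
        exact row_lower hσ φ p hB0
      · simp only [ind_of_not h, zero_mul, mul_zero, expect_const_zero]
        nlinarith
    refine le_trans ?_ (ex_mono h4)
    rw [expect_sub_distrib, ex_const]
    have hsum : ∀ φ : Fin n → Fin r, 0 ≤ ∑ τ : PA (n * r), ms p (fun y => ind (B y)) τ *
        ind (sz τ ≤ D ∧ pe σ (fun e => τ (gp e (φ e))) ≠ 0) := fun φ =>
      sum_nonneg fun τ _ => mul_nonneg (ms_nonneg p hB0 τ) (ind_nonneg _)
    by_cases hp : Good π p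
    · rw [ind_of hp]
      obtain ⟨-, V, hV, hV', hs⟩ := hp
      have h5 := (good_box hD hl p hπ0 (fun y hy => hy.2) (fun φ hφ => (hV' φ hφ).2) hs).trans
        (ex_mono fun φ => mul_le_mul_of_nonneg_right (ind_mono fun h => (hV' φ h).1) (hsum φ))
      have h6 : tl D p (fun y => ind (B y)) ≤ mu B := by
        rw [mu, ← ms_sum p, tl]
        refine sum_le_sum fun τ _ => ?_
        split_ifs
        · exact le_rfl
        · exact ms_nonneg p hB0 τ
      have h7 := mul_le_mul_of_nonneg_right (show κ / 2 / lam ^ k / 2 ≤ mu V / 2 by linarith)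
        (sub_nonneg.2 h6)
      have h8 := mul_le_mul_of_nonneg_left hB (show 0 ≤ κ / 2 / lam ^ k / 2 by positivity)
      nlinarith [mul_le_mul_of_nonneg_right hc1 ht]
    · rw [ind_of_not hp]
      have h5 := ex_nonneg fun φ => mul_nonneg (ind_nonneg (¬ Sm (bx φ p) π)) (hsum φ)
      linarith
  rw [vl, ex_bx]
  refine le_trans ?_ (ex_mono h3)
  rw [expect_sub_distrib, ← mul_expect, ← mul_expect]
  have h4 := mul_le_mul_of_nonneg_left (hη _ hB0 fun y => ind_le_one _)
    (show 0 ≤ 1 + Λ by positivity)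
  have h5 := mul_le_mul_of_nonneg_left hπ
    (show 0 ≤ κ / 2 / lam ^ k / 2 * (κ / MM n r Q k) by positivity)
  have h6 : κ / 2 / lam ^ k / 2 * (κ / MM n r Q k) * (κ / 2 / MM n r Q k) =
      κ ^ 3 / (8 * (MM n r Q k : ℝ) ^ 2 * lam ^ k) := by
    field_simp
    norm_num
  rw [mu] at h5
  linarith

end Pool.Agent.Lib.MP_8a52c3_lc.LS
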