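import Pool.Agent.Lib.MP_8a52c3_lc.LS.Key

/-! Decompositions into a null part, a small part and few nonnegative products. -/

open Finset
open scoped BigOperators

namespace Pool.Agent.Lib.MP_8a52c3_lc.LS

open Pool.Agent.Lib.MP_8a52c3_lc.Mono

variable {n r : ℕ} {Q : Type} [Fintype Q] {D : ℕ} {Λ : ℝ} {σ : (Fin n → Bool) → ℝ}

/-- On `A × B` the matrix `F` is a null part, a small part and `s` nonnegative products. -/
def Dec (σ : (Fin n → Bool) → ℝ) (R s : ℕ) (G ξ : ℝ) (A : Row n r Q → Prop) (B : Col n r Q → Prop)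
    (F : Row n r Q → Col n r Q → ℝ) : Prop :=
  ∃ (N J : Row n r Q → Col n r Q → ℝ) (ι : Type) (_ : Fintype ι) (a : ι → Row n r Q → ℝ)
    (b : ι → Col n r Q → ℝ), Low σ R N ∧ Fintype.card ι ≤ s ∧ (∀ i α, 0 ≤ a i α ∧ a i α ≤ G) ∧
    (∀ i y, 0 ≤ b i y ∧ b i y ≤ G) ∧ ∀ α y, A α → B y →
      0 ≤ J α y ∧ J α y ≤ ξ ∧ F α y = N α y + J α y + ∑ i, a i α * b i y

variable {R R' s s' : ℕ} {G G' ξ ξ' : ℝ} {A : Row n r Q → Prop} {B : Col n r Q → Prop}
  {F F' : Row n r Q → Col n r Q → ℝ}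

omit [Fintype Q] in
theorem Dec.mono (h : Dec σ R s G ξ A B F) (hR : R ≤ R') (hs : s ≤ s') (hG : G ≤ G')
    (hξ : ξ ≤ ξ') : Dec σ R' s' G' ξ' A B F := by
  obtain ⟨N, J, ι, _, a, b, h1, h2, h3, h4, h5⟩ := h
  exact ⟨N, J, ι, inferInstance, a, b, h1.mono hR, h2.trans hs,
    fun i α => ⟨(h3 i α).1, (h3 i α).2.trans hG⟩, fun i y => ⟨(h4 i y).1, (h4 i y).2.trans hG⟩,
    fun α y p q => ⟨(h5 α y p q).1, (h5 α y p q).2.1.trans hξ, (h5 α y p q).2.2⟩⟩

omit [Fintype Q] in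
theorem Dec.congr (h : Dec σ R s G ξ A B F) (he : ∀ α y, A α → B y → F' α y = F α y) :
    Dec σ R s G ξ A B F' := by
  obtain ⟨N, J, ι, _, a, b, h1, h2, h3, h4, h5⟩ := h
  exact ⟨N, J, ι, inferInstance, a, b, h1, h2, h3, h4,
    fun α y p q => ⟨(h5 α y p q).1, (h5 α y p q).2.1, (he α y p q).trans (h5 α y p q).2.2⟩⟩

omit [Fintype Q] in
theorem Dec.low (h : Low σ R F) : Dec σ R 0 G 0 A B F :=
  ⟨F, fun _ _ => 0, Empty, inferInstance, Empty.elim, Empty.elim, h, by simp, fun i => i.elim,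
    fun i => i.elim, fun _ _ _ _ => by simp⟩

omit [Fintype Q] in
theorem Dec.junk (h : ∀ α y, A α → B y → 0 ≤ F α y ∧ F α y ≤ ξ) : Dec σ 0 0 G ξ A B F :=
  ⟨fun _ _ => 0, F, Empty, inferInstance, Empty.elim, Empty.elim, Low.zero, by simp,
    fun i => i.elim, fun i => i.elim, fun α y p q => ⟨(h α y p q).1, (h α y p q).2, by simp⟩⟩

omit [Fintype Q] in
theorem Dec.one {u : Row n r Q → ℝ} {v : Col n r Q → ℝ} (hu : ∀ α, 0 ≤ u α ∧ u α ≤ G)
    (hv : ∀ y, 0 ≤ v y ∧ v y ≤ G) : Dec σ 0 1 G 0 A B fun α y => u α * v y :=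
  ⟨fun _ _ => 0, fun _ _ => 0, Unit, inferInstance, fun _ => u, fun _ => v, Low.zero, by simp,
    fun _ => hu, fun _ => hv, fun _ _ _ _ => by simp⟩

theorem Dec.add (h : Dec σ R s G ξ A B F) (h' : Dec σ R' s' G ξ' A B F') :
    Dec σ (R + R') (s + s') G (ξ + ξ') A B fun α y => F α y + F' α y := by
  obtain ⟨N, J, ι, _, a, b, h1, h2, h3, h4, h5⟩ := h
  obtain ⟨N', J', ι', _, a', b', h1', h2', h3', h4', h5'⟩ := h'
  refine ⟨_, fun α y => J α y + J' α y, ι ⊕ ι', inferInstance, Sum.elim a a', Sum.elim b b',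
    h1.add h1', by rw [Fintype.card_sum]; omega, fun i => by cases i <;> simp [h3, h3'],
    fun i => by cases i <;> simp [h4, h4'], fun α y p q => ?_⟩
  obtain ⟨e1, e2, e3⟩ := h5 α y p q
  obtain ⟨e1', e2', e3'⟩ := h5' α y p q
  simp only [Fintype.sum_sum_type, Sum.elim_inl, Sum.elim_inr]
  exact ⟨by linarith, by linarith, by linarith⟩

theorem Dec.sum {ι : Type} (t : Finset ι) {F : ι → Row n r Q → Col n r Q → ℝ}
    (h : ∀ i ∈ t, Dec σ R s G ξ A B (F i)) :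
    Dec σ (t.card * R) (t.card * s) G (t.card * ξ) A B fun α y => ∑ i ∈ t, F i α y := by
  classical
  induction t using Finset.induction_on with
  | empty => simpa using Dec.low Low.zero
  | insert a t ha ih =>
    simp only [sum_insert ha, card_insert_of_notMem ha]
    exact ((h a (mem_insert_self _ _)).add (ih fun i hi => h i (mem_insert_of_mem hi))).mono
      (le_of_eq (by ring)) (le_of_eq (by ring)) le_rfl (le_of_eq (by push_cast; ring))

theorem Dec.mul {u : Row n r Q → ℝ} {v : Col n r Q → ℝ} {U : ℝ} (hU : 1 ≤ U) (_hG : 0 ≤ G)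
    (hξ : 0 ≤ ξ) (hu : ∀ α, 0 ≤ u α ∧ u α ≤ U) (hv : ∀ y, 0 ≤ v y ∧ v y ≤ 1)
    (h : Dec σ R s G ξ (fun α => A α ∧ u α ≠ 0) (fun y => B y ∧ v y ≠ 0) F) :
    Dec σ R s (U * G) (U * ξ) A B fun α y => u α * v y * F α y := by
  obtain ⟨N, J, ι, _, a, b, h1, h2, h3, h4, h5⟩ := h
  refine ⟨_, fun α y => u α * v y * J α y, ι, inferInstance, fun i α => u α * a i α,
    fun i y => v y * b i y, h1.mul u v, h2, fun i α => ⟨mul_nonneg (hu α).1 (h3 i α).1,
      mul_le_mul (hu α).2 (h3 i α).2 (h3 i α).1 (by linarith)⟩,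
    fun i y => ⟨mul_nonneg (hv y).1 (h4 i y).1,
      mul_le_mul ((hv y).2.trans hU) (h4 i y).2 (h4 i y).1 (by linarith)⟩, fun α y p q => ?_⟩
  by_cases e : u α ≠ 0 ∧ v y ≠ 0
  · obtain ⟨e1, e2, e3⟩ := h5 α y ⟨p, e.1⟩ ⟨q, e.2⟩
    have e4 : 0 ≤ u α * v y := mul_nonneg (hu α).1 (hv y).1
    have e5 : u α * v y ≤ U := (mul_le_of_le_one_right (hu α).1 (hv y).2).trans (hu α).2
    refine ⟨mul_nonneg e4 e1, mul_le_mul e5 e2 e1 (by linarith), ?_⟩
    beta_reduce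
    rw [e3, mul_add, mul_add, mul_sum]
    congr 1
    exact sum_congr rfl fun i _ => by ring
  · have : 0 ≤ U * ξ := by positivity
    rcases not_and_or.1 e with e | e <;> simp [not_not.1 e, this]

omit [Fintype Q] in
theorem Dec.sub {A' : Row n r Q → Prop} {B' : Col n r Q → Prop} (h : Dec σ R s G ξ A B F)
    (hA : ∀ α, A' α → A α) (hB : ∀ y, B' y → B y) : Dec σ R s G ξ A' B' F := by
  obtain ⟨N, J, ι, _, a, b, h1, h2, h3, h4, h5⟩ := h
  exact ⟨N, J, ι, inferInstance, a, b, h1, h2, h3, h4, fun α y p q => h5 α y (hA α p) (hB y q)⟩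

theorem dec_sq (t : ℕ) {a : Row n r Q → ℝ} {b : Col n r Q → ℝ} (hG : 0 ≤ G)
    (ha : ∀ α, |a α| ≤ G) (hb : ∀ y, |b y| ≤ G) :
    Dec σ 0 (2 * t) (2 * G) ((2 * G / 2 ^ t) ^ 2) A B fun α y => (a α + b y) ^ 2 := by
  induction t generalizing G a b with
  | zero =>
    refine Dec.junk fun α y _ _ => ⟨sq_nonneg _, ?_⟩
    have h1 := abs_le.1 (ha α)
    have h2 := abs_le.1 (hb y)
    simp only [pow_zero, div_one]
    exact sq_le_sq' (by linarith) (by linarith)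
  | succ t ih =>
    have h1 := ih (G := G / 2) (a := fun α => |a α| - G / 2) (b := fun y => G / 2 - |b y|)
      (by linarith) (fun α => abs_le.2 ⟨by linarith [abs_nonneg (a α)], by linarith [ha α]⟩)
      fun y => abs_le.2 ⟨by linarith [hb y], by linarith [abs_nonneg (b y)]⟩
    have hp : ∀ x : ℝ, |x| ≤ G → 0 ≤ |x| + x ∧ |x| + x ≤ 2 * G := fun x h =>
      ⟨by linarith [neg_abs_le x], by linarith [le_abs_self x]⟩
    have hm : ∀ x : ℝ, |x| ≤ G → 0 ≤ |x| - x ∧ |x| - x ≤ 2 * G := fun x h =>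
      ⟨by linarith [le_abs_self x], by linarith [neg_abs_le x]⟩
    have h2 := ((h1.mono le_rfl le_rfl (show _ ≤ 2 * G by linarith) le_rfl).add
      (Dec.one (fun α => hp _ (ha α)) fun y => hp _ (hb y))).add
      (Dec.one (fun α => hm _ (ha α)) fun y => hm _ (hb y))
    refine (h2.mono le_rfl (by omega) le_rfl (le_of_eq ?_)).congr fun α y _ _ => ?_
    · rw [pow_succ 2 t]
      field_simp
      ring
    · linear_combination -sq_abs (a α) - sq_abs (b y)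

omit [Fintype Q] in
theorem aff_pos [Fintype (Row n r Q)] {a : Row n r Q → ℝ} {b : Col n r Q → ℝ} (hG : 0 ≤ G)
    (ha : ∀ α, |a α| ≤ G) (hb : ∀ y, |b y| ≤ G) (h : ∀ α y, A α → B y → 0 ≤ a α + b y) :
    ∃ (a' : Row n r Q → ℝ) (b' : Col n r Q → ℝ), (∀ α, 0 ≤ a' α ∧ a' α ≤ 2 * G) ∧
      (∀ y, 0 ≤ b' y ∧ b' y ≤ 2 * G) ∧ ∀ α y, A α → B y → a α + b y = a' α + b' y := by
  classical
  by_cases hA : ∃ α, A α
  · obtain ⟨α₀, h0, h1⟩ := exists_min_image (univ.filter A) a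
      (by simpa [Finset.Nonempty] using hA)
    have h2 := abs_le.1 (ha α₀)
    refine ⟨fun α => max 0 (a α - a α₀), fun y => max 0 (b y + a α₀),
      fun α => ⟨le_max_left _ _, max_le (by linarith) (by linarith [(abs_le.1 (ha α)).2])⟩,
      fun y => ⟨le_max_left _ _, max_le (by linarith) (by linarith [(abs_le.1 (hb y)).2])⟩,
      fun α y p q => ?_⟩
    beta_reduce
    rw [max_eq_right (by linarith [h1 α (by simpa using p)]),
      max_eq_right (by linarith [h α₀ y (mem_filter.1 h0).2 q])]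
    ring
  · exact ⟨fun _ => 0, fun _ => 0, fun _ => ⟨le_rfl, by linarith⟩, fun _ => ⟨le_rfl, by linarith⟩,
      fun α _ p => absurd ⟨α, p⟩ hA⟩

variable [DecidableEq Q] [Nonempty Q] [NeZero r]

theorem dec_mul (hσ : IsPseudo n D Λ σ) {k : ℕ} (hk : 2 * k ≤ D) {a a' : Row n r Q → ℝ}
    {b b' : Col n r Q → ℝ} (hG : 1 ≤ G) (ha : ∀ α, |a α| ≤ G) (hb : ∀ y, |b y| ≤ G)
    (ha' : ∀ α, |a' α| ≤ G) (hb' : ∀ y, |b' y| ≤ G)
    (h : Cvd σ k (fun α y => a α + b y < 0) A B) (h' : Cvd σ k (fun α y => a' α + b' y < 0) A B) :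
    Dec σ (4 * RR n r Q D (2 * k)) (MM n r Q (2 * k) * 4) (4 * G ^ 2) 0 A B
      fun α y => (a α + b y) * (a' α + b' y) := by
  classical
  obtain ⟨I, hI, h⟩ := h
  obtain ⟨I', hI', h'⟩ := h'
  have hJ : ∀ α, (I α ∪ I' α).card ≤ 2 * k := fun α =>
    (card_union_le _ _).trans (by linarith [hI α, hI' α])
  have hl := low_nul hσ hJ
  have h1 := (((hl.mul (fun α => a α * a' α) fun _ => 1).add (hl.mul a b')).add
    (hl.mul a' b)).add (hl.mul (fun _ => 1) fun y => b y * b' y)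
  let RA : Pat n r Q → Row n r Q → Prop := fun π α =>
    ∀ e, (π e).map Prod.fst = if e ∈ I α ∪ I' α then some (α e) else none
  have hπ : ∀ π α y, RA π α ∧ CY π y ↔ π = pat (I α ∪ I' α) α (zz α y) := by
    intro π α y
    constructor
    · rintro ⟨p, q⟩
      funext e
      have h2 := p e
      unfold pat
      split_ifs at h2 ⊢
      · rcases hπ : π e with _ | ⟨x, c⟩
        · simp [hπ] at h2
        · simp only [hπ, Option.map_some, Option.some.injEq] at h2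
          rw [← q e x c hπ, h2]
          rfl
      · simpa using h2
    · rintro rfl
      refine ⟨fun e => ?_, CY_pat _ _ _⟩
      unfold pat
      split_ifs <;> rfl
  have h2 := Dec.sum (σ := σ) (R := 0) (s := 4) (G := 1 * (4 * G ^ 2)) (ξ := 1 * 0) (A := A)
    (B := B) (univ.filter fun π : Pat n r Q => szo π ≤ 2 * k ∧ pe σ (rho π) ≠ 0)
    (F := fun π α y => ind (RA π α) * ind (CY π y) * ((a α + b y) * (a' α + b' y)))
    fun π hπ' => by
      refine Dec.mul le_rfl (by positivity) le_rfl (fun _ => ⟨ind_nonneg _, ind_le_one _⟩)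
        (fun _ => ⟨ind_nonneg _, ind_le_one _⟩) ?_
      have h3 : ∀ α y, A α ∧ ind (RA π α) ≠ 0 → B y ∧ ind (CY π y) ≠ 0 →
          pe σ (res (I α ∪ I' α) (zz α y)) ≠ 0 := fun α y p q => by
        have := (hπ π α y).1 ⟨by_contra fun c => p.2 (ind_of_not c),
          by_contra fun c => q.2 (ind_of_not c)⟩
        rw [← rho_pat _ α, ← this]
        exact (mem_filter.1 hπ').2.2
      obtain ⟨a₁, b₁, e1, e2, e3⟩ := aff_pos (by linarith) ha hb fun α y p q => not_lt.1 fun c =>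
        h3 α y p q (null_mono hσ subset_union_left ((hJ α).trans hk) (h α y p.1 q.1 c))
      obtain ⟨a₂, b₂, f1, f2, f3⟩ := aff_pos (by linarith) ha' hb' fun α y p q => not_lt.1 fun c =>
        h3 α y p q (null_mono hσ subset_union_right ((hJ α).trans hk) (h' α y p.1 q.1 c))
      have g0 : (0 : ℝ) ≤ 1 ∧ 1 ≤ 4 * G ^ 2 := ⟨zero_le_one, by nlinarith⟩
      have g1 : ∀ x : ℝ, 0 ≤ x ∧ x ≤ 2 * G → 0 ≤ x ∧ x ≤ 4 * G ^ 2 := fun x h =>
        ⟨h.1, by nlinarith [h.2]⟩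
      have g2 : ∀ x x' : ℝ, 0 ≤ x ∧ x ≤ 2 * G → 0 ≤ x' ∧ x' ≤ 2 * G →
          0 ≤ x * x' ∧ x * x' ≤ 4 * G ^ 2 := fun x x' h h' =>
        ⟨mul_nonneg h.1 h'.1, (mul_le_mul h.2 h'.2 h'.1 (by linarith)).trans_eq (by ring)⟩
      refine (((((Dec.one (fun α => g2 _ _ (e1 α) (f1 α)) fun _ => g0).add
        (Dec.one (fun α => g1 _ (e1 α)) fun y => g1 _ (f2 y))).add
        (Dec.one (fun α => g1 _ (f1 α)) fun y => g1 _ (e2 y))).add
        (Dec.one (fun _ => g0) fun y => g2 _ _ (e2 y) (f2 y))).mono le_rfl le_rfl le_rfl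
        (by norm_num)).congr fun α y p q => ?_
      rw [e3 α y p q, f3 α y p q]
      ring
  have h3 : (univ.filter fun π : Pat n r Q => szo π ≤ 2 * k ∧ pe σ (rho π) ≠ 0).card ≤
      MM n r Q (2 * k) :=
    (card_le_card (monotone_filter_right _ fun π _ h => h.1)).trans (card_pat _)
  refine (((Dec.low h1).add h2).mono (by omega) (by nlinarith) (by linarith) (by simp)).congr
    fun α y _ _ => ?_
  simp only [← ind_and, hπ]
  rw [sum_filter, sum_eq_single (pat (I α ∪ I' α) α (zz α y))]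
  · rw [rho_pat, szo_pat]
    by_cases c : pe σ (res (I α ∪ I' α) (zz α y)) = 0 <;> simp [c, ind, hJ]
    ring
  · intro π _ c
    simp [ind, c]
  · simp

theorem level (G x : ℝ) (h0 : 0 ≤ x) (hG : x ≤ G) (L : ℕ) :
    x - ∑ p : Fin L, x * ind (G / 2 ^ (p + 1 : ℕ) < x ∧ x ≤ G / 2 ^ (p : ℕ)) =
      x * ind (x ≤ G / 2 ^ L) := by
  induction L with
  | zero => simp [ind, hG]
  | succ L ih =>
    rw [Fin.sum_univ_castSucc, ← sub_sub]
    simp only [Fin.val_castSucc, Fin.val_last]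
    rw [ih]
    have h1 : G / 2 ^ (L + 1) ≤ G / 2 ^ L :=
      div_le_div_of_nonneg_left (h0.trans hG) (by positivity)
        (pow_le_pow_right₀ one_le_two (by omega))
    by_cases a : x ≤ G / 2 ^ (L + 1)
    · simp [ind, a, a.trans h1, not_lt.2 a]
    · by_cases b : x ≤ G / 2 ^ L <;> simp [ind, a, b, not_le.1 a]

theorem key (hσ : IsPseudo n D Λ σ) {η κ ν ξ₁ : ℝ} {k g L s₁ : ℕ} (hη : Tail n r Q D η)
    (hη0 : 0 ≤ η) (hκ : 0 ≤ κ) (hc : CovOK r Q σ κ k ν) (hg : 1 ≤ g)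
    (h : Dec σ R s (2 ^ g) ξ A B fun _ _ => -1) (hs : s * (L * L) + 1 ≤ s₁)
    (hξ : ξ + s * (2 * (2 ^ g) ^ 2 / 2 ^ L) ≤ ξ₁)
    (hv : ν + 2 * Λ * κ * s₁ ≤ vl σ (rect A B)) (hν : 0 < ν) (hξ0 : 0 ≤ ξ₁) (hξ1 : ξ₁ ≤ 1)
    (h1 : 4 * (s₁ + 1) * (Λ * η) + Λ * ξ₁ ≤ ν / 2)
    (h2 : (Λ * (1 + 4 * s₁)) ^ 2 * (R + s₁ * RR n r Q D k) <
      (ν / 2) ^ 2 * Fintype.card (Fin r × Q) ^ n) : False := by
  obtain ⟨N, J, ι, _, a, b, e1, e2, e3, e4, e5⟩ := h
  let bd : ℕ → ℝ → ℝ := fun p x => x * ind (2 ^ g / 2 ^ (p + 1) < x ∧ x ≤ 2 ^ g / 2 ^ p)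
  have hbd : ∀ p x, bd p x = 0 ∨
      (2 ^ g / 2 ^ (p + 1) ≤ bd p x ∧ bd p x ≤ 2 * (2 ^ g / 2 ^ (p + 1))) := fun p x => by
    by_cases c : 2 ^ g / 2 ^ (p + 1) < x ∧ x ≤ 2 ^ g / 2 ^ p
    · right
      simp only [bd, ind_of c, mul_one]
      refine ⟨c.1.le, c.2.trans_eq ?_⟩
      rw [pow_succ]
      field_simp
    · left
      simp only [bd, ind_of_not c, mul_zero]
  have hw : (2 ^ g : ℝ) ^ 2 / 2 ^ (2 * g - 2 + 2) = 1 := by
    rw [show 2 * g - 2 + 2 = g * 2 by omega, pow_mul, div_self (by positivity)]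
  refine key0 hσ hη hη0 hκ hc (ι := Option (ι × Fin L × Fin L))
    (fun c α => c.elim 1 fun x => bd x.2.1 (a x.1 α)) (fun c y => c.elim 1 fun x => bd x.2.2 (b x.1 y))
    (fun c => c.elim 1 fun x => 2 ^ g / 2 ^ (x.2.1 + 1 : ℕ))
    (fun c => c.elim 1 fun x => 2 ^ g / 2 ^ (x.2.2 + 1 : ℕ))
    (fun c => c.elim (2 * g - 2) fun x => x.2.1 + x.2.2) (fun l => (2 ^ g) ^ 2 / 2 ^ (l + 2))
    (fun l l' hl => div_le_div_of_nonneg_left (by positivity) (by positivity)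
      (pow_le_pow_right₀ one_le_two (by omega)))
    (fun c => by cases c <;> simp only [Option.elim] <;> positivity)
    (fun c => by cases c <;> simp only [Option.elim] <;> positivity)
    (fun c α => by
      cases c
      · right; norm_num
      · exact hbd _ _)
    (fun c y => by
      cases c
      · right; norm_num
      · exact hbd _ _)
    (fun c => by
      cases c
      · simp only [Option.elim, hw, mul_one]
      · simp only [Option.elim, pow_add]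
        field_simp) none (fun α y => by simp)
    (J := fun α y => J α y + ∑ i, (a i α * b i y -
      (∑ p : Fin L, bd p (a i α)) * ∑ p : Fin L, bd p (b i y)))
    (e1.mul (fun _ => -1) fun _ => 1) (fun α y p q => ?_) ?_ hv hν hξ0 hξ1 h1 h2
  · obtain ⟨f1, f2, f3⟩ := e5 α y p q
    have h3 : ∀ x : ℝ, 0 ≤ x ∧ x ≤ 2 ^ g → 0 ≤ x - ∑ p : Fin L, bd p x ∧
        x - ∑ p : Fin L, bd p x ≤ 2 ^ g / 2 ^ L ∧ 0 ≤ ∑ p : Fin L, bd p x := fun x hx => by
      refine ⟨?_, ?_, sum_nonneg fun p _ => mul_nonneg hx.1 (ind_nonneg _)⟩ <;>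
        simp only [bd] <;> rw [level _ x hx.1 hx.2 L]
      · exact mul_nonneg hx.1 (ind_nonneg _)
      · by_cases c : x ≤ 2 ^ g / 2 ^ L
        · rwa [ind_of c, mul_one]
        · rw [ind_of_not c, mul_zero]
          positivity
    have h4 : ∀ i, 0 ≤ a i α * b i y - (∑ p : Fin L, bd p (a i α)) * ∑ p : Fin L, bd p (b i y) ∧
        a i α * b i y - (∑ p : Fin L, bd p (a i α)) * ∑ p : Fin L, bd p (b i y) ≤
          2 * (2 ^ g) ^ 2 / 2 ^ L := fun i => by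
      obtain ⟨a1, a2, a3⟩ := h3 _ (e3 i α)
      obtain ⟨b1, b2, b3⟩ := h3 _ (e4 i y)
      have c1 := mul_le_mul a2 (e4 i y).2 (e4 i y).1 (by positivity)
      have c2 := mul_le_mul (show ∑ p : Fin L, bd p (a i α) ≤ 2 ^ g by linarith [(e3 i α).2]) b2 b1
        (by positivity)
      have c3 : (2 : ℝ) * (2 ^ g) ^ 2 / 2 ^ L =
          2 ^ g / 2 ^ L * 2 ^ g + 2 ^ g * (2 ^ g / 2 ^ L) := by ring
      exact ⟨by nlinarith [mul_nonneg a1 (e4 i y).1, mul_nonneg a3 b1], by linarith⟩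
    have h5 := sum_le_card_nsmul univ _ _ fun i _ => (h4 i).2
    have h6 : ((univ : Finset ι).card : ℝ) ≤ s := by exact_mod_cast e2
    rw [nsmul_eq_mul] at h5
    refine ⟨add_nonneg f1 (sum_nonneg fun i _ => (h4 i).1), ?_, ?_⟩
    · simp only [Option.elim, hw, mul_one]
      linarith [mul_le_mul_of_nonneg_right h6
        (show (0 : ℝ) ≤ 2 * (2 ^ g) ^ 2 / 2 ^ L by positivity)]
    · simp only [Fintype.sum_option, Option.elim, Fintype.sum_prod_type, sum_sub_distrib,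
        sum_mul_sum]
      linarith
  · simp only [Fintype.card_option, Fintype.card_prod, Fintype.card_fin]
    exact le_trans (Nat.add_le_add_right (Nat.mul_le_mul_right _ e2) 1) hs

end Pool.Agent.Lib.MP_8a52c3_lc.LS
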