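import Mathlib

/-! Dag-like Lovasz-Schrijver refutations with real coefficients. -/

open MvPolynomial

namespace Pool.Agent.Lib.MP_8a52c3_lc.LS

/-- A line `p` is read as the inequality `p ≥ 0`. -/
abbrev Poly (N : ℕ) : Type := MvPolynomial (Fin N) ℝ

variable {N : ℕ}

/-- The literal `(i, true)` is `x_i`, the literal `(i, false)` is `1 - x_i`. -/
noncomputable def lit (l : Fin N × Bool) : Poly N := if l.2 then X l.1 else 1 - X l.1

/-- The inequality of a clause: the sum of its literals is at least `1`. -/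
noncomputable def clause (c : Finset (Fin N × Bool)) : Poly N := (∑ l ∈ c, lit l) - 1

/-- Value at a point of the cube. -/
noncomputable def val (x : Fin N → Bool) (p : Poly N) : ℝ :=
  eval (fun i => if x i then 1 else 0) p

/-- One inference from the clauses `F` and the set `P` of earlier lines. -/
inductive Step (F : Finset (Finset (Fin N × Bool))) (P : Set (Poly N)) : Poly N → Prop
  | hyp (c : Finset (Fin N × Bool)) : c ∈ F → Step F P (clause c)
  | var (l : Fin N × Bool) : Step F P (lit l)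
  | bool (q : Poly N) (i : Fin N) : Step F P (q * (X i ^ 2 - X i))
  | add (f g : Poly N) (a b : ℝ) : f ∈ P → g ∈ P → 0 ≤ a → 0 ≤ b → Step F P (C a * f + C b * g)
  | mul (f g : Poly N) (M : Finset (Fin N × Bool)) : f ∈ P → g ∈ P → f.totalDegree ≤ 1 →
      g.totalDegree ≤ 1 → Step F P ((∏ l ∈ M, lit l) * (f * g))
  | sq (h : Poly N) (M : Finset (Fin N × Bool)) : h.totalDegree ≤ 1 →
      Step F P ((∏ l ∈ M, lit l) * h ^ 2)
  | cut (f g h : Poly N) : f ∈ P → g ∈ P → f.totalDegree ≤ 1 → g.totalDegree ≤ 1 →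
      h.totalDegree ≤ 1 → (∀ x, 0 ≤ val x f → 0 ≤ val x g → 0 ≤ val x h) → Step F P h

/-- `L 0, …, L (T - 1)` is a refutation of `F`. -/
def Refutes (F : Finset (Finset (Fin N × Bool))) (T : ℕ) (L : ℕ → Poly N) : Prop :=
  (∀ k < T, Step F {p | ∃ j < k, L j = p} (L k)) ∧ ∃ k < T, L k = -1

end Pool.Agent.Lib.MP_8a52c3_lc.LS
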