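import Pool.Agent.Lib.MP_8a52c3_lc.LS.Cover

/-! The deletion process and the key lemma. -/

open Finset
open scoped BigOperators

namespace Pool.Agent.Lib.MP_8a52c3_lc.LS

open Pool.Agent.Lib.MP_8a52c3_lc.Mono

variable {n r : ℕ} {Q : Type} [Fintype Q] [DecidableEq Q]
  {D : ℕ} {Λ : ℝ} {σ : (Fin n → Bool) → ℝ}

theorem vl_add (F G : Row n r Q → Col n r Q → ℝ) :
    vl σ (fun α y => F α y + G α y) = vl σ F + vl σ G := by
  simp only [vl, mul_add, expect_add_distrib]

theorem vl_sum {ι : Type} (s : Finset ι) (F : ι → Row n r Q → Col n r Q → ℝ) :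
    vl σ (fun α y => ∑ i ∈ s, F i α y) = ∑ i ∈ s, vl σ (F i) := by
  simp only [vl, mul_sum, expect_sum_comm]

theorem vl_smul (c : ℝ) (F : Row n r Q → Col n r Q → ℝ) :
    vl σ (fun α y => c * F α y) = c * vl σ F := by
  simp only [vl, mul_expect, mul_left_comm]

theorem rect_ne {A : Row n r Q → Prop} {B : Col n r Q → Prop} (h : vl σ (rect A B) ≠ 0) :
    ∃ α y, A α ∧ B y := by
  by_contra hc
  refine h ?_
  have : ∀ α y, rect A B α y = 0 := fun α y => by
    rw [rect, ← ind_and]
    exact ind_of_not fun h' => hc ⟨α, y, h'⟩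
  simp only [vl, this, mul_zero, expect_const_zero]

omit [Fintype Q] [DecidableEq Q] in
theorem Cvd.mono {k : ℕ} {T T' : Row n r Q → Col n r Q → Prop} {A A' : Row n r Q → Prop}
    {B B' : Col n r Q → Prop} (h : Cvd σ k T A B)
    (h' : ∀ α y, A' α → B' y → T' α y → A α ∧ B y ∧ T α y) : Cvd σ k T' A' B' := by
  obtain ⟨I, h1, h2⟩ := h
  exact ⟨I, h1, fun α y a b c => h2 α y (h' α y a b c).1 (h' α y a b c).2.1 (h' α y a b c).2.2⟩

variable [Nonempty Q] [NeZero r]

theorem vl_ge (hb : ∀ z, |σ z| ≤ Λ) {F : Row n r Q → Col n r Q → ℝ} {u : Row n r Q → ℝ}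
    {v : Col n r Q → ℝ} (h : ∀ α y, |F α y| ≤ u α + v y) :
    -(Λ * (𝔼 α, u α + 𝔼 y, v y)) ≤ vl σ F := by
  have h1 : ∀ α y, -(Λ * (u α + v y)) ≤ σ (zz α y) * F α y := fun α y =>
    (abs_le.1 ((abs_mul _ _).trans_le (mul_le_mul (hb _) (h α y) (abs_nonneg _)
      ((abs_nonneg _).trans (hb fun _ => false))))).1
  refine le_trans (le_of_eq ?_) (ex_mono fun α => ex_mono fun y => h1 α y)
  simp only [expect_neg_distrib, ← mul_expect, expect_add_distrib, ex_const]

theorem process (hb : ∀ z, |σ z| ≤ Λ) {κ ν : ℝ} {k : ℕ} (hκ : 0 ≤ κ) (hc : CovOK r Q σ κ k ν)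
    {ι : Type} [Fintype ι] (T : ι → Row n r Q → Col n r Q → Prop) (hT : ∀ c, Chain (T c))
    (key : ι → ℕ) {A₀ : Row n r Q → Prop} {B₀ : Col n r Q → Prop} (c₀ : ι)
    (h0 : ∀ α y, A₀ α → B₀ y → T c₀ α y)
    (hv : ν + 2 * Λ * κ * Fintype.card ι ≤ vl σ (rect A₀ B₀)) :
    ∃ c A B, key c ≤ key c₀ ∧ (∀ α, A α → A₀ α) ∧ (∀ y, B y → B₀ y) ∧
      (∀ α y, A α → B y → T c α y) ∧ ν ≤ vl σ (rect A B) ∧
      ∀ c', key c' < key c → Cvd σ k (T c') A B := by
  classical
  have hΛ : 0 ≤ Λ := (abs_nonneg _).trans (hb fun _ => false)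
  have main : ∀ l : ℕ, (∃ c A B, key c < l ∧ (∀ α, A α → A₀ α) ∧ (∀ y, B y → B₀ y) ∧
      (∀ α y, A α → B y → T c α y) ∧ ν ≤ vl σ (rect A B) ∧
      ∀ c', key c' < key c → Cvd σ k (T c') A B) ∨
      ∃ A B, (∀ α, A α → A₀ α) ∧ (∀ y, B y → B₀ y) ∧
        mu (fun α => A₀ α ∧ ¬ A α) ≤ κ * (univ.filter fun c => key c < l).card ∧
        mu (fun y => B₀ y ∧ ¬ B y) ≤ κ * (univ.filter fun c => key c < l).card ∧
        ∀ c, key c < l → Cvd σ k (T c) A B := by
    intro l
    induction l with
    | zero =>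
      exact Or.inr ⟨A₀, B₀, fun _ h => h, fun _ h => h, by simp [mu_false], by simp [mu_false],
        fun c h => absurd h (Nat.not_lt_zero _)⟩
    | succ l ih =>
      rcases ih with ⟨c, A, B, h1, h2⟩ | ⟨A, B, hA, hB, hmA, hmB, hcv⟩
      · exact Or.inl ⟨c, A, B, by omega, h2⟩
      by_cases hex : ∃ c, key c = l ∧ ∃ A' B', (∀ α y, A' α → B' y → T c α y ∧ A α ∧ B y) ∧
          ν ≤ vl σ (rect A' B')
      · obtain ⟨c, hcl, A', B', h1, h2⟩ := hex
        refine Or.inl ⟨c, fun α => A' α ∧ A α, fun y => B' y ∧ B y, by omega,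
          fun α h => hA α h.2, fun y h => hB y h.2, fun α y h h' => (h1 α y h.1 h'.1).1, ?_,
          fun c' hc' => (hcv c' (by omega)).mono fun α y h h' h'' => ⟨h.2, h'.2, h''⟩⟩
        convert h2 using 2
        funext α y
        rw [rect, rect, ← ind_and, ← ind_and]
        exact ind_congr ⟨fun h => ⟨h.1.1, h.2.1⟩,
          fun h => ⟨⟨h.1, (h1 α y h.1 h.2).2.1⟩, h.2, (h1 α y h.1 h.2).2.2⟩⟩
      · have h1 : ∀ c, ∃ EA EB, key c = l → mu EA ≤ κ ∧ mu EB ≤ κ ∧
            Cvd σ k (fun α y => T c α y ∧ A α ∧ B y) (fun α => ¬ EA α) fun y => ¬ EB y := by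
          intro c
          have hch : Chain fun α y => T c α y ∧ A α ∧ B y := by
            intro α α'
            by_cases h : A α
            · by_cases h' : A α'
              · exact (hT c α α').imp (fun h1 y h2 => ⟨h1 y h2.1, h', h2.2.2⟩)
                  fun h1 y h2 => ⟨h1 y h2.1, h, h2.2.2⟩
              · exact Or.inr fun y h2 => absurd h2.2.1 h'
            · exact Or.inl fun y h2 => absurd h2.2.1 h
          rcases hc _ hch with h2 | ⟨EA, EB, h2⟩
          · exact ⟨A, B, fun h => absurd ⟨c, h, h2⟩ hex⟩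
          · exact ⟨EA, EB, fun _ => h2⟩
        choose EA EB h1 using h1
        have hcard : ((univ.filter fun c => key c < l + 1).card : ℝ) =
            (univ.filter fun c => key c < l).card + (univ.filter fun c => key c = l).card := by
          rw [← Nat.cast_add, ← card_union_of_disjoint (disjoint_filter.2 fun c _ h => h.ne),
            ← filter_or]
          congr 2
          ext c
          simp only [mem_filter, mem_univ, true_and]
          omega
        refine Or.inr ⟨fun α => A α ∧ ∀ c, key c = l → ¬ EA c α,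
          fun y => B y ∧ ∀ c, key c = l → ¬ EB c y, fun α h => hA α h.1, fun y h => hB y h.1,
          ?_, ?_, fun c hcl => ?_⟩
        · refine (mu_union (univ.filter fun c => key c = l) (B := fun α => A₀ α ∧ ¬ A α)
            (E := EA) fun α h => ?_).trans ?_
          · by_cases h' : A α
            · right
              by_contra h2
              exact h.2 ⟨h', fun c h3 h4 => h2 ⟨c, by simpa using h3, h4⟩⟩
            · exact Or.inl ⟨h.1, h'⟩
          · have := sum_le_card_nsmul (univ.filter fun c => key c = l) (fun c => mu (EA c)) κ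
              fun c h => (h1 c (mem_filter.1 h).2).1
            rw [nsmul_eq_mul] at this
            rw [hcard]
            linarith
        · refine (mu_union (univ.filter fun c => key c = l) (B := fun y => B₀ y ∧ ¬ B y)
            (E := EB) fun y h => ?_).trans ?_
          · by_cases h' : B y
            · right
              by_contra h2
              exact h.2 ⟨h', fun c h3 h4 => h2 ⟨c, by simpa using h3, h4⟩⟩
            · exact Or.inl ⟨h.1, h'⟩
          · have := sum_le_card_nsmul (univ.filter fun c => key c = l) (fun c => mu (EB c)) κ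
              fun c h => (h1 c (mem_filter.1 h).2).2.1
            rw [nsmul_eq_mul] at this
            rw [hcard]
            linarith
        · rcases Nat.lt_succ_iff_lt_or_eq.1 hcl with h | h
          · exact (hcv c h).mono fun α y a b t => ⟨a.1, b.1, t⟩
          · exact (h1 c h).2.2.mono fun α y a b t => ⟨a.2 c h, b.2 c h, t, a.1, b.1⟩
  rcases main (key c₀) with ⟨c, A, B, h1, h2⟩ | ⟨A, B, hA, hB, hmA, hmB, hcv⟩
  · exact ⟨c, A, B, h1.le, h2⟩
  refine ⟨c₀, A, B, le_rfl, hA, hB, fun α y a b => h0 α y (hA α a) (hB y b), ?_, hcv⟩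
  have h1 := vl_ge hb (F := fun α y => rect A B α y + -1 * rect A₀ B₀ α y)
    (u := fun α => ind (A₀ α ∧ ¬ A α)) (v := fun y => ind (B₀ y ∧ ¬ B y)) fun α y => by
      have := hA α
      have := hB y
      by_cases a : A α <;> by_cases b : B y <;> by_cases a' : A₀ α <;> by_cases b' : B₀ y <;>
        simp_all [rect, ind]
  rw [vl_add, vl_smul] at h1
  have h2 : ((univ.filter fun c => key c < key c₀).card : ℝ) ≤ Fintype.card ι := by
    exact_mod_cast card_le_univ _
  have h3 := mul_le_mul_of_nonneg_left h2 hκ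
  have h4 := mul_le_mul_of_nonneg_left (add_le_add (hmA.trans h3) (hmB.trans h3)) hΛ
  unfold mu at h4
  linarith

theorem key0 (hσ : IsPseudo n D Λ σ) {η κ ν ξ : ℝ} {k R s : ℕ} (hη : Tail n r Q D η)
    (hη0 : 0 ≤ η) (hκ : 0 ≤ κ) (hc : CovOK r Q σ κ k ν) {ι : Type} [Fintype ι]
    (a : ι → Row n r Q → ℝ) (b : ι → Col n r Q → ℝ) (a₀ b₀ : ι → ℝ) (key : ι → ℕ) (w : ℕ → ℝ)
    (hw : Antitone w) (ha₀ : ∀ i, 0 < a₀ i) (hb₀ : ∀ i, 0 < b₀ i)
    (ha : ∀ i α, a i α = 0 ∨ (a₀ i ≤ a i α ∧ a i α ≤ 2 * a₀ i))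
    (hb : ∀ i y, b i y = 0 ∨ (b₀ i ≤ b i y ∧ b i y ≤ 2 * b₀ i))
    (hab : ∀ i, a₀ i * b₀ i = w (key i)) {A₀ : Row n r Q → Prop} {B₀ : Col n r Q → Prop} (c₀ : ι)
    (h0 : ∀ α y, a c₀ α ≠ 0 ∧ b c₀ y ≠ 0) {N J : Row n r Q → Col n r Q → ℝ}
    (hN : Low σ R N) (hJ : ∀ α y, A₀ α → B₀ y → 0 ≤ J α y ∧ J α y ≤ ξ * w (key c₀) ∧
      N α y = J α y + ∑ i, a i α * b i y)
    (hs : Fintype.card ι ≤ s) (hv : ν + 2 * Λ * κ * s ≤ vl σ (rect A₀ B₀)) (hν : 0 < ν)
    (hξ0 : 0 ≤ ξ) (hξ : ξ ≤ 1) (h1 : 4 * (s + 1) * (Λ * η) + Λ * ξ ≤ ν / 2)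
    (h2 : (Λ * (1 + 4 * s)) ^ 2 * (R + s * RR n r Q D k) <
      (ν / 2) ^ 2 * Fintype.card (Fin r × Q) ^ n) : False := by
  classical
  have hΛ : 0 ≤ Λ := (abs_nonneg _).trans (hσ.bound fun _ => false)
  have hs' : (Fintype.card ι : ℝ) ≤ s := by exact_mod_cast hs
  obtain ⟨c, A, B, hk, hA, hB, hT, hpos, hcv⟩ := process hσ.bound hκ hc
    (fun i α y => a i α ≠ 0 ∧ b i y ≠ 0) (fun i α α' => by
      by_cases h : a i α = 0
      · exact Or.inl fun y h' => absurd h h'.1
      · exact Or.inr fun y h' => ⟨h, h'.2⟩) key c₀ (fun α y _ _ => h0 α y)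
    (le_trans (by nlinarith [mul_le_mul_of_nonneg_left hs' (show 0 ≤ 2 * Λ * κ by positivity)]) hv)
  have ha' : ∀ i α, 0 ≤ ind (A α) * a i α ∧ ind (A α) * a i α ≤ 2 * a₀ i := fun i α => by
    have := ha₀ i
    by_cases h : A α <;> rcases ha i α with h' | h' <;> simp [ind, h, h'] <;> linarith
  have hb' : ∀ i y, 0 ≤ ind (B y) * b i y ∧ ind (B y) * b i y ≤ 2 * b₀ i := fun i y => by
    have := hb₀ i
    by_cases h : B y <;> rcases hb i y with h' | h' <;> simp [ind, h, h'] <;> linarith
  have hW : 0 < w (key c) := by rw [← hab]; exact mul_pos (ha₀ c) (hb₀ c)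
  have hI : ∀ i, ∃ I : Row n r Q → Finset (Fin n), (∀ α, (I α).card ≤ k) ∧ (key i < key c →
      ∀ α y, A α → B y → a i α ≠ 0 ∧ b i y ≠ 0 → pe σ (res (I α) (zz α y)) = 0) := fun i => by
    by_cases h : key i < key c
    · obtain ⟨I, h3, h4⟩ := hcv i h
      exact ⟨I, h3, fun _ => h4⟩
    · exact ⟨fun _ => ∅, by simp, fun h' => absurd h' h⟩
  choose I hI hI' using hI
  have hlow := (hN.mul (fun α => ind (A α)) fun y => ind (B y)).add
    (Low.sum (univ.filter fun i => key i < key c) fun i _ =>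
      (low_nul hσ (hI i)).mul (fun α => -(ind (A α) * a i α)) fun y => ind (B y) * b i y)
  have he : (fun α y => ind (A α) * ind (B y) * N α y + ∑ i ∈ univ.filter fun i => key i < key c,
      -(ind (A α) * a i α) * (ind (B y) * b i y) * ind (pe σ (res (I i α) (zz α y)) = 0)) =
      fun α y => rect A B α y * J α y + ∑ i ∈ univ.filter fun i => ¬ key i < key c,
        ind (A α) * a i α * (ind (B y) * b i y) := by
    funext α y
    by_cases hα : A α
    · by_cases hy : B y
      · simp only [rect, ind_of hα, ind_of hy, one_mul]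
        have e : ∀ i ∈ univ.filter fun i => key i < key c, -a i α * b i y *
            ind (pe σ (res (I i α) (zz α y)) = 0) = -(a i α * b i y) := fun i hi => by
          by_cases h : a i α ≠ 0 ∧ b i y ≠ 0
          · rw [ind_of (hI' i (mem_filter.1 hi).2 α y hα hy h)]
            ring
          · rcases not_and_or.1 h with h | h <;> simp [not_not.1 h]
        rw [sum_congr rfl e, sum_neg_distrib, (hJ α y (hA α hα) (hB y hy)).2.2,
          ← sum_filter_add_sum_filter_not univ (fun i => key i < key c)]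
        ring
      · simp [rect, ind_of_not hy]
    · simp [rect, ind_of_not hα]
  rw [he] at hlow
  have hJ' : ∀ α y, |rect A B α y * J α y| ≤ ξ * w (key c) := fun α y => by
    by_cases h : A α ∧ B y
    · obtain ⟨h3, h4, -⟩ := hJ α y (hA α h.1) (hB y h.2)
      rw [rect, ind_of h.1, ind_of h.2, one_mul, one_mul, abs_of_nonneg h3]
      exact h4.trans (mul_le_mul_of_nonneg_left (hw hk) hξ0)
    · rw [rect, ← ind_and, ind_of_not h, zero_mul, abs_zero]
      positivity
  have hw4 : ∀ i, ¬ key i < key c → 2 * a₀ i * (2 * b₀ i) ≤ 4 * w (key c) := fun i hi => by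
    have := hw (not_lt.1 hi)
    rw [← hab i] at this
    linarith
  have hcd : ∀ t : Finset ι, (t.card : ℝ) ≤ s := fun p => by
    exact_mod_cast (card_le_univ _).trans hs
  have hup := hlow.vl_sq hσ.bound (S := w (key c) * (1 + 4 * s)) fun α y => by
    refine (abs_add_le _ _).trans ?_
    have h3 := sum_le_card_nsmul (univ.filter fun i => ¬ key i < key c)
      (fun i => ind (A α) * a i α * (ind (B y) * b i y)) (4 * w (key c)) fun i hi =>
        (mul_le_mul (ha' i α).2 (hb' i y).2 (hb' i y).1 (by linarith [ha₀ i])).trans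
          (hw4 i (mem_filter.1 hi).2)
    rw [nsmul_eq_mul] at h3
    rw [abs_of_nonneg (sum_nonneg fun i _ => mul_nonneg (ha' i α).1 (hb' i y).1)]
    nlinarith [hJ' α y, mul_le_mul_of_nonneg_right (hcd (univ.filter fun i => ¬ key i < key c)) hW.le,
      mul_le_mul_of_nonneg_right hξ hW.le]
  have hΛη : 0 ≤ Λ * η := by positivity
  have hone : ∀ i, ¬ key i < key c → -(4 * w (key c) * (Λ * η)) ≤
      vl σ fun α y => ind (A α) * a i α * (ind (B y) * b i y) := fun i hi =>
    le_trans (neg_le_neg (mul_le_mul_of_nonneg_right (hw4 i hi) hΛη))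
      (vl_rank_one hσ hη (ha' i) (hb' i) (by linarith [hb₀ i]))
  have hc' : w (key c) * ν - 2 * (4 * w (key c) * (Λ * η)) ≤
      vl σ fun α y => ind (A α) * a c α * (ind (B y) * b c y) := by
    obtain ⟨α₁, y₁, hα₁, hy₁⟩ := rect_ne (hν.trans_le hpos).ne'
    have e : (fun α y => ind (A α) * a c α * (ind (B y) * b c y)) = fun α y =>
        (w (key c) * rect A B α y + ind (A α) * (a c α - a₀ c) * (ind (B y) * b c y)) +
          ind (A α) * a₀ c * (ind (B y) * (b c y - b₀ c)) := by
      funext α y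
      rw [← hab, rect]
      ring
    have h3 := vl_rank_one hσ hη (u := fun α => ind (A α) * (a c α - a₀ c)) (U := 2 * a₀ c)
      (fun α => by
        have := ha₀ c
        by_cases h : A α
        · have := (ha c α).resolve_left (hT α y₁ h hy₁).1
          rw [ind_of h]
          constructor <;> linarith
        · rw [ind_of_not h]
          constructor <;> linarith) (hb' c) (by linarith [hb₀ c])
    have h4 := vl_rank_one hσ hη (u := fun α => ind (A α) * a₀ c) (U := 2 * a₀ c)
      (v := fun y => ind (B y) * (b c y - b₀ c)) (V := 2 * b₀ c)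
      (fun α => by
        have := ha₀ c
        by_cases h : A α <;> simp only [ind, h, if_true, if_false] <;> constructor <;> linarith)
      (fun y => by
        have := hb₀ c
        by_cases h : B y
        · have := (hb c y).resolve_left (hT α₁ y hα₁ h).2
          rw [ind_of h]
          constructor <;> linarith
        · rw [ind_of_not h]
          constructor <;> linarith) (by linarith [hb₀ c])
    rw [e, vl_add, vl_add, vl_smul]
    have h5 := mul_le_mul_of_nonneg_right (hw4 c (lt_irrefl _)) hΛη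
    have h6 := mul_le_mul_of_nonneg_left hpos hW.le
    linarith
  have hlo : w (key c) * (ν / 2) ≤ vl σ fun α y => rect A B α y * J α y +
      ∑ i ∈ univ.filter fun i => ¬ key i < key c, ind (A α) * a i α * (ind (B y) * b i y) := by
    rw [vl_add, vl_sum, ← add_sum_erase _ _ (show c ∈ univ.filter fun i => ¬ key i < key c by simp)]
    have h3 := vl_ge hσ.bound (u := fun _ => ξ * w (key c)) (v := fun _ => 0)
      fun α y => (hJ' α y).trans_eq (add_zero _).symm
    rw [ex_const, ex_const, add_zero] at h3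
    have h4 := card_nsmul_le_sum ((univ.filter fun i => ¬ key i < key c).erase c) _ _
      fun i hi => hone i (mem_filter.1 (mem_of_mem_erase hi)).2
    have h5 : (((univ.filter fun i => ¬ key i < key c).erase c).card : ℝ) + 1 ≤ s := by
      have := card_erase_add_one (show c ∈ univ.filter fun i => ¬ key i < key c by simp)
      exact le_trans (by exact_mod_cast this.le) (hcd (univ.filter fun i => ¬ key i < key c))
    rw [nsmul_eq_mul] at h4
    nlinarith [mul_le_mul_of_nonneg_right h5 (show 0 ≤ 4 * w (key c) * (Λ * η) by positivity),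
      mul_le_mul_of_nonneg_left h1 hW.le]
  have h3 := mul_le_mul_of_nonneg_right (pow_le_pow_left₀ (by positivity) hlo 2)
    (show (0 : ℝ) ≤ Fintype.card (Fin r × Q) ^ n by positivity)
  have h4 : ((R + (univ.filter fun i => key i < key c).card * RR n r Q D k : ℕ) : ℝ) ≤
      R + s * RR n r Q D k := by
    push_cast
    nlinarith [mul_le_mul_of_nonneg_right (hcd (univ.filter fun i => key i < key c))
      (Nat.cast_nonneg (α := ℝ) (RR n r Q D k))]
  have h5 := (h3.trans hup).trans (mul_le_mul_of_nonneg_left h4 (sq_nonneg _))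
  have h6 := mul_lt_mul_of_pos_left h2 (pow_pos hW 2)
  nlinarith

end Pool.Agent.Lib.MP_8a52c3_lc.LS
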