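import Pool.Agent.Lib.MP_8a52c3_lc.LS.Cover

/-! A dense set of rows and large column sets on non-null patterns give a positive rectangle. -/

open Finset
open scoped BigOperators

namespace Pool.Agent.Lib.MP_8a52c3_lc.LS

open Pool.Agent.Lib.MP_8a52c3_lc.Mono

variable {n r : ℕ} {Q : Type} [Fintype Q] [DecidableEq Q] [Nonempty Q]

/-- The statement of the positivity lemma. -/
def PosOK (r : ℕ) (Q : Type) [Fintype Q] [DecidableEq Q] (σ : (Fin n → Bool) → ℝ) (κ g : ℝ) (k : ℕ)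
    (ν : ℝ) : Prop :=
  ∀ (EA : Row n r Q → Prop) (Al : Row n r Q → Pat n r Q → Prop) (B : Pat n r Q → Col n r Q → Prop),
    κ ≤ mu EA →
    (∀ I : Finset (Fin n), I.card ≤ k → ∀ α₀, EA α₀ → ∃ w, pe σ (res I w) ≠ 0 ∧
      ∀ α, EA α → (∀ e ∈ I, α e = α₀ e) → Al α (pat I α₀ w)) →
    (∀ α π, Al α π → g ≤ mu (B π) ∧ ∀ y, B π y → CY π y) →
    ∃ π, (∃ α, Al α π) ∧ ν ≤ vl σ (rect (fun α => Al α π) (B π))

variable {D : ℕ} {Λ : ℝ} {σ : (Fin n → Bool) → ℝ}

theorem pos_ok [NeZero r] (hσ : IsPseudo n D Λ σ) {η lam κ g ν : ℝ} {k : ℕ} (hη : Tail n r Q D η)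
    (hκ : 0 < κ) (hg : 0 ≤ g) (hl : 1 ≤ lam) (hr : lam ≤ r) (hD : 2 * (D : ℝ) ≤ lam)
    (hk : 2 / κ < (r / lam) ^ (k + 1))
    (hν : ν + (1 + Λ) * η ≤ κ ^ 2 * g / (8 * (MM n r Q k : ℝ) * lam ^ k)) :
    PosOK r Q σ κ g k ν := by
  classical
  intro EA Al BB hEA hAl hBB
  have hΛ : 0 ≤ Λ := (abs_nonneg _).trans (hσ.bound fun _ => false)
  have hM : (0 : ℝ) < MM n r Q k := by
    have : 0 < Fintype.card (Fin r × Q) := Fintype.card_pos
    unfold MM
    positivity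
  have hcard : ((univ.filter fun π : Pat n r Q => szo π ≤ k).card : ℝ) ≤ MM n r Q k := by
    exact_mod_cast card_pat k
  have hκ1 : κ ≤ 1 := hEA.trans (mu_le_one _)
  let Good : Pat n r Q → (Fin (n * r) → Q) → Prop := fun π p => pe σ (rho π) ≠ 0 ∧
    ∃ V : (Fin n → Fin r) → Prop, κ / 2 / lam ^ k ≤ mu V ∧
      (∀ φ, V φ → Al (bx φ p) π ∧ ∀ e a c, π e = some (a, c) → bx φ p e = a) ∧
      ∀ e, π e = none → ∀ j, lam * mu (fun φ => V φ ∧ φ e = j) ≤ mu V
  have h1 : ∀ p, κ / 2 ≤ mu (fun φ => EA (bx φ p)) →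
      ∃ π ∈ univ.filter fun π : Pat n r Q => szo π ≤ k, Good π p := by
    intro p hp
    obtain ⟨I, γ, hI, hV, hs⟩ := spread (half_pos hκ) hl hr (by rwa [one_div_div]) hp
    obtain ⟨φ₀, hφ₀⟩ := mu_pos (lt_of_lt_of_le (by positivity) hV)
    obtain ⟨w, hw, hw'⟩ := hAl I hI _ hφ₀.1
    have hag : ∀ φ, (∀ e ∈ I, φ e = γ e) → ∀ e ∈ I, bx φ p e = bx φ₀ p e := fun φ hφ e he => by
      simp only [bx, hφ e he, hφ₀.2 e he]
    refine ⟨pat I (bx φ₀ p) w, mem_filter.2 ⟨mem_univ _, (szo_pat _ _ _).trans_le hI⟩,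
      by rwa [rho_pat], _, hV, fun φ hφ => ⟨hw' _ hφ.1 (hag φ hφ.2), fun e a c h => ?_⟩,
      fun e he j => hs e (fun h => by simp [pat, h] at he) j⟩
    by_cases he : e ∈ I
    · simp only [pat, he, if_true, Option.some.injEq, Prod.mk.injEq] at h
      rw [← h.1]
      exact hag φ hφ.2 e he
    · simp [pat, he] at h
  have h2 : κ / 2 ≤ mu fun p : Fin (n * r) → Q => κ / 2 ≤ mu fun φ => EA (bx φ p) := by
    have h3 := hEA
    rw [mu, ex_bx] at h3
    have h4 : ∀ p : Fin (n * r) → Q, 𝔼 φ, ind (EA (bx φ p)) ≤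
        κ / 2 + ind (κ / 2 ≤ mu fun φ => EA (bx φ p)) := by
      intro p
      by_cases h : κ / 2 ≤ mu fun φ => EA (bx φ p)
      · rw [ind_of h]
        linarith [mu_le_one fun φ => EA (bx φ p), mu.eq_def fun φ => EA (bx φ p)]
      · rw [ind_of_not h, add_zero]
        exact (not_le.1 h).le
    have h5 := h3.trans (ex_mono h4)
    rw [expect_add_distrib, ex_const] at h5
    rw [mu]
    linarith
  obtain ⟨π, hπ⟩ : ∃ π, κ / 2 / MM n r Q k ≤ mu (Good π) := by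
    by_contra hc
    push Not at hc
    have h3 := h2.trans (mu_union (B := fun _ => False) _ fun p hp => Or.inr (h1 p hp))
    rw [mu_false, zero_add] at h3
    have h4 := sum_lt_sum_of_nonempty (s := univ.filter fun π : Pat n r Q => szo π ≤ k)
      ⟨fun _ => none, by simp [szo]⟩ fun π _ => hc π
    rw [sum_const, nsmul_eq_mul, ← mul_div_assoc, lt_div_iff₀ hM] at h4
    nlinarith
  obtain ⟨p₀, hπ0, V₀, hV₀, hV₀', -⟩ := mu_pos (lt_of_lt_of_le (by positivity) hπ)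
  obtain ⟨φ₀, hφ₀⟩ := mu_pos (lt_of_lt_of_le (by positivity) hV₀)
  obtain ⟨hB, hCY⟩ := hBB _ _ (hV₀' φ₀ hφ₀).1
  refine ⟨π, ⟨_, (hV₀' φ₀ hφ₀).1⟩, ?_⟩
  set B := BB π
  have hB0 : ∀ y, 0 ≤ ind (B y) := fun y => ind_nonneg _
  have hc1 : κ / 2 / lam ^ k / 2 ≤ 1 := by
    have := one_le_pow₀ (n := k) hl
    rw [div_div, div_div, div_le_one (by positivity)]
    nlinarith
  have h3 : ∀ p, κ / 2 / lam ^ k / 2 * g * ind (Good π p) -
      (1 + Λ) * tl D p (fun y => ind (B y)) ≤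
      𝔼 φ, 𝔼 y, σ (zz (bx φ p) y) * rect (fun α => Al α π) B (bx φ p) y := by
    intro p
    have ht := tl_nonneg D p hB0
    have h4 : ∀ φ, ind (Al (bx φ p) π) * (∑ τ : PA (n * r), ms p (fun y => ind (B y)) τ *
        ind (sz τ ≤ D ∧ pe σ (fun e => τ (gp e (φ e))) ≠ 0)) - Λ * tl D p (fun y => ind (B y)) ≤
        𝔼 y, σ (zz (bx φ p) y) * rect (fun α => Al α π) B (bx φ p) y := by
      intro φ
      unfold rect
      by_cases h : Al (bx φ p) π
      · simp only [ind_of h, one_mul]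
        exact row_lower hσ φ p hB0
      · simp only [ind_of_not h, zero_mul, mul_zero, expect_const_zero]
        nlinarith
    refine le_trans ?_ (ex_mono h4)
    rw [expect_sub_distrib, ex_const]
    have hsum : ∀ φ : Fin n → Fin r, 0 ≤ ∑ τ : PA (n * r), ms p (fun y => ind (B y)) τ *
        ind (sz τ ≤ D ∧ pe σ (fun e => τ (gp e (φ e))) ≠ 0) := fun φ =>
      sum_nonneg fun τ _ => mul_nonneg (ms_nonneg p hB0 τ) (ind_nonneg _)
    by_cases hp : Good π p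
    · rw [ind_of hp]
      obtain ⟨-, V, hV, hV', hs⟩ := hp
      have h5 := (good_box hD hl p hπ0 hCY (fun φ hφ => (hV' φ hφ).2) hs).trans
        (ex_mono fun φ => mul_le_mul_of_nonneg_right (ind_mono fun h => (hV' φ h).1) (hsum φ))
      have h6 : tl D p (fun y => ind (B y)) ≤ mu B := by
        rw [mu, ← ms_sum p, tl]
        refine sum_le_sum fun τ _ => ?_
        split_ifs
        · exact le_rfl
        · exact ms_nonneg p hB0 τ
      have h7 := mul_le_mul_of_nonneg_right (show κ / 2 / lam ^ k / 2 ≤ mu V / 2 by linarith)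
        (sub_nonneg.2 h6)
      have h8 := mul_le_mul_of_nonneg_left hB (show 0 ≤ κ / 2 / lam ^ k / 2 by positivity)
      nlinarith [mul_le_mul_of_nonneg_right hc1 ht]
    · rw [ind_of_not hp]
      have h5 := ex_nonneg fun φ => mul_nonneg (ind_nonneg (Al (bx φ p) π)) (hsum φ)
      linarith
  rw [vl, ex_bx]
  refine le_trans ?_ (ex_mono h3)
  rw [expect_sub_distrib, ← mul_expect, ← mul_expect]
  have h4 := mul_le_mul_of_nonneg_left (hη _ hB0 fun y => ind_le_one _)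
    (show 0 ≤ 1 + Λ by positivity)
  have h5 := mul_le_mul_of_nonneg_left hπ (show 0 ≤ κ / 2 / lam ^ k / 2 * g by positivity)
  have h6 : κ / 2 / lam ^ k / 2 * g * (κ / 2 / MM n r Q k) =
      κ ^ 2 * g / (8 * (MM n r Q k : ℝ) * lam ^ k) := by
    field_simp
    ring
  rw [mu] at h5
  linarith

end Pool.Agent.Lib.MP_8a52c3_lc.LS
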