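import Pool.Agent.Lib.MP_8a52c3_lc.LS.Dec
import Pool.Agent.Lib.MP_8a52c3_lc.LS.Pos
import Pool.Agent.Lib.MP_8a52c3_lc.LS.Auction

/-! The key lemma without any bound on the numbers. -/

open Finset
open scoped BigOperators

namespace Pool.Agent.Lib.MP_8a52c3_lc.LS

open Pool.Agent.Lib.MP_8a52c3_lc.Mono

/-- The auction with all possible bidders in a finite set `S`. -/
theorem auction' {Y J : Type} [Fintype Y] [Nonempty Y] (b : J → Y → ℝ) (S : Finset J)
    (hS : ∀ j y, 0 < b j y → j ∈ S) {g : ℝ} (hg : 0 < g) :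
    ∃ (E : Y → Prop) (w : J → ℝ), mu E ≤ 2 * (S.card : ℝ) ^ 2 * g ∧
      (∀ j, 0 < w j) ∧ ∀ j, (∀ y, 0 < b j y → E y) ∨
        g ≤ mu fun y => ¬ E y ∧ 0 < b j y ∧ ∀ j', w j' * b j' y ≤ w j * b j y := by
  classical
  obtain ⟨E, w, hE, hw, hj⟩ := auction (J := S) (fun j y => b j y) hg
  refine ⟨E, fun j => if h : j ∈ S then w ⟨j, h⟩ else 1, by simpa [mu] using hE, fun j => ?_,
    fun j => ?_⟩
  · dsimp only
    split_ifs
    · exact hw _
    · exact one_pos
  · by_cases h : j ∈ S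
    · refine (hj ⟨j, h⟩).imp id fun h1 => h1.trans (mu_mono fun y hy => ⟨hy.1, hy.2.1, fun j' => ?_⟩)
      dsimp only
      rw [dif_pos h]
      by_cases h' : j' ∈ S
      · rw [dif_pos h']
        exact hy.2.2 ⟨j', h'⟩
      · rw [dif_neg h', one_mul]
        exact (not_lt.1 fun h3 => h' (hS _ _ h3)).trans (mul_pos (hw _) hy.2.1).le
    · exact Or.inl fun y hy => absurd (hS j y hy) h

variable {n r : ℕ} {Q : Type}

theorem pat_congr {I : Finset (Fin n)} {α α' : Row n r Q} (h : ∀ e ∈ I, α e = α' e)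
    (z : Fin n → Bool) : pat I α z = pat I α' z := by
  funext e
  by_cases he : e ∈ I <;> simp [pat, he, h e]

theorem cell_iff (I : Finset (Fin n)) (π : Pat n r Q) (α : Row n r Q) (y : Col n r Q) :
    (∃ z, π = pat I α z) ∧ CY π y ↔ π = pat I α (zz α y) := by
  constructor
  · rintro ⟨⟨z, rfl⟩, h⟩
    funext e
    by_cases he : e ∈ I
    · have := h e (α e) (z e) (by simp [pat, he])
      simp only [pat, he, if_true, zz, this]
    · simp [pat, he]
  · rintro rfl
    exact ⟨⟨_, rfl⟩, CY_pat _ _ _⟩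

variable [Fintype Q] [DecidableEq Q] [Nonempty Q] [NeZero r]
  {D : ℕ} {Λ : ℝ} {σ : (Fin n → Bool) → ℝ}

theorem vl_le (hb : ∀ z, |σ z| ≤ Λ) {F : Row n r Q → Col n r Q → ℝ} {u : Row n r Q → ℝ}
    {v : Col n r Q → ℝ} (h : ∀ α y, |F α y| ≤ u α + v y) :
    vl σ F ≤ Λ * (𝔼 α, u α + 𝔼 y, v y) := by
  have h1 := vl_ge hb (F := fun α y => -1 * F α y) (u := u) (v := v) fun α y => by
    simpa using h α y
  rw [vl_smul] at h1
  linarith

theorem Low.vl_lt (hb : ∀ z, |σ z| ≤ Λ) {R : ℕ} {N : Row n r Q → Col n r Q → ℝ} (h : Low σ R N)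
    {S δ : ℝ} (hS : ∀ α y, |N α y| ≤ S) (hδ : 0 ≤ δ)
    (h2 : (Λ * S) ^ 2 * R < δ ^ 2 * Fintype.card (Fin r × Q) ^ n) : vl σ N < δ := by
  have h1 := (h.vl_sq hb hS).trans_lt h2
  exact lt_of_pow_lt_pow_left₀ 2 hδ (lt_of_mul_lt_mul_right h1 (by positivity))

/-- A positive rectangle on which one product dominates the non-null parts of all products. -/
theorem dominate (hσ : IsPseudo n D Λ σ) {κ g ν δ : ℝ} {k : ℕ} (hκ : 0 ≤ κ) (hg : 0 < g)
    (hp : PosOK r Q σ κ g k ν) {ι : Type} [Fintype ι] (a : ι → Row n r Q → ℝ)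
    (b : ι → Col n r Q → ℝ) (ha : ∀ i α, 0 ≤ a i α) (hb : ∀ i y, 0 ≤ b i y)
    {A : Row n r Q → Prop} {B : Col n r Q → Prop} (i₀ : ι) (ha₀ : ∀ α, 0 < a i₀ α)
    (hb₀ : ∀ y, 0 < b i₀ y) (hδ : 0 ≤ δ)
    (h2 : (Λ * 1) ^ 2 * RR n r Q D k < δ ^ 2 * Fintype.card (Fin r × Q) ^ n)
    (hv : Λ * (Fintype.card ι * κ + 2 * (Fintype.card ι * MM n r Q k) ^ 2 * g) + δ ≤
      vl σ (rect A B)) :
    ∃ (t : ι) (A' : Row n r Q → Prop) (B' : Col n r Q → Prop)
      (I : ι → Row n r Q → Finset (Fin n)) (u : ι → Pat n r Q → Row n r Q → ℝ)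
      (v : ι → Pat n r Q → Col n r Q → ℝ), ν ≤ vl σ (rect A' B') ∧ (∀ α, A' α → A α ∧ 0 < a t α) ∧
      (∀ y, B' y → B y ∧ 0 < b t y) ∧ (∀ i α, (I i α).card ≤ k) ∧
      (∀ i π α, 0 ≤ u i π α ∧ u i π α ≤ 1) ∧ (∀ i π y, 0 ≤ v i π y ∧ v i π y ≤ 1) ∧
      ∀ i π α y, u i π α * v i π y = ind (π = pat (I i α) α (zz α y)) *
        (ind (A' α) * a i α / a t α * (ind (B' y) * b i y / b t y) *
          (1 - ind (pe σ (res (I i α) (zz α y)) = 0))) := by
  classical
  have hΛ : 0 ≤ Λ := (abs_nonneg _).trans (hσ.bound fun _ => false)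
  let bb : ι × Pat n r Q → Col n r Q → ℝ := fun j y =>
    ind (szo j.2 ≤ k ∧ pe σ (rho j.2) ≠ 0 ∧ B y ∧ CY j.2 y) * b j.1 y
  have hbb : ∀ j y, 0 < bb j y ↔
      (szo j.2 ≤ k ∧ pe σ (rho j.2) ≠ 0 ∧ B y ∧ CY j.2 y) ∧ 0 < b j.1 y := fun j y => by
    by_cases h : szo j.2 ≤ k ∧ pe σ (rho j.2) ≠ 0 ∧ B y ∧ CY j.2 y
    · dsimp only [bb]
      rw [ind_of h, one_mul]
      exact ⟨fun h' => ⟨h, h'⟩, fun h' => h'.2⟩
    · dsimp only [bb]
      rw [ind_of_not h, zero_mul]
      exact ⟨fun h' => absurd h' (lt_irrefl _), fun h' => absurd h'.1 h⟩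
  obtain ⟨E, w, hE, hw, hwin⟩ := auction' bb (univ ×ˢ univ.filter fun π => szo π ≤ k)
    (fun j y h => mem_product.2 ⟨mem_univ _, mem_filter.2 ⟨mem_univ _, ((hbb j y).1 h).1.1⟩⟩) hg
  have hE' : mu E ≤ 2 * (Fintype.card ι * MM n r Q k) ^ 2 * g := by
    refine hE.trans ?_
    have : ((univ.filter fun π : Pat n r Q => szo π ≤ k).card : ℝ) ≤ MM n r Q k := by
      exact_mod_cast card_pat k
    rw [card_product, card_univ]
    push_cast
    gcongr
  let c : ι → Pat n r Q → ℝ := fun i π => if ∀ y, 0 < bb (i, π) y → E y then 0 else 1 / w (i, π)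
  have hc0 : ∀ i π, 0 ≤ c i π := fun i π => by
    have := hw (i, π)
    simp only [c]
    split_ifs <;> positivity
  have hc1 : ∀ i π, c i π ≠ 0 → (¬ ∀ y, 0 < bb (i, π) y → E y) ∧ c i π = 1 / w (i, π) :=
    fun i π h => by
      by_cases h' : ∀ y, 0 < bb (i, π) y → E y
      · exact absurd (if_pos h') h
      · exact ⟨h', if_neg h'⟩
  choose zs hzs using fun (i : ι) (I : Finset (Fin n)) (α : Row n r Q) =>
    Finite.exists_max fun z => c i (pat I α z)
  have hI : ∀ i α, ∃ I : Finset (Fin n), I.card ≤ k ∧ ∀ I' : Finset (Fin n), I'.card ≤ k →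
      c i (pat I α (zs i I α)) ≤ c i (pat I' α (zs i I' α)) := fun i α => by
    obtain ⟨I, h1, h3⟩ := exists_min_image (univ.filter fun I : Finset (Fin n) => I.card ≤ k)
      (fun I => c i (pat I α (zs i I α))) ⟨∅, by simp⟩
    exact ⟨I, (mem_filter.1 h1).2, fun I' h => h3 I' (by simpa using h)⟩
  choose I hI hI' using hI
  let m : ι → Row n r Q → ℝ := fun i α => a i α * c i (pat (I i α) α (zs i (I i α) α))
  have : Nonempty ι := ⟨i₀⟩
  choose tt htt using fun α => Finite.exists_max fun i => m i α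
  obtain ⟨t, ht⟩ : ∃ t, κ ≤ mu fun α => (A α ∧ 0 < m i₀ α) ∧ tt α = t := by
    by_contra hcon
    push Not at hcon
    have h3 := mu_union (A := fun α => A α ∧ 0 < m i₀ α) (B := fun _ => False) univ
      (E := fun t α => (A α ∧ 0 < m i₀ α) ∧ tt α = t) fun α h => Or.inr ⟨_, mem_univ _, h, rfl⟩
    have h4 := sum_le_card_nsmul univ _ κ fun t _ => (hcon t).le
    rw [nsmul_eq_mul, card_univ] at h4
    rw [mu_false, zero_add] at h3
    let N : Row n r Q → Col n r Q → ℝ := fun α y => ind (A α ∧ ¬ 0 < m i₀ α) * ind (B y ∧ ¬ E y) *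
      ind (pe σ (res (I i₀ α) (zz α y)) = 0)
    have h5 : vl σ N < δ := ((low_nul hσ (hI i₀)).mul _ _).vl_lt hσ.bound (fun α y => by
      rw [← ind_and, ← ind_and, abs_of_nonneg (ind_nonneg _)]
      exact ind_le_one _) hδ h2
    have h6 := vl_le hσ.bound (F := fun α y => rect A B α y + -1 * N α y)
      (u := fun α => ind (A α ∧ 0 < m i₀ α)) (v := fun y => ind (E y)) fun α y => by
        have h7 : A α → ¬ 0 < m i₀ α → B y → ¬ E y → pe σ (res (I i₀ α) (zz α y)) = 0 := by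
          intro p q s e
          by_contra h8
          refine q (mul_pos (ha₀ α) (lt_of_lt_of_le ?_ (hzs i₀ (I i₀ α) α (zz α y))))
          have h9 : ¬ ∀ y', 0 < bb (i₀, pat (I i₀ α) α (zz α y)) y' → E y' := fun h =>
            e (h y ((hbb _ _).2 ⟨⟨(szo_pat _ _ _).trans_le (hI _ _), by rwa [rho_pat], s,
              CY_pat _ _ _⟩, hb₀ y⟩))
          simp only [c, if_neg h9]
          exact one_div_pos.2 (hw _)
        dsimp only [rect, N]
        generalize pe σ (res (I i₀ α) (zz α y)) = x at h7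
        by_cases p : A α <;> by_cases q : 0 < m i₀ α <;> by_cases s : B y <;> by_cases e : E y <;>
          simp [ind, p, q, s, e]
        simp [h7 p q s e]
    rw [vl_add, vl_smul] at h6
    have h7 := mul_le_mul_of_nonneg_left (add_le_add (h3.trans h4) hE') hΛ
    unfold mu at h7
    linarith
  have hpos : ∀ α, 0 < m i₀ α → tt α = t → 0 < m t α := fun α h h' => h' ▸ h.trans_le (htt α i₀)
  obtain ⟨π, -, hν⟩ := hp _
    (fun α π => ((A α ∧ 0 < m i₀ α) ∧ tt α = t) ∧ m t α ≤ a t α * c t π)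
    (fun π y => ¬ E y ∧ 0 < bb (t, π) y ∧ ∀ j', w j' * bb j' y ≤ w (t, π) * bb (t, π) y) ht
    (fun I' hI'k α₀ h0 => by
      have h3 : ∀ α, (∀ e ∈ I', α e = α₀ e) → m t α ≤ a t α * c t (pat I' α₀ (zs t I' α₀)) :=
        fun α h => mul_le_mul_of_nonneg_left ((hI' t α I' hI'k).trans
          (by rw [pat_congr h]; exact hzs t I' α₀ _)) (ha t α)
      refine ⟨zs t I' α₀, ?_, fun α h h' => ⟨h, h3 α h'⟩⟩
      have h4 := (hpos α₀ h0.1.2 h0.2).trans_le (h3 α₀ fun _ _ => rfl)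
      have h5 := (hc1 _ _ fun h => by rw [h, mul_zero] at h4; exact lt_irrefl _ h4).1
      push Not at h5
      obtain ⟨y, hy, -⟩ := h5
      have := ((hbb _ _).1 hy).1.2.1
      rwa [rho_pat] at this)
    (fun α π h => by
      have h4 := (hpos α h.1.1.2 h.1.2).trans_le h.2
      have h5 := (hc1 _ _ fun h => by rw [h, mul_zero] at h4; exact lt_irrefl _ h4).1
      exact ⟨(hwin (t, π)).resolve_left h5, fun y hy => ((hbb _ _).1 hy.2.1).1.2.2.2⟩)
  set A' : Row n r Q → Prop := fun α =>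
    ((A α ∧ 0 < m i₀ α) ∧ tt α = t) ∧ m t α ≤ a t α * c t π with hA'
  set B' : Col n r Q → Prop := fun y =>
    ¬ E y ∧ 0 < bb (t, π) y ∧ ∀ j', w j' * bb j' y ≤ w (t, π) * bb (t, π) y with hB'
  have hA1 : ∀ α, A' α → 0 < a t α ∧ c t π = 1 / w (t, π) := fun α h => by
    have h4 := (hpos α h.1.1.2 h.1.2).trans_le h.2
    exact ⟨(ha t α).lt_of_ne fun h => by rw [← h, zero_mul] at h4; exact lt_irrefl _ h4,
      (hc1 _ _ fun h => by rw [h, mul_zero] at h4; exact lt_irrefl _ h4).2⟩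
  have hB1 : ∀ y, B' y → B y ∧ 0 < b t y ∧ bb (t, π) y = b t y := fun y h => by
    obtain ⟨h3, h4⟩ := (hbb _ _).1 h.2.1
    exact ⟨h3.2.2.1, h4, by simp only [bb, ind_of h3, one_mul]⟩
  refine ⟨t, A', B', I,
    fun i π' α => ind (A' α ∧ ∃ z, π' = pat (I i α) α z) * (a i α * c i π' * w (t, π) / a t α),
    fun i π' y => ind (B' y) * (w (i, π') * bb (i, π') y / (w (t, π) * b t y)), hν,
    fun α h => ⟨h.1.1.1, (hA1 α h).1⟩, fun y h => ⟨(hB1 y h).1, (hB1 y h).2.1⟩, hI,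
    fun i π' α => ?_, fun i π' y => ?_, fun i π' α y => ?_⟩ <;> dsimp only
  · by_cases h : A' α ∧ ∃ z, π' = pat (I i α) α z
    · obtain ⟨h3, h4⟩ := hA1 α h.1
      have h5 := hw (t, π)
      rw [ind_of h, one_mul]
      obtain ⟨h6, z, rfl⟩ := h
      refine ⟨div_nonneg (mul_nonneg (mul_nonneg (ha _ _) (hc0 _ _)) h5.le) h3.le, ?_⟩
      rw [div_le_one h3, ← le_div_iff₀ h5, div_eq_mul_one_div, ← h4]
      refine le_trans ?_ h6.2
      rw [← h6.1.2]
      exact (mul_le_mul_of_nonneg_left (hzs i _ α z) (ha _ _)).trans (htt α i)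
    · rw [ind_of_not h, zero_mul]
      exact ⟨le_rfl, zero_le_one⟩
  · by_cases h : B' y
    · obtain ⟨-, h3, h4⟩ := hB1 y h
      have h5 := mul_pos (hw (t, π)) h3
      rw [ind_of h, one_mul]
      refine ⟨div_nonneg (mul_nonneg (hw _).le (mul_nonneg (ind_nonneg _) (hb _ _))) h5.le, ?_⟩
      rw [div_le_one h5, ← h4]
      exact h.2.2 _
    · rw [ind_of_not h, zero_mul]
      exact ⟨le_rfl, zero_le_one⟩
  · by_cases p : A' α
    swap
    · rw [ind_of_not p, ind_of_not fun h => p h.1]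
      simp
    by_cases q : B' y
    swap
    · rw [ind_of_not q]
      simp
    by_cases s : π' = pat (I i α) α (zz α y)
    swap
    · rw [ind_of_not s, zero_mul]
      by_cases s' : ∃ z, π' = pat (I i α) α z
      · have h3 : ¬ (szo π' ≤ k ∧ pe σ (rho π') ≠ 0 ∧ B y ∧ CY π' y) := fun h =>
          s ((cell_iff _ _ _ _).1 ⟨s', h.2.2.2⟩)
        simp only [bb, ind_of_not h3, zero_mul, mul_zero, zero_div]
      · rw [ind_of_not fun h => s' h.2, zero_mul, zero_mul]
    rw [ind_of s, ind_of p, ind_of q, ind_of (And.intro p ⟨_, s⟩)]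
    by_cases e : pe σ (res (I i α) (zz α y)) = 0
    · have h3 : ¬ (szo π' ≤ k ∧ pe σ (rho π') ≠ 0 ∧ B y ∧ CY π' y) := fun h =>
        h.2.1 (by rwa [s, rho_pat])
      simp only [bb, ind_of_not h3, ind_of e, zero_mul, mul_zero, zero_div, sub_self]
    · have h3 : szo π' ≤ k ∧ pe σ (rho π') ≠ 0 ∧ B y ∧ CY π' y := by
        rw [s, szo_pat, rho_pat]
        exact ⟨hI _ _, e, (hB1 y q).1, CY_pat _ _ _⟩
      have h4 : bb (i, π') y = b i y := by simp only [bb, ind_of h3, one_mul]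
      rw [ind_of_not e, h4]
      by_cases h5 : ∀ y, 0 < bb (i, π') y → E y
      · have h6 : b i y = 0 := le_antisymm (not_lt.1 fun h => q.1 (h5 y (h4 ▸ h))) (hb _ _)
        simp [h6]
      · have h6 := hw (i, π')
        have h7 := hw (t, π)
        simp only [c, if_neg h5]
        field_simp
        ring

/-- No identity `-1 = null part + few nonnegative products` holds on a positive rectangle. -/
theorem keyReal (hσ : IsPseudo n D Λ σ) {η κ g ν G : ℝ} {k R s : ℕ} (hη : Tail n r Q D η)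
    (hη0 : 0 ≤ η) (hκ : 0 ≤ κ) (hg : 0 < g) (hp : PosOK r Q σ κ g k ν) {A : Row n r Q → Prop}
    {B : Col n r Q → Prop} (h : Dec σ R s G 0 A B fun _ _ => -1) (hν : 0 ≤ ν)
    (hv : Λ * ((s + 1) * κ + 2 * ((s + 1) * MM n r Q k) ^ 2 * g) + ν / 2 ≤ vl σ (rect A B))
    (h1 : s * MM n r Q k * (Λ * η) ≤ ν / 2)
    (h2 : (Λ * (1 + s)) ^ 2 * (R + (s + 1) * RR n r Q D k) <
      (ν / 2) ^ 2 * Fintype.card (Fin r × Q) ^ n) : False := by
  classical
  have hΛ : 0 ≤ Λ := (abs_nonneg _).trans (hσ.bound fun _ => false)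
  obtain ⟨N, J, ι, _, a, b, e1, e2, e3, e4, e5⟩ := h
  have hs : (Fintype.card (Option ι) : ℝ) ≤ s + 1 := by
    rw [Fintype.card_option]
    exact_mod_cast Nat.succ_le_succ e2
  have hs0 : (0 : ℝ) ≤ s := Nat.cast_nonneg s
  let a' : Option ι → Row n r Q → ℝ := fun i α => i.elim 1 fun i => a i α
  let b' : Option ι → Col n r Q → ℝ := fun i y => i.elim 1 fun i => b i y
  obtain ⟨t, A', B', I, u, v, hpos, hA, hB, hI, hu, hv', huv⟩ := dominate hσ hκ hg hp a' b'
    (fun i α => by cases i; exacts [zero_le_one, (e3 _ α).1])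
    (fun i y => by cases i; exacts [zero_le_one, (e4 _ y).1]) (A := A) (B := B) none
    (fun _ => one_pos) (fun _ => one_pos) (δ := ν / 2) (by linarith)
    (lt_of_le_of_lt (by
      have : (0 : ℝ) ≤ R := Nat.cast_nonneg R
      have : (0 : ℝ) ≤ RR n r Q D k := Nat.cast_nonneg _
      gcongr
      · linarith
      · nlinarith) h2) (le_trans (by gcongr) hv)
  let S := univ.filter fun π : Pat n r Q => szo π ≤ k
  have hS : (S.card : ℝ) ≤ MM n r Q k := by exact_mod_cast card_pat k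
  have hT : ((univ.erase t).card : ℝ) ≤ s := by
    have := card_erase_add_one (mem_univ t)
    rw [card_univ, Fintype.card_option] at this
    exact_mod_cast (by omega : (univ.erase t).card ≤ s)
  have hmem : ∀ i α y, pat (I i α) α (zz α y) ∈ S := fun i α y =>
    mem_filter.2 ⟨mem_univ _, (szo_pat _ _ _).trans_le (hI i α)⟩
  have hsum : ∀ i α y, ∑ π ∈ S, u i π α * v i π y =
      u i (pat (I i α) α (zz α y)) α * v i (pat (I i α) α (zz α y)) y := fun i α y =>
    sum_eq_single_of_mem _ (hmem i α y) fun π _ h => by rw [huv, ind_of_not h, zero_mul]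
  have hlow := (e1.mul (fun α => -(ind (A' α) / a' t α)) fun y => ind (B' y) / b' t y).add
    (Low.sum (univ.erase t) fun i _ => (low_nul hσ (hI i)).mul
      (fun α => -(ind (A' α) * a' i α / a' t α)) fun y => ind (B' y) * b' i y / b' t y)
  have he : (fun α y => -(ind (A' α) / a' t α) * (ind (B' y) / b' t y) * N α y +
      ∑ i ∈ univ.erase t, -(ind (A' α) * a' i α / a' t α) * (ind (B' y) * b' i y / b' t y) *
        ind (pe σ (res (I i α) (zz α y)) = 0)) =
      fun α y => rect A' B' α y + ∑ i ∈ univ.erase t, ∑ π ∈ S, u i π α * v i π y := by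
    funext α y
    simp only [hsum]
    simp only [huv, ind_of trivial, one_mul, rect]
    by_cases p : A' α
    swap
    · simp [ind_of_not p]
    by_cases q : B' y
    swap
    · simp [ind_of_not q]
    obtain ⟨f1, f2, f3⟩ := e5 α y (hA α p).1 (hB y q).1
    have f4 : -N α y = a' t α * b' t y + ∑ i ∈ univ.erase t, a' i α * b' i y := by
      rw [add_sum_erase univ (fun i => a' i α * b' i y) (mem_univ t), Fintype.sum_option]
      simp only [a', b', Option.elim]
      linarith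
    have f5 := (hA α p).2.ne'
    have f6 := (hB y q).2.ne'
    simp only [ind_of p, ind_of q, one_mul, mul_sub, mul_one, sum_sub_distrib, neg_mul,
      sum_neg_distrib]
    have f7 : ∑ i ∈ univ.erase t, a' i α / a' t α * (b' i y / b' t y) =
        (∑ i ∈ univ.erase t, a' i α * b' i y) / (a' t α * b' t y) := by
      rw [sum_div]
      exact sum_congr rfl fun i _ => by field_simp
    rw [f7, ← mul_neg, f4]
    field_simp
    ring
  rw [he] at hlow
  have hup := hlow.vl_lt hσ.bound (S := 1 + s) (δ := ν / 2) (fun α y => by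
    have h3 := sum_le_card_nsmul (univ.erase t) (fun i => ∑ π ∈ S, u i π α * v i π y) 1
      fun i _ => by
        rw [hsum]
        exact mul_le_one₀ (hu _ _ _).2 (hv' _ _ _).1 (hv' _ _ _).2
    have h4 : 0 ≤ ∑ i ∈ univ.erase t, ∑ π ∈ S, u i π α * v i π y :=
      sum_nonneg fun i _ => sum_nonneg fun π _ => mul_nonneg (hu _ _ _).1 (hv' _ _ _).1
    have h5 : 0 ≤ rect A' B' α y ∧ rect A' B' α y ≤ 1 := by
      rw [rect, ← ind_and]
      exact ⟨ind_nonneg _, ind_le_one _⟩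
    rw [nsmul_eq_mul, mul_one] at h3
    rw [abs_of_nonneg (by linarith [h5.1])]
    linarith [h5.2]) (by linarith) (lt_of_le_of_lt (by
      have : (0 : ℝ) ≤ RR n r Q D k := Nat.cast_nonneg _
      push_cast
      gcongr
      linarith) h2)
  rw [vl_add, vl_sum] at hup
  have hΛη : 0 ≤ Λ * η := by positivity
  have h3 := card_nsmul_le_sum (univ.erase t)
    (fun i => vl σ fun α y => ∑ π ∈ S, u i π α * v i π y) (-(MM n r Q k * (Λ * η))) fun i _ => by
      rw [vl_sum]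
      have h4 := card_nsmul_le_sum S (fun π => vl σ fun α y => u i π α * v i π y) _
        fun π _ => vl_rank_one hσ hη (hu i π) (hv' i π) one_pos
      rw [nsmul_eq_mul] at h4
      nlinarith [mul_le_mul_of_nonneg_right hS hΛη]
  rw [nsmul_eq_mul] at h3
  nlinarith [mul_le_mul_of_nonneg_right hT (show 0 ≤ MM n r Q k * (Λ * η) by positivity)]

end Pool.Agent.Lib.MP_8a52c3_lc.LS
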