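import Pool.Agent.Lib.MP_8a52c3_lc.LS.Num

/-! The hard formulas. -/

open Finset
open scoped BigOperators

namespace Pool.Agent.Lib.MP_8a52c3_lc.LS

open Pool.Agent.Lib.MP_8a52c3_lc.Mono

theorem lifted {n r D N : ℕ} {Q U : Type} [Fintype Q] [DecidableEq Q] [Fintype U] {Λ : ℝ}
    {σ : (Fin n → Bool) → ℝ} (hσ : IsPseudo n D Λ σ) (hD : 8 ≤ D) (S : U → Fin 8 → Fin n)
    (b : U → Bool) (hu : ∀ z, ∃ u, Viol S b u z) (h0 : ∀ u, 𝔼 z, σ z * ind (Viol S b u z) = 0)
    (hN : 2 * (n * Fintype.card (Fin r × Q)) ≤ N) :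
    ∃ (F : Finset (Finset (Fin N × Bool))) (pt : Row n r Q → Col n r Q → Fin N → Bool),
      F.card ≤ n + Fintype.card U * (Fintype.card (Fin r × Q) ^ 8 * 2 ^ 8) ∧
      (∀ x : Fin N → Bool, ∃ c ∈ F, ∀ l ∈ c, x l.1 ≠ l.2) ∧ Split pt ∧
      ∀ c ∈ F, ∃ I : Finset (Fin n), I.card ≤ 8 ∧
        ∀ α y, (∀ l ∈ c, pt α y l.1 ≠ l.2) → pe σ (res I (zz α y)) = 0 := by
  classical
  obtain ⟨emb⟩ : Nonempty (Bool × Fin n × (Fin r × Q) ↪ Fin N) :=
    Function.Embedding.nonempty_of_card_le (by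
      rwa [Fintype.card_prod, Fintype.card_prod (Fin n), Fintype.card_bool, Fintype.card_fin,
        Fintype.card_fin N])
  let side : Fin N → Bool := Function.extend emb (fun v => v.1) fun _ => false
  let pr : Row n r Q → Fin N → Bool := fun α =>
    Function.extend emb (fun v => decide (α v.2.1 = v.2.2)) fun _ => false
  let pc : Col n r Q → Fin N → Bool := fun y =>
    Function.extend emb (fun v => y (gp v.2.1 v.2.2.1) v.2.2.2) fun _ => false
  let c₁ : Fin n → Finset (Fin N × Bool) := fun e => univ.image fun a => (emb (true, e, a), true)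
  let c₂ : U × (Fin 8 → Fin r × Q) × (Fin 8 → Bool) → Finset (Fin N × Bool) := fun x =>
    (univ.image fun i => (emb (true, S x.1 i, x.2.1 i), false)) ∪
      univ.image fun i => (emb (false, S x.1 i, x.2.1 i), !x.2.2 i)
  refine ⟨univ.image c₁ ∪ (univ.filter fun x : U × (Fin 8 → Fin r × Q) × (Fin 8 → Bool) =>
    ¬ (Odd (univ.filter fun i => x.2.2 i = true).card ↔ b x.1 = true)).image c₂,
    fun α y i => if side i then pr α i else pc y i, ?_, fun x => ?_,
    ⟨side, pr, pc, fun _ _ _ => rfl⟩, fun c hc => ?_⟩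
  · refine (card_union_le _ _).trans (add_le_add (card_image_le.trans (by simp))
      (card_image_le.trans ((card_le_univ _).trans_eq ?_)))
    simp only [Fintype.card_prod U, Fintype.card_prod (Fin 8 → Fin r × Q), Fintype.card_fun,
      Fintype.card_fin, Fintype.card_bool]
  · by_cases h : ∀ e, ∃ a, x (emb (true, e, a)) = true
    · choose α hα using h
      obtain ⟨u, hu⟩ := hu fun e => x (emb (false, e, α e))
      refine ⟨c₂ (u, fun i => α (S u i), fun i => x (emb (false, S u i, α (S u i)))),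
        mem_union_right _ (mem_image_of_mem _ (mem_filter.2 ⟨mem_univ _, hu⟩)), fun l hl => ?_⟩
      rcases mem_union.1 hl with hl | hl <;> obtain ⟨i, -, rfl⟩ := mem_image.1 hl
      · simp [hα]
      · simp
    · push Not at h
      obtain ⟨e, he⟩ := h
      refine ⟨c₁ e, mem_union_left _ (mem_image_of_mem _ (mem_univ e)), fun l hl => ?_⟩
      obtain ⟨a, -, rfl⟩ := mem_image.1 hl
      exact he a
  · rcases mem_union.1 hc with hc | hc
    · obtain ⟨e, -, rfl⟩ := mem_image.1 hc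
      refine ⟨∅, by simp, fun α y h => absurd ?_ (h _ (mem_image_of_mem _ (mem_univ (α e))))⟩
      simp [side, pr, emb.injective.extend_apply]
    · obtain ⟨⟨u, β, w⟩, hx, rfl⟩ := mem_image.1 hc
      have hI : (univ.image (S u)).card ≤ 8 := card_image_le.trans (by simp)
      refine ⟨univ.image (S u), hI, fun α y h => ?_⟩
      have h1 : ∀ i, zz α y (S u i) = w i := fun i => by
        have e1 := h _ (mem_union_left _ (mem_image_of_mem _ (mem_univ i)))
        have e2 := h _ (mem_union_right _ (mem_image_of_mem _ (mem_univ i)))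
        simp only [side, pr, pc, emb.injective.extend_apply, if_true, ne_eq, decide_eq_false_iff_not,
          not_not, Bool.false_eq_true, if_false, Bool.eq_not] at e1 e2
        rw [zz, e1]
        simpa using e2
      have h2 : ∀ z z' : Fin n → Bool, (∀ e ∈ univ.image (S u), z e = z' e) →
          (Viol S b u z ↔ Viol S b u z') := fun z z' hz => by
        unfold Viol
        simp only [fun i => hz (S u i) (mem_image_of_mem _ (mem_univ i))]
      refine null_junta hσ (hI.trans hD) (h0 u) (fun z => ?_) (fun z z' hz => ind_congr (h2 z z' hz))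
        fun z z' hz => ind_congr ?_
      · rw [abs_of_nonneg (ind_nonneg _)]
        refine ind_mono fun hz => (h2 _ _ ((agr_res _ _ _).1 hz)).2 ?_
        unfold Viol
        simp only [h1]
        exact (mem_filter.1 hx).2
      · rw [agr_res, agr_res]
        exact forall₂_congr fun e he => by rw [hz e he]

theorem main : ∃ N₀ : ℕ, ∀ N ≥ N₀, ∃ F : Finset (Finset (Fin N × Bool)), F.card ≤ N ^ 7 ∧
    (∀ x : Fin N → Bool, ∃ c ∈ F, ∀ l ∈ c, x l.1 ≠ l.2) ∧
    ∀ (T : ℕ) (L : ℕ → Poly N), Refutes F T L → (2 : ℝ) ^ ((N : ℝ) ^ (1 / 10 : ℝ)) ≤ T := by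
  obtain ⟨J, hJ⟩ : ∃ J : ℕ, 10 ^ 7 ≤ J := ⟨_, le_rfl⟩
  refine ⟨2 ^ (20 * J), fun N hN => ?_⟩
  have hN0 : N ≠ 0 := (lt_of_lt_of_le (by positivity) hN).ne'
  obtain ⟨j, hj, h1, h2⟩ : ∃ j, 10 ^ 7 ≤ j ∧ 2 ^ (20 * j) ≤ N ∧ N < 2 ^ (20 * j + 20) := by
    have := (Nat.le_log_iff_pow_le one_lt_two hN0).2 hN
    refine ⟨Nat.log 2 N / 20, by omega,
      (Nat.le_log_iff_pow_le one_lt_two hN0).1 (Nat.mul_div_le _ _),
      (Nat.lt_pow_succ_log_self one_lt_two N).trans_le
        (Nat.pow_le_pow_right (by norm_num) (by omega))⟩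
  obtain ⟨n, hn⟩ : ∃ n, n = 2 ^ (2 * j + 2) := ⟨_, rfl⟩
  obtain ⟨e⟩ : Nonempty ((ZMod (2 ^ j) × ZMod (2 ^ j)) × Fin 4 ≃ Fin n) :=
    ⟨Fintype.equivFinOfCardEq (by
      rw [Fintype.card_prod, Fintype.card_prod, ZMod.card, Fintype.card_fin, hn, ← pow_add,
        pow_add 2 (2 * j), two_mul]
      norm_num)⟩
  have hj2 : j < 2 ^ j := Nat.lt_two_pow_self
  obtain ⟨σ, hσ, h0⟩ := ts_pseudo (q := 2 ^ j) (by omega) e
  have hn2 : 4 * (j * j) ≤ n := by
    rw [hn, pow_add, two_mul, pow_add]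
    nlinarith [Nat.mul_le_mul hj2.le hj2.le]
  have hn3 : 100 * j ≤ n := by nlinarith
  obtain ⟨F, pt, f1, f2, f3, f4⟩ := lifted (r := 2 ^ (2 * (2 * j + 2))) (Q := QQ (2 * j + 2))
    (N := N) hσ (by omega) (tsS e) tsB (ts_unsat e) h0 (le_trans (by
      rw [card_X, hn, ← pow_add, ← pow_succ']
      exact Nat.pow_le_pow_right (by norm_num) (by omega)) h1)
  refine ⟨F, f1.trans (le_trans ?_ (Nat.pow_le_pow_left h1 7)), f2, fun T L hL => ?_⟩
  · rw [card_X, Fintype.card_prod, ZMod.card, hn]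
    simp only [← pow_mul, ← pow_add]
    have a1 : 2 ^ (2 * j + 2) ≤ 2 ^ (139 * j) := Nat.pow_le_pow_right (by norm_num) (by omega)
    have a2 : 2 ^ (j + j + ((8 * (2 * j + 2) + 1) * 8 + 8)) ≤ 2 ^ (139 * j) :=
      Nat.pow_le_pow_right (by norm_num) (by omega)
    have a3 : 2 ^ (139 * j + 1) ≤ 2 ^ (20 * j * 7) := Nat.pow_le_pow_right (by norm_num) (by omega)
    rw [pow_succ] at a3
    omega
  · have h3 : 2 ^ n ≤ T := by
      by_contra hc
      exact no_ref hσ (by omega) hn f3 f4 hL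
        (h2.le.trans (Nat.pow_le_pow_right (by norm_num) (by omega))) (by omega)
    have h4 : (N : ℝ) ^ (1 / 10 : ℝ) ≤ n := by
      have h5 : (N : ℝ) ≤ (n : ℝ) ^ 10 := by
        have : N ≤ n ^ 10 := by
          rw [hn, ← pow_mul]
          exact h2.le.trans (Nat.pow_le_pow_right (by norm_num) (by omega))
        exact_mod_cast this
      refine (Real.rpow_le_rpow (Nat.cast_nonneg N) h5 (by norm_num)).trans_eq ?_
      rw [← Real.rpow_natCast, ← Real.rpow_mul (Nat.cast_nonneg n)]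
      norm_num
    refine (Real.rpow_le_rpow_of_exponent_le one_le_two h4).trans ?_
    rw [Real.rpow_natCast]
    exact_mod_cast h3

end Pool.Agent.Lib.MP_8a52c3_lc.LS
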