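import Pool.Agent.Lib.MP_8a52c3_lc.LS.KeyReal

/-! The choice of all parameters. -/

open Finset Filter
open scoped BigOperators

namespace Pool.Agent.Lib.MP_8a52c3_lc.LS

open Pool.Agent.Lib.MP_8a52c3_lc.Mono

theorem pow9_le : ∃ n₀ : ℕ, ∀ n ≥ n₀, n ^ 9 ≤ 2 ^ n := by
  have h := (tendsto_pow_const_div_const_pow_of_one_lt 9 (r := 2) one_lt_two).eventually_le_const
    one_pos
  obtain ⟨n₀, h⟩ := eventually_atTop.1 h
  refine ⟨n₀, fun n hn => ?_⟩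
  have := h n hn
  rw [div_le_one (by positivity)] at this
  exact_mod_cast this

theorem card_X (n : ℕ) : Fintype.card (Fin (n ^ 2) × Fin (2 * (n ^ 2) ^ 3)) = 2 * n ^ 8 := by
  rw [Fintype.card_prod, Fintype.card_fin, Fintype.card_fin]
  ring

theorem MM_le {n k c : ℕ} (hn : 4 ≤ n) (h : n ^ k ≤ 2 ^ (c * n)) :
    (MM n (n ^ 2) (Fin (2 * (n ^ 2) ^ 3)) k : ℝ) ≤ (2 ^ n) ^ (1 + 9 * c) := by
  have h1 : MM n (n ^ 2) (Fin (2 * (n ^ 2) ^ 3)) k ≤ (2 ^ n) ^ (1 + 9 * c) := by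
    unfold MM
    rw [card_X, pow_add, pow_one]
    refine Nat.mul_le_mul_left _ ?_
    calc (2 * n ^ 8 * 2) ^ k ≤ (n ^ 9) ^ k := Nat.pow_le_pow_left (by
            rw [pow_succ n 8]
            nlinarith [Nat.zero_le (n ^ 8)]) k
      _ = (n ^ k) ^ 9 := by ring
      _ ≤ (2 ^ (c * n)) ^ 9 := Nat.pow_le_pow_left h 9
      _ = (2 ^ n) ^ (9 * c) := by ring
  exact_mod_cast h1

theorem RR_le {n k d : ℕ} (hn : 1 ≤ n) (hk : k ≤ d) (hd : 2 * d ≤ n) :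
    (RR n (n ^ 2) (Fin (2 * (n ^ 2) ^ 3)) (2 * d) k : ℝ) * ((n : ℝ) ^ 2) ^ d ≤
      (2 ^ n) ^ 3 * (Fintype.card (Fin (n ^ 2) × Fin (2 * (n ^ 2) ^ 3)) : ℝ) ^ n := by
  have h1 : RR n (n ^ 2) (Fin (2 * (n ^ 2) ^ 3)) (2 * d) k * (n ^ 2) ^ d ≤
      (2 ^ n) ^ 3 * Fintype.card (Fin (n ^ 2) × Fin (2 * (n ^ 2) ^ 3)) ^ n := by
    unfold RR
    rw [card_X]
    have h2 : n ^ 2 ≤ 2 * n ^ 8 :=
      (Nat.pow_le_pow_right hn (show 2 ≤ 8 by norm_num)).trans (by omega)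
    have h3 : 0 < 2 * n ^ 8 := by positivity
    calc 3 ^ n * (2 ^ n * (2 * n ^ 8) ^ (n + k - 2 * d)) * (n ^ 2) ^ d
        ≤ 4 ^ n * (2 ^ n * (2 * n ^ 8) ^ (n - d)) * (2 * n ^ 8) ^ d := by
          exact Nat.mul_le_mul (Nat.mul_le_mul (Nat.pow_le_pow_left (by norm_num) n)
            (Nat.mul_le_mul_left _ (Nat.pow_le_pow_right h3 (by omega)))) (Nat.pow_le_pow_left h2 d)
      _ = (2 ^ n) ^ 3 * (2 * n ^ 8) ^ (n - d + d) := by
          rw [pow_add, show (4 : ℕ) = 2 * 2 by norm_num, mul_pow 2 2 n]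
          ring
      _ = (2 ^ n) ^ 3 * (2 * n ^ 8) ^ n := by rw [Nat.sub_add_cancel (by omega)]
  exact_mod_cast h1

theorem log_choice {n j : ℕ} (c : ℕ) (hj : 1 ≤ j) (hn : 2 ^ j ≤ n) :
    ∃ k, n ^ k ≤ 2 ^ (c * n) ∧ 2 ^ (c * n) < n ^ (k + 1) ∧ j * k ≤ c * n := by
  have h1 : 1 < n := lt_of_lt_of_le (Nat.one_lt_two_pow (by omega)) hn
  have h2 := Nat.pow_log_le_self n (x := 2 ^ (c * n)) (by positivity)
  refine ⟨Nat.log n (2 ^ (c * n)), h2, Nat.lt_pow_succ_log_self h1 _, ?_⟩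
  rw [← Nat.pow_le_pow_iff_right one_lt_two, pow_mul]
  exact (Nat.pow_le_pow_left hn _).trans h2

theorem master : ∃ n₀ : ℕ, ∀ n ≥ n₀, ∀ [NeZero (n ^ 2)] [Nonempty (Fin (2 * (n ^ 2) ^ 3))]
    (σ : (Fin n → Bool) → ℝ), IsPseudo n (2 * (n / 256)) (2 ^ n) σ →
    ∃ (κ ν : ℝ) (k : ℕ), 0 ≤ κ ∧ 8 ≤ k ∧ 2 * k ≤ 2 * (n / 256) ∧
      CovOK (n ^ 2) (Fin (2 * (n ^ 2) ^ 3)) σ κ k ν ∧ ν + 2 * 2 ^ n * κ * 2 ^ n ≤ 1 ∧
      ∀ (A : Row n (n ^ 2) (Fin (2 * (n ^ 2) ^ 3)) → Prop)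
        (B : Col n (n ^ 2) (Fin (2 * (n ^ 2) ^ 3)) → Prop) (G : ℝ),
        Dec σ (2 ^ (4 * n) * RR n (n ^ 2) (Fin (2 * (n ^ 2) ^ 3)) (2 * (n / 256)) (2 * k))
          (2 ^ (4 * n) * MM n (n ^ 2) (Fin (2 * (n ^ 2) ^ 3)) (2 * k)) G 0 A B (fun _ _ => -1) →
        ν ≤ vl σ (rect A B) → False := by
  obtain ⟨j, hj⟩ : ∃ j : ℕ, 3072000 ≤ j := ⟨_, le_rfl⟩
  obtain ⟨n₁, hn₁⟩ := pow9_le
  refine ⟨max (2 ^ j) n₁, fun n hn _ _ σ hσ => ?_⟩
  have hjn : 2 ^ j ≤ n := (le_max_left _ _).trans hn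
  have h9 := hn₁ n ((le_max_right _ _).trans hn)
  have hn0 : 3072000 ≤ n := hj.trans (Nat.lt_two_pow_self.le.trans hjn)
  obtain ⟨k₁, a1, a2, a3⟩ := log_choice 4 (by omega) hjn
  obtain ⟨k₂, b1, b2, b3⟩ := log_choice 171 (by omega) hjn
  set d := n / 256 with hd
  have hk₁ : 2 * k₁ ≤ d := by nlinarith [Nat.div_add_mod n 256, Nat.mod_lt n (show 256 > 0 by norm_num)]
  have hk₂ : k₂ ≤ d := by nlinarith [Nat.div_add_mod n 256, Nat.mod_lt n (show 256 > 0 by norm_num)]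
  have hk8 : 8 ≤ k₁ := by
    by_contra hc
    have h1 : n ^ (k₁ + 1) ≤ n ^ 9 := Nat.pow_le_pow_right (by omega) (by omega)
    have h2 : 2 ^ n ≤ 2 ^ (4 * n) := Nat.pow_le_pow_right (by norm_num) (by omega)
    omega
  obtain ⟨T, hT⟩ : ∃ T : ℝ, T = 2 ^ n := ⟨_, rfl⟩
  have hT8 : 8 ≤ T := by
    rw [hT, show (8 : ℝ) = 2 ^ 3 by norm_num]
    exact pow_le_pow_right₀ one_le_two (by omega)
  have hT0 : 0 < T := by linarith
  have hT1 : 1 ≤ T := by linarith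
  have hnR : (1 : ℝ) ≤ n := by exact_mod_cast (by omega : 1 ≤ n)
  have cast : ∀ c k : ℕ, n ^ k ≤ 2 ^ (c * n) → (n : ℝ) ^ k ≤ T ^ c := fun c k h => by
    rw [hT, ← pow_mul, mul_comm]
    exact_mod_cast h
  have cast' : ∀ c k : ℕ, 2 ^ ((c + 1) * n) < n ^ (k + 1) →
      2 / (1 / T ^ c) < (((n ^ 2 : ℕ) : ℝ) / n) ^ (k + 1) := fun c k h => by
    have h1 : T ^ (c + 1) < (n : ℝ) ^ (k + 1) := by
      rw [hT, ← pow_mul, mul_comm]
      exact_mod_cast h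
    have h2 : (((n ^ 2 : ℕ) : ℝ) / n) = n := by
      push_cast
      field_simp
    rw [h2, div_div_eq_mul_div, div_one]
    refine lt_of_le_of_lt ?_ h1
    rw [pow_succ, mul_comm]
    gcongr
    linarith
  have hbig : T ^ 12000 ≤ ((n : ℝ) ^ 2) ^ d := by
    have h1 : (2 ^ n) ^ 12000 ≤ (n ^ 2) ^ d := by
      calc (2 ^ n) ^ 12000 = 2 ^ (n * 12000) := (pow_mul _ _ _).symm
        _ ≤ 2 ^ (j * (2 * d)) := Nat.pow_le_pow_right (by norm_num) (by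
            have h2 : n ≤ 512 * d := by omega
            nlinarith)
        _ = (2 ^ j) ^ (2 * d) := pow_mul _ _ _
        _ ≤ n ^ (2 * d) := Nat.pow_le_pow_left hjn _
        _ = (n ^ 2) ^ d := pow_mul _ _ _
    rw [hT]
    exact_mod_cast h1
  have hη : Tail n (n ^ 2) (Fin (2 * (n ^ 2) ^ 3)) (2 * d) (1 / T ^ 11998) := fun h h0 h1 => by
    refine (tl_le (by simp) d h0 h1).trans ?_
    have h2 : (3 : ℝ) ^ n ≤ T ^ 2 := by
      rw [hT, ← pow_mul, mul_comm, pow_mul]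
      exact pow_le_pow_left₀ (by norm_num) (by norm_num) n
    push_cast
    calc (3 : ℝ) ^ n / ((n : ℝ) ^ 2) ^ d ≤ T ^ 2 / T ^ 12000 := by gcongr
      _ = 1 / T ^ 11998 := by field_simp
  have hr : (n : ℝ) ≤ (n ^ 2 : ℕ) := by
    push_cast
    nlinarith
  have hD : 2 * ((2 * d : ℕ) : ℝ) ≤ n := by exact_mod_cast (by omega : 2 * (2 * d) ≤ n)
  have dv : ∀ a b : ℕ, a < b → 8 * (1 / T ^ b) ≤ 1 / T ^ a := fun a b h => by
    rw [mul_one_div, div_le_div_iff₀ (by positivity) (by positivity), one_mul]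
    calc 8 * T ^ a ≤ T * T ^ a := by gcongr
      _ = T ^ (a + 1) := by ring
      _ ≤ T ^ b := pow_le_pow_right₀ hT1 h
  have ps : ∀ a : ℕ, 0 < 1 / T ^ a := fun a => by positivity
  have he : (1 + T) * (1 / T ^ 11998) ≤ 1 / T ^ 11996 := by
    calc (1 + T) * (1 / T ^ 11998) ≤ T ^ 2 * (1 / T ^ 11998) := by
          gcongr
          nlinarith
      _ = 1 / T ^ 11996 := by field_simp
  have hM0 : ∀ k, (0 : ℝ) < MM n (n ^ 2) (Fin (2 * (n ^ 2) ^ 3)) k := fun k => by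
    have : 0 < Fintype.card (Fin (n ^ 2) × Fin (2 * (n ^ 2) ^ 3)) := Fintype.card_pos
    unfold MM
    positivity
  have hM₁ := MM_le (by omega) a1
  have hM₂ := MM_le (by omega) b1
  have hM₃ := MM_le (n := n) (k := 2 * k₁) (c := 8) (by omega) (by
    rw [mul_comm 2, pow_mul, show 8 * n = 4 * n * 2 by ring, pow_mul]
    exact Nat.pow_le_pow_left a1 2)
  rw [← hT] at hM₁ hM₂ hM₃ hσ ⊢
  norm_num only at hM₁ hM₂ hM₃
  refine ⟨1 / T ^ 3, 1 / T ^ 89, k₁, (ps _).le, hk8, by omega,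
    cover hσ hη (ps _) hnR hr hD (cast' 3 k₁ a2) ?_, ?_, fun A B G h hv => ?_⟩
  · have h1 : 1 / T ^ 88 ≤ (1 / T ^ 3) ^ 3 /
        (8 * (MM n (n ^ 2) (Fin (2 * (n ^ 2) ^ 3)) k₁ : ℝ) ^ 2 * (n : ℝ) ^ k₁) := by
      have := hM0 k₁
      calc 1 / T ^ 88 = (1 / T ^ 3) ^ 3 / (T * (T ^ 37) ^ 2 * T ^ 4) := by field_simp
        _ ≤ _ := by
          gcongr
          exact cast 4 k₁ a1
    linarith [dv 88 89 (by norm_num), dv 88 11996 (by norm_num), ps 89, ps 11996]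
  · have h1 : 2 * T * (1 / T ^ 3) * T = 2 * (1 / T ^ 1) := by field_simp
    have h2 := dv 0 1 (by norm_num)
    have h3 := dv 0 89 (by norm_num)
    rw [pow_zero] at h2 h3
    linarith [ps 1, ps 89]
  have h4n : ((2 ^ (4 * n) : ℕ) : ℝ) = T ^ 4 := by
    rw [hT, ← pow_mul, mul_comm]
    norm_num
  generalize hs : 2 ^ (4 * n) * MM n (n ^ 2) (Fin (2 * (n ^ 2) ^ 3)) (2 * k₁) = s at h
  have hs1 : (s : ℝ) ≤ T ^ 77 := by
    rw [← hs, Nat.cast_mul, h4n]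
    calc T ^ 4 * _ ≤ T ^ 4 * T ^ 73 := by gcongr
      _ = T ^ 77 := by ring
  have hs2 : (s : ℝ) + 1 ≤ T ^ 78 := by
    have := one_le_pow₀ (n := 77) hT1
    calc (s : ℝ) + 1 ≤ T ^ 77 * 2 := by linarith
      _ ≤ T ^ 77 * T := by gcongr; linarith
      _ = T ^ 78 := by ring
  refine keyReal hσ hη (ps _).le (ps 170).le (ps 3330)
    (pos_ok (ν := 1 / T ^ 5383) hσ hη (ps _) (ps _).le hnR hr hD (cast' 170 k₂ b2) ?_) h (ps _).le
    (le_trans ?_ hv) ?_ ?_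
  · have h1 : 1 / T ^ 5382 ≤ (1 / T ^ 170) ^ 2 * (1 / T ^ 3330) /
        (8 * (MM n (n ^ 2) (Fin (2 * (n ^ 2) ^ 3)) k₂ : ℝ) * (n : ℝ) ^ k₂) := by
      have := hM0 k₂
      calc 1 / T ^ 5382 = (1 / T ^ 170) ^ 2 * (1 / T ^ 3330) / (T * T ^ 1540 * T ^ 171) := by
            field_simp
        _ ≤ _ := by
          gcongr
          exact cast 171 k₂ b1
    linarith [dv 5382 5383 (by norm_num), dv 5382 11996 (by norm_num), ps 5383, ps 11996]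
  · have h1 : T * ((s + 1) * (1 / T ^ 170) + 2 * ((s + 1) *
        (MM n (n ^ 2) (Fin (2 * (n ^ 2) ^ 3)) k₂ : ℝ)) ^ 2 * (1 / T ^ 3330)) ≤
        1 / T ^ 91 + 2 * (1 / T ^ 93) := by
      calc _ ≤ T * (T ^ 78 * (1 / T ^ 170) + 2 * (T ^ 78 * T ^ 1540) ^ 2 * (1 / T ^ 3330)) := by
            gcongr
        _ = _ := by field_simp
    linarith [dv 89 91 (by norm_num), dv 89 93 (by norm_num), dv 89 5383 (by norm_num), ps 89]
  · calc (s : ℝ) * MM n (n ^ 2) (Fin (2 * (n ^ 2) ^ 3)) k₂ * (T * (1 / T ^ 11998))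
        ≤ T ^ 77 * T ^ 1540 * (T * (1 / T ^ 11998)) := by gcongr
      _ = 1 / T ^ 10380 := by field_simp
      _ ≤ 1 / T ^ 5383 / 2 := by linarith [dv 5383 10380 (by norm_num), ps 10380]
  · have h1 := RR_le (n := n) (by omega) hk₁ (by omega)
    have h2 := RR_le (n := n) (by omega) hk₂ (by omega)
    rw [← hT] at h1 h2
    rw [Nat.cast_mul, h4n]
    have hm : (0 : ℝ) < (Fintype.card (Fin (n ^ 2) × Fin (2 * (n ^ 2) ^ 3)) : ℝ) ^ n := by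
      have : 0 < Fintype.card (Fin (n ^ 2) × Fin (2 * (n ^ 2) ^ 3)) := Fintype.card_pos
      positivity
    generalize (Fintype.card (Fin (n ^ 2) × Fin (2 * (n ^ 2) ^ 3)) : ℝ) ^ n = m at h1 h2 hm ⊢
    have h3 : ∀ R : ℕ, (R : ℝ) * ((n : ℝ) ^ 2) ^ d ≤ T ^ 3 * m → (R : ℝ) ≤ m / T ^ 11997 :=
      fun R h => by
        rw [le_div_iff₀ (by positivity)]
        refine le_of_mul_le_mul_left ?_ (show 0 < T ^ 3 by positivity)
        calc T ^ 3 * (R * T ^ 11997) = R * T ^ 12000 := by ring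
          _ ≤ R * ((n : ℝ) ^ 2) ^ d := by gcongr
          _ ≤ _ := h
    have h4 := h3 _ h1
    have h5 := h3 _ h2
    have h6 : T ^ 4 ≤ T ^ 78 := pow_le_pow_right₀ hT1 (by norm_num)
    rw [add_comm 1]
    calc _ ≤ (T * T ^ 78) ^ 2 * (T ^ 78 * (m / T ^ 11997) + T ^ 78 * (m / T ^ 11997)) := by gcongr
      _ = 2 * (1 / T ^ 11761) * m := by field_simp; ring
      _ < (1 / T ^ 10766 / 4) * m := by
          gcongr
          linarith [dv 10766 11761 (by norm_num), dv 11760 11761 (by norm_num),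
            dv 10766 11760 (by norm_num), ps 11761]
      _ = _ := by field_simp; ring

end Pool.Agent.Lib.MP_8a52c3_lc.LS
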