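import Pool.Agent.Lib.MP_8a52c3_lc.LS.Dec

/-! Decompositions with arbitrary real factors, the gate lemma and the outer run. -/

open Finset
open scoped BigOperators

namespace Pool.Agent.Lib.MP_8a52c3_lc.LS

open Pool.Agent.Lib.MP_8a52c3_lc.Mono

variable {n r : ℕ} {Q : Type} [Fintype Q] {D : ℕ} {Λ : ℝ} {σ : (Fin n → Bool) → ℝ}

theorem ex_bound {X : Type} [Finite X] (f : X → ℝ) : ∃ G : ℝ, 1 ≤ G ∧ ∀ x, |f x| ≤ G := by
  obtain ⟨G, hG⟩ := (Set.finite_range fun x => |f x|).bddAbove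
  exact ⟨max 1 G, le_max_left _ _, fun x => (hG ⟨x, rfl⟩).trans (le_max_right _ _)⟩

/-- On `A × B` the matrix `F` is a null part plus `s` nonnegative products. -/
def DecR (σ : (Fin n → Bool) → ℝ) (R s : ℕ) (A : Row n r Q → Prop) (B : Col n r Q → Prop)
    (F : Row n r Q → Col n r Q → ℝ) : Prop :=
  ∃ (N : Row n r Q → Col n r Q → ℝ) (ι : Type) (_ : Fintype ι) (a : ι → Row n r Q → ℝ)
    (b : ι → Col n r Q → ℝ), Low σ R N ∧ Fintype.card ι ≤ s ∧ (∀ i α, 0 ≤ a i α) ∧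
    (∀ i y, 0 ≤ b i y) ∧ ∀ α y, A α → B y → F α y = N α y + ∑ i, a i α * b i y

variable {R R' s s' : ℕ} {G : ℝ} {A : Row n r Q → Prop} {B : Col n r Q → Prop}
  {F F' : Row n r Q → Col n r Q → ℝ}

omit [Fintype Q] in
theorem Dec.real (h : Dec σ R s G 0 A B F) : DecR σ R s A B F := by
  obtain ⟨N, J, ι, _, a, b, h1, h2, h3, h4, h5⟩ := h
  refine ⟨N, ι, inferInstance, a, b, h1, h2, fun i α => (h3 i α).1, fun i y => (h4 i y).1,
    fun α y p q => ?_⟩
  obtain ⟨e1, e2, e3⟩ := h5 α y p q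
  linarith

theorem DecR.dec (h : DecR σ R s A B F) : ∃ G, Dec σ R s G 0 A B F := by
  obtain ⟨N, ι, _, a, b, h1, h2, h3, h4, h5⟩ := h
  obtain ⟨G, -, hG⟩ := ex_bound fun x : ι × Row n r Q => a x.1 x.2
  obtain ⟨G', -, hG'⟩ := ex_bound fun x : ι × Col n r Q => b x.1 x.2
  exact ⟨max G G', N, fun _ _ => 0, ι, inferInstance, a, b, h1, h2,
    fun i α => ⟨h3 i α, ((le_abs_self _).trans (hG (i, α))).trans (le_max_left _ _)⟩,
    fun i y => ⟨h4 i y, ((le_abs_self _).trans (hG' (i, y))).trans (le_max_right _ _)⟩,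
    fun α y p q => ⟨le_rfl, le_rfl, by rw [h5 α y p q, add_zero]⟩⟩

omit [Fintype Q] in
theorem DecR.mono (h : DecR σ R s A B F) (hR : R ≤ R') (hs : s ≤ s') : DecR σ R' s' A B F := by
  obtain ⟨N, ι, _, a, b, h1, h2, h3⟩ := h
  exact ⟨N, ι, inferInstance, a, b, h1.mono hR, h2.trans hs, h3⟩

omit [Fintype Q] in
theorem DecR.congr (h : DecR σ R s A B F) (he : ∀ α y, A α → B y → F' α y = F α y) :
    DecR σ R s A B F' := by
  obtain ⟨N, ι, _, a, b, h1, h2, h3, h4, h5⟩ := h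
  exact ⟨N, ι, inferInstance, a, b, h1, h2, h3, h4, fun α y p q => (he α y p q).trans (h5 α y p q)⟩

theorem DecR.add (h : DecR σ R s A B F) (h' : DecR σ R' s' A B F') :
    DecR σ (R + R') (s + s') A B fun α y => F α y + F' α y := by
  obtain ⟨G, h⟩ := h.dec
  obtain ⟨G', h'⟩ := h'.dec
  have := (h.mono le_rfl le_rfl (le_max_left G G') le_rfl).add
    (h'.mono le_rfl le_rfl (le_max_right G G') le_rfl)
  rw [add_zero] at this
  exact this.real

theorem DecR.sum {ι : Type} (t : Finset ι) {F : ι → Row n r Q → Col n r Q → ℝ}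
    (h : ∀ i ∈ t, DecR σ R s A B (F i)) :
    DecR σ (t.card * R) (t.card * s) A B fun α y => ∑ i ∈ t, F i α y := by
  classical
  induction t using Finset.induction_on with
  | empty => simpa using (Dec.low (G := 0) Low.zero).real
  | insert a t ha ih =>
    simp only [sum_insert ha, card_insert_of_notMem ha]
    exact ((h a (mem_insert_self _ _)).add (ih fun i hi => h i (mem_insert_of_mem hi))).mono
      (le_of_eq (by ring)) (le_of_eq (by ring))

theorem DecR.mul (h : DecR σ R s A B F) {u : Row n r Q → ℝ} {v : Col n r Q → ℝ}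
    (hu : ∀ α, 0 ≤ u α) (hv : ∀ y, 0 ≤ v y) : DecR σ R s A B fun α y => u α * v y * F α y := by
  obtain ⟨N, ι, _, a, b, h1, h2, h3, h4, h5⟩ := h
  refine ⟨_, ι, inferInstance, fun i α => u α * a i α, fun i y => v y * b i y, h1.mul u v, h2,
    fun i α => mul_nonneg (hu α) (h3 i α), fun i y => mul_nonneg (hv y) (h4 i y),
    fun α y p q => ?_⟩
  beta_reduce
  rw [h5 α y p q, mul_add, mul_sum]
  congr 1
  exact sum_congr rfl fun i _ => by ring

omit [Fintype Q] in
theorem decR_prod {ι : Type} [Fintype ι] {a : ι → Row n r Q → ℝ} {b : ι → Col n r Q → ℝ}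
    (ha : ∀ i α, 0 ≤ a i α) (hb : ∀ i y, 0 ≤ b i y) :
    DecR σ 0 (Fintype.card ι) A B fun α y => ∑ i, a i α * b i y :=
  ⟨fun _ _ => 0, ι, inferInstance, a, b, Low.zero, le_rfl, ha, hb, fun _ _ _ _ => by simp⟩

theorem decR_aff {a : Row n r Q → ℝ} {b : Col n r Q → ℝ}
    (h : ∀ α y, A α → B y → 0 ≤ a α + b y) : DecR σ 0 2 A B fun α y => a α + b y := by
  obtain ⟨G, h1, hG⟩ := ex_bound a
  obtain ⟨G', -, hG'⟩ := ex_bound b
  obtain ⟨a', b', e1, e2, e3⟩ := aff_pos (G := max G G') (le_max_of_le_left (by linarith))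
    (fun α => (hG α).trans (le_max_left _ _)) (fun y => (hG' y).trans (le_max_right _ _)) h
  refine (decR_prod (ι := Fin 2) (a := ![a', fun _ => 1]) (b := ![fun _ => 1, b'])
    (fun i α => ?_) fun i y => ?_).congr fun α y p q => ?_
  · fin_cases i
    · exact (e1 α).1
    · exact zero_le_one
  · fin_cases i
    · exact zero_le_one
    · exact (e2 y).1
  · simp [e3 α y p q]

variable [DecidableEq Q] [Nonempty Q] [NeZero r]

theorem decR_tri (hσ : IsPseudo n D Λ σ) {k : ℕ} (hk : 2 * k ≤ D) {p : Row n r Q → ℝ}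
    {q : Col n r Q → ℝ} (h : Cvd σ k (fun α y => q y < p α) A B) :
    DecR σ (4 * RR n r Q D (2 * k)) (MM n r Q (2 * k) * 4) A B fun α y => q y - p α := by
  obtain ⟨G, h1, hG⟩ := ex_bound p
  obtain ⟨G', -, hG'⟩ := ex_bound q
  have h2 : 1 ≤ max G G' := le_max_of_le_left h1
  refine (dec_mul hσ hk (G := max G G') (a := fun α => -p α) (b := q) (a' := fun _ => 1)
    (b' := fun _ => 0) h2 (fun α => by rw [abs_neg]; exact (hG α).trans (le_max_left _ _))
    (fun y => (hG' y).trans (le_max_right _ _)) (fun _ => by rwa [abs_one])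
    (fun _ => by rw [abs_zero]; linarith) (h.mono fun α y a b c => ⟨a, b, by linarith⟩)
    ⟨fun _ => ∅, by simp, fun α y _ _ c => absurd c (by norm_num)⟩).real.congr fun α y _ _ => ?_
  ring

/-- The identity of a gate is a forbidden decomposition. -/
theorem dec_gate (hσ : IsPseudo n D Λ σ) {k : ℕ} (hk : 2 * k ≤ D) {ι τ : Type} [Fintype ι]
    [Fintype τ] {p c : ι → Row n r Q → ℝ} {q d : ι → Col n r Q → ℝ} (hc : ∀ u α, 0 ≤ c u α)
    (hd : ∀ u y, 0 ≤ d u y) (hcv : ∀ u, Cvd σ k (fun α y => q u y < p u α) A B)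
    {a : τ → Row n r Q → ℝ} {b : τ → Col n r Q → ℝ} (ha : ∀ t α, 0 ≤ a t α)
    (hb : ∀ t y, 0 ≤ b t y) {e : Row n r Q → ℝ} {f : Col n r Q → ℝ}
    (hef : ∀ α y, A α → B y → f y < e α)
    (hid : ∀ α y, A α → B y →
      ∑ u, (p u α - q u y) * (c u α * d u y) = e α - f y + ∑ t, a t α * b t y) :
    DecR σ (Fintype.card ι * (4 * RR n r Q D (2 * k)))
      (Fintype.card ι * (MM n r Q (2 * k) * 4) + (2 + Fintype.card τ)) A B fun _ _ => -1 := by
  classical
  obtain ⟨G, h1, hG⟩ := ex_bound fun x : Row n r Q × Col n r Q => 1 / (e x.1 - f x.2)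
  have h2 : ∀ α y, A α → B y → 0 ≤ (e α - 1 / G) + -f y := fun α y hα hy => by
    have h3 := sub_pos.2 (hef α y hα hy)
    have h4 := (le_abs_self _).trans (hG (α, y))
    have h5 := (one_div_le h3 (by linarith)).1 h4
    linarith
  have h3 := ((DecR.sum univ fun u _ => (decR_tri hσ hk (hcv u)).mul (hc u) (hd u)).add
    ((decR_aff (σ := σ) h2).add (decR_prod ha hb))).mul (u := fun _ => G) (v := fun _ => 1)
    (fun _ => by linarith) fun _ => zero_le_one
  refine h3.congr fun α y hα hy => ?_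
  have h4 : ∑ u, c u α * d u y * (q u y - p u α) =
      -∑ u, (p u α - q u y) * (c u α * d u y) := by
    rw [← sum_neg_distrib]
    exact sum_congr rfl fun u _ => by ring
  have h5 : G ≠ 0 := by linarith
  rw [h4, hid α y hα hy]
  field_simp
  ring

theorem dec_null (hσ : IsPseudo n D Λ σ) {k : ℕ} (h : Cvd σ k (fun _ _ => True) A B) :
    DecR σ (RR n r Q D k) 0 A B fun _ _ => -1 := by
  obtain ⟨I, h1, h2⟩ := h
  refine (Dec.low (G := 0) ((low_nul hσ h1).mul (fun _ => -1) fun _ => 1)).real.congr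
    fun α y p q => ?_
  rw [ind_of (h2 α y p q trivial)]
  norm_num

omit [Fintype Q] [DecidableEq Q] [Nonempty Q] [NeZero r] in
theorem Cvd.union (hσ : IsPseudo n D Λ σ) {k : ℕ} (hk : 2 * k ≤ D)
    {T T' T'' : Row n r Q → Col n r Q → Prop} (h : Cvd σ k T A B) (h' : Cvd σ k T' A B)
    (hT : ∀ α y, A α → B y → T'' α y → T α y ∨ T' α y) : Cvd σ (2 * k) T'' A B := by
  obtain ⟨I, hI, h⟩ := h
  obtain ⟨I', hI', h'⟩ := h'
  have hJ : ∀ α, (I α ∪ I' α).card ≤ 2 * k := fun α =>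
    (card_union_le _ _).trans (by linarith [hI α, hI' α])
  refine ⟨fun α => I α ∪ I' α, hJ, fun α y p q c => ?_⟩
  rcases hT α y p q c with c | c
  · exact null_mono hσ subset_union_left ((hJ α).trans hk) (h α y p q c)
  · exact null_mono hσ subset_union_right ((hJ α).trans hk) (h' α y p q c)

omit [Fintype Q] [DecidableEq Q] [Nonempty Q] [NeZero r] in
theorem Cvd.wide {k k' : ℕ} {T : Row n r Q → Col n r Q → Prop} (h : Cvd σ k T A B)
    (hk : k ≤ k') : Cvd σ k' T A B := by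
  obtain ⟨I, hI, h⟩ := h
  exact ⟨I, fun α => (hI α).trans hk, h⟩

theorem vl_univ (hσ : IsPseudo n D Λ σ) :
    vl σ (rect (fun _ : Row n r Q => True) fun _ : Col n r Q => True) = 1 := by
  have h : ∀ α : Row n r Q, 𝔼 y : Col n r Q, σ (zz α y) = 1 := fun α => by
    have h1 : Function.Injective fun e => (gp e (α e).1, (α e).2) := fun e e' h =>
      (gp_inj (Prod.ext_iff.1 h).1).1
    rw [← hσ.mean, ← ex_comp h1 σ, ← ex_equiv (Equiv.curry _ _ _)]
    rfl
  simp only [vl, rect, ind_of trivial, mul_one, h, ex_const]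

/-- The outer run over the gates of a circuit. -/
theorem dag_run (hσ : IsPseudo n D Λ σ) {κ ν : ℝ} {k S : ℕ} (hκ : 0 ≤ κ)
    (hc : CovOK r Q σ κ k ν) (hv : ν + 2 * Λ * κ * S ≤ 1)
    (hkey : ∀ (A : Row n r Q → Prop) (B : Col n r Q → Prop),
      DecR σ R s A B (fun _ _ => -1) → ν ≤ vl σ (rect A B) → False)
    (p : ℕ → Row n r Q → ℝ) (q : ℕ → Col n r Q → ℝ) {v₀ : ℕ} (h0 : v₀ < S)
    (hroot : ∀ α y, q v₀ y < p v₀ α)
    (hstep : ∀ v < S, ∀ (A : Row n r Q → Prop) (B : Col n r Q → Prop),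
      (∀ α y, A α → B y → q v y < p v α) →
      (∀ u < v, Cvd σ k (fun α y => q u y < p u α) A B) → DecR σ R s A B fun _ _ => -1) :
    False := by
  obtain ⟨c, A, B, -, -, -, h1, h2, h3⟩ := process hσ.bound hκ hc
    (fun (v : Fin S) α y => q v y < p v α) (fun v α α' =>
      (le_total (p v α) (p v α')).imp (fun h y h' => h'.trans_le h) fun h y h' => h'.trans_le h)
    Fin.val (A₀ := fun _ => True) (B₀ := fun _ => True) ⟨v₀, h0⟩ (fun α y _ _ => hroot α y)
    (by rw [vl_univ hσ, Fintype.card_fin]; exact hv)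
  exact hkey A B (hstep c c.2 A B h1 fun u hu => h3 ⟨u, hu.trans c.2⟩ hu) h2

end Pool.Agent.Lib.MP_8a52c3_lc.LS
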