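import Pool.Agent.Lib.MP_8a52c3_lc.XCFarkas

/-! Duality of linear programs and monotone affine maps. -/

open Finset
open scoped BigOperators

namespace Pool.Agent.Lib.MP_8a52c3_lc.LS

theorem farkas' {V ι : Type} [AddCommGroup V] [Module ℝ V] [Fintype ι] (a : ι → V →ₗ[ℝ] ℝ)
    (b : V →ₗ[ℝ] ℝ) (h : ∀ y, (∀ i, 0 ≤ a i y) → 0 ≤ b y) :
    ∃ μ : ι → ℝ, (∀ i, 0 ≤ μ i) ∧ ∀ y, b y = ∑ i, μ i * a i y := by
  let e := Fintype.equivFin ι
  obtain ⟨μ, h1, h2⟩ := XC.farkas _ (fun j => a (e.symm j)) b fun y hy =>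
    h y fun i => by simpa using hy (e i)
  refine ⟨fun i => μ (e i), fun i => h1 _, fun y => ?_⟩
  rw [h2 y, ← e.sum_comp]
  simp

/-- The homogeneous form of an affine functional. -/
noncomputable def hom {V : Type} [AddCommGroup V] [Module ℝ V] (f : V →ᵃ[ℝ] ℝ) :
    V × ℝ →ₗ[ℝ] ℝ :=
  f.linear.coprod (LinearMap.toSpanSingleton ℝ ℝ (f 0))

theorem aff_eq {V : Type} [AddCommGroup V] [Module ℝ V] (f : V →ᵃ[ℝ] ℝ) (w : V) :
    f w = f.linear w + f 0 := by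
  simpa using f.map_vadd 0 w

theorem hom_apply {V : Type} [AddCommGroup V] [Module ℝ V] (f : V →ᵃ[ℝ] ℝ) (w : V) (s : ℝ) :
    hom f (w, s) = f.linear w + s * f 0 := by
  simp [hom]

theorem hom_pos {V : Type} [AddCommGroup V] [Module ℝ V] (f : V →ᵃ[ℝ] ℝ) (w : V) {s : ℝ}
    (hs : 0 < s) : hom f (w, s) = s * f (s⁻¹ • w) := by
  rw [hom_apply, aff_eq f (s⁻¹ • w), map_smul, smul_eq_mul]
  field_simp

/-- An infeasible system has a certificate. -/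
theorem farkas_empty {V ι : Type} [AddCommGroup V] [Module ℝ V] [Fintype ι]
    (f : ι → V →ᵃ[ℝ] ℝ) (h : ¬ ∃ w, ∀ i, 0 ≤ f i w) :
    ∃ μ : ι → ℝ, (∀ i, 0 ≤ μ i) ∧ ∀ w, ∑ i, μ i * f i w = -1 := by
  obtain ⟨μ, h1, h2⟩ := farkas' (fun i => hom (f i)) (-LinearMap.snd ℝ V ℝ) fun y hy => by
    obtain ⟨w, s⟩ := y
    by_contra hc
    have hs : 0 < s := by simpa using hc
    refine h ⟨s⁻¹ • w, fun i => ?_⟩
    have := hy i
    rw [hom_pos _ _ hs] at this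
    exact nonneg_of_mul_nonneg_right this hs |>.trans_eq rfl
  refine ⟨μ, h1, fun w => ?_⟩
  have := h2 (w, 1)
  simp only [hom_apply, one_mul, ← aff_eq] at this
  simpa using this.symm

/-- A valid inequality of a feasible system has a certificate. -/
theorem farkas_aff {V ι : Type} [AddCommGroup V] [Module ℝ V] [Fintype ι]
    (f : ι → V →ᵃ[ℝ] ℝ) (g : V →ᵃ[ℝ] ℝ) {w₀ : V} (h0 : ∀ i, 0 ≤ f i w₀)
    (h : ∀ w, (∀ i, 0 ≤ f i w) → 0 ≤ g w) :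
    ∃ (μ : ι → ℝ) (ν : ℝ), (∀ i, 0 ≤ μ i) ∧ 0 ≤ ν ∧ ∀ w, g w = ν + ∑ i, μ i * f i w := by
  obtain ⟨μ, h1, h2⟩ := farkas' (fun o : Option ι => o.elim (LinearMap.snd ℝ V ℝ) fun i => hom (f i))
    (hom g) fun y hy => by
      obtain ⟨w, s⟩ := y
      have hs : 0 ≤ s := hy none
      rcases hs.lt_or_eq with hs | rfl
      · rw [hom_pos _ _ hs]
        refine mul_nonneg hs.le (h _ fun i => ?_)
        have : 0 ≤ hom (f i) (w, s) := hy (some i)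
        rw [hom_pos _ _ hs] at this
        exact nonneg_of_mul_nonneg_right this hs |>.trans_eq rfl
      · rw [hom_apply, zero_mul, add_zero]
        by_contra hc
        have hg : 0 < -g.linear w := by linarith
        have hg0 := h w₀ h0
        have h3 := h (((g w₀ + 1) / -g.linear w) • w +ᵥ w₀) fun i => by
          have : 0 ≤ hom (f i) (w, 0) := hy (some i)
          rw [hom_apply, zero_mul, add_zero] at this
          rw [AffineMap.map_vadd, map_smul, smul_eq_mul, vadd_eq_add]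
          exact add_nonneg (mul_nonneg (by positivity) this) (h0 i)
        rw [AffineMap.map_vadd, map_smul, smul_eq_mul, vadd_eq_add] at h3
        have h4 : (g w₀ + 1) / -g.linear w * -g.linear w = g w₀ + 1 := div_mul_cancel₀ _ hg.ne'
        linarith
  refine ⟨fun i => μ (some i), μ none, fun i => h1 _, h1 _, fun w => ?_⟩
  have := h2 (w, 1)
  simp only [Fintype.sum_option, Option.elim, hom_apply, one_mul, ← aff_eq] at this
  simpa using this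

theorem aff_diff {v : ℕ} {E : Type} [AddCommGroup E] [Module ℝ E] (f : (Fin v → ℝ) →ᵃ[ℝ] E)
    (p q : Fin v → ℝ) : f p - f q = ∑ u, (p u - q u) • (f (Pi.single u 1) - f 0) := by
  have h : ∀ x y, f x - f y = f.linear (x - y) := fun x y => (f.linearMap_vsub x y).symm
  simp only [h, sub_zero, ← map_smul, ← map_sum]
  congr 1
  funext u
  simp [Finset.sum_apply, Pi.single_apply]

/-- Evaluation of affine maps at a point. -/
def evp {P E : Type} [AddCommGroup P] [Module ℝ P] [AddCommGroup E] [Module ℝ E] (p : P) :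
    (P →ᵃ[ℝ] E) →ₗ[ℝ] E := ⟨⟨fun f => f p, fun _ _ => rfl⟩, fun _ _ => rfl⟩

theorem dual_max {V P : Type} [AddCommGroup V] [Module ℝ V] [AddCommGroup P] [Module ℝ P] {s : ℕ}
    (F : V →ᵃ[ℝ] P →ᵃ[ℝ] (Fin s → ℝ)) (h : V →ᵃ[ℝ] P →ᵃ[ℝ] ℝ) (p : P) {g : ℝ}
    (hg : IsGreatest {t | ∃ w, 0 ≤ F w p ∧ t = h w p} g) :
    ∃ (μ : Fin s → ℝ) (ν : ℝ), (∀ t, 0 ≤ μ t) ∧ 0 ≤ ν ∧
      ∀ w, g - h w p = ν + ∑ t, μ t * F w p t := by
  obtain ⟨⟨w₀, h1, -⟩, h2⟩ := hg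
  exact farkas_aff (fun t : Fin s =>
    ((LinearMap.proj t : (Fin s → ℝ) →ₗ[ℝ] ℝ).comp (evp p)).toAffineMap.comp F)
    (AffineMap.const ℝ V g - (evp p).toAffineMap.comp h) (w₀ := w₀) h1
    fun w hw => sub_nonneg.2 (h2 ⟨w, hw, rfl⟩)

theorem dual_min {V P : Type} [AddCommGroup V] [Module ℝ V] [AddCommGroup P] [Module ℝ P] {s : ℕ}
    (F : V →ᵃ[ℝ] P →ᵃ[ℝ] (Fin s → ℝ)) (h : V →ᵃ[ℝ] P →ᵃ[ℝ] ℝ) (p : P) {g : ℝ}
    (hg : IsLeast {t | ∃ w, 0 ≤ F w p ∧ t = h w p} g) :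
    ∃ (μ : Fin s → ℝ) (ν : ℝ), (∀ t, 0 ≤ μ t) ∧ 0 ≤ ν ∧
      ∀ w, h w p - g = ν + ∑ t, μ t * F w p t := by
  obtain ⟨⟨w₀, h1, -⟩, h2⟩ := hg
  exact farkas_aff (fun t : Fin s =>
    ((LinearMap.proj t : (Fin s → ℝ) →ₗ[ℝ] ℝ).comp (evp p)).toAffineMap.comp F)
    ((evp p).toAffineMap.comp h - AffineMap.const ℝ V g) (w₀ := w₀) h1
    fun w hw => sub_nonneg.2 (h2 ⟨w, hw, rfl⟩)

theorem dual_empty {V P : Type} [AddCommGroup V] [Module ℝ V] [AddCommGroup P] [Module ℝ P]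
    {s : ℕ} (F : V →ᵃ[ℝ] P →ᵃ[ℝ] (Fin s → ℝ)) (p : P) (hg : ¬ ∃ w, 0 ≤ F w p) :
    ∃ μ : Fin s → ℝ, (∀ t, 0 ≤ μ t) ∧ ∀ w, ∑ t, μ t * F w p t = -1 :=
  farkas_empty (fun t : Fin s =>
    ((LinearMap.proj t : (Fin s → ℝ) →ₗ[ℝ] ℝ).comp (evp p)).toAffineMap.comp F) hg

/-- The identity behind a gate. -/
theorem lp_id {v s : ℕ} (Φ : (Fin v → ℝ) →ᵃ[ℝ] (Fin s → ℝ)) (φ : (Fin v → ℝ) →ᵃ[ℝ] ℝ)
    (p q : Fin v → ℝ) (μ : Fin s → ℝ) :
    ∑ x : Fin v × Option (Fin s), (p x.1 - q x.1) *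
      ((x.2.elim (φ (Pi.single x.1 1) - φ 0) fun t => Φ (Pi.single x.1 1) t - Φ 0 t) *
        x.2.elim 1 μ) = φ p - φ q + (∑ t, Φ p t * μ t - ∑ t, Φ q t * μ t) := by
  have h2 : ∀ t, Φ p t * μ t - Φ q t * μ t =
      ∑ u, (p u - q u) * ((Φ (Pi.single u 1) t - Φ 0 t) * μ t) := fun t => by
    have e1 := congrFun (aff_diff Φ p q) t
    simp only [Pi.sub_apply, Finset.sum_apply, Pi.smul_apply, smul_eq_mul] at e1
    rw [← sub_mul, e1, sum_mul]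
    exact sum_congr rfl fun u _ => mul_assoc _ _ _
  simp only [Fintype.sum_prod_type, Fintype.sum_option, Option.elim, mul_one, sum_add_distrib]
  rw [aff_diff φ p q, ← sum_sub_distrib, sum_congr rfl fun t _ => h2 t, sum_comm]
  rfl

end Pool.Agent.Lib.MP_8a52c3_lc.LS
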