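import Pool.Agent.Lib.MP_8a52c3_lc.LS.Master
import Pool.Agent.Lib.MP_8a52c3_lc.Mono.Lang
import Pool.Agent.Lib.MP_8a52c3_lc.Mono.LangP

/-! A monotone language in P that contains the lifted parity system with blocks of polynomial
size. -/

open Finset Filter
open scoped BigOperators

namespace Pool.Agent.Lib.MP_8a52c3_lc.LS

open Pool.Agent.Lib.MP_8a52c3_lc.Mono

/-- The equations selected by the word `w`. -/
def rowsG (M q : ℕ) (w : List Bool) : List (List ℕ × Bool) :=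
  ((List.range w.length).filter fun i => w.getD i false && decide (i < q ^ 2 * M ^ 8)).map
    (rowN M q)

/-- The side of the grid used for words of length `N`. -/
def qV (N : ℕ) : ℕ := Nat.findGreatest (fun q => q ^ 2 * (2 * (4 * q ^ 2) ^ 8) ^ 8 ≤ N) N

open Classical in
/-- The hard language: the selected equations are unsatisfiable. -/
noncomputable def hardV (w : List Bool) : Bool :=
  decide (¬ XorSat (rowsG (2 * (4 * qV w.length ^ 2) ^ 8) (qV w.length) w))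

open Pool.Agent.Shared.PolyTime N68a2faeb in
theorem lv_row : IsPolyTime fun p : ℕ × ℕ × ℕ => rowN p.1 p.2.1 p.2.2 := by
  unfold rowN
  refine IsPolyTime.pair (IsPolyTime.map_const _ fun c => ?_) (by fun_prop)
  unfold edgeN mgN
  split_ifs <;> fun_prop

open Pool.Agent.Shared.PolyTime N68a2faeb in
theorem lv_q : IsPolyTime fun w : List Bool => qV w.length := by
  unfold qV
  fun_prop

open Pool.Agent.Shared.PolyTime N68a2faeb in
theorem hardV_mem_P : hardV ∈ N68a2faeb.P := by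
  have hq := lv_q
  have h0 : IsPolyTime fun w : List Bool =>
      rowsG (2 * (4 * qV w.length ^ 2) ^ 8) (qV w.length) w := by
    unfold rowsG
    refine IsPolyTime.map
      (f := fun (w : List Bool) i => rowN (2 * (4 * qV w.length ^ 2) ^ 8) (qV w.length) i) ?_ ?_
    · have h1 : IsPolyTime fun p : List Bool × ℕ => qV p.1.length :=
        hq.comp (g := fun p : List Bool × ℕ => p.1) (by fun_prop)
      exact lv_row.comp (g := fun p : List Bool × ℕ =>
        (2 * (4 * qV p.1.length ^ 2) ^ 8, qV p.1.length, p.2)) (by fun_prop)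
    · have h1 : IsPolyTime fun p : List Bool × ℕ => qV p.1.length :=
        hq.comp (g := fun p : List Bool × ℕ => p.1) (by fun_prop)
      fun_prop
  have h := xorSat_poly.comp h0
  have h2 : IsPolyTime fun w : List Bool => !(open Classical in
      decide (XorSat (rowsG (2 * (4 * qV w.length ^ 2) ^ 8) (qV w.length) w))) := by fun_prop
  exact h2.of_eq fun w => by simp [hardV]

theorem lv_mem {M N q : ℕ} (w : Fin N → Bool) (r : List ℕ × Bool) :
    r ∈ rowsG M q (List.ofFn w) ↔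
      ∃ i : Fin N, w i = true ∧ (i : ℕ) < q ^ 2 * M ^ 8 ∧ rowN M q i = r := by
  unfold rowsG
  rw [List.length_ofFn, List.mem_map]
  have key : ∀ i : Fin N, (List.ofFn w).getD i false = w i := by
    intro i
    rw [List.getD_eq_getElem _ _ (by rw [List.length_ofFn]; exact i.2), List.getElem_ofFn]
  constructor
  · rintro ⟨i, hi, rfl⟩
    rw [List.mem_filter, List.mem_range, Bool.and_eq_true, decide_eq_true_iff] at hi
    exact ⟨⟨i, hi.1⟩, (key ⟨i, hi.1⟩).symm.trans hi.2.1, hi.2.2, rfl⟩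
  · rintro ⟨i, h1, h2, rfl⟩
    refine ⟨i, ?_, rfl⟩
    rw [List.mem_filter, List.mem_range, Bool.and_eq_true, decide_eq_true_iff, key]
    exact ⟨i.2, h1, h2⟩

theorem hardV_mono (N : ℕ) (x y : Fin N → Bool) (h : ∀ i, x i = true → y i = true)
    (hx : hardV (List.ofFn x) = true) : hardV (List.ofFn y) = true := by
  simp only [hardV, decide_eq_true_eq, List.length_ofFn] at hx ⊢
  rintro ⟨z, hz⟩
  refine hx ⟨z, fun r hr => hz r ?_⟩
  obtain ⟨i, h1, h2⟩ := (lv_mem _ _).1 hr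
  exact (lv_mem _ _).2 ⟨i, h i h1, h2⟩

theorem lv_spec {X : Type} {M : ℕ} (hM : 0 < M) (pt : X ≃ Fin M) (N q n : ℕ) [NeZero q]
    (hq : q ^ 2 * M ^ 8 ≤ N) (e : (ZMod q × ZMod q) × Fin 4 ≃ Fin n) :
    ∃ (U : (Fin n → X) → Fin N → Bool) (W : (Fin n → X → Bool) → Fin N → Bool),
      (∀ x, ¬ XorSat (rowsG M q (List.ofFn (U x)))) ∧
      (∀ y, XorSat (rowsG M q (List.ofFn (W y)))) ∧
      ∀ i, ∃ u, ∀ x, U x i = true → ∀ y, (W y i = false ↔ Viol (tsS e) tsB u (gad x y)) := by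
  classical
  have hq0 : 0 < q := Nat.pos_of_ne_zero (NeZero.ne q)
  refine ⟨fun x i => decide ((i : ℕ) < q ^ 2 * M ^ 8 ∧
      ∀ c : Fin 8, pt (x (tsS e (langVtx M q i) c)) = langDig hM i c),
    fun y i => decide ((i : ℕ) < q ^ 2 * M ^ 8 ∧
      (Odd (univ.filter fun c : Fin 8 =>
        y (tsS e (langVtx M q i) c) (pt.symm (langDig hM i c)) = true).card ↔
        tsB (langVtx M q i) = true)), ?_, ?_, ?_⟩
  · intro x
    rintro ⟨y, hy⟩
    obtain ⟨u, hu⟩ := ts_unsat e fun j => y (langNum (e.symm j) * M + pt (x j))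
    obtain ⟨d, hd⟩ : ∃ d : Fin (M ^ 8), ∀ c : Fin 8,
        (d : ℕ) / M ^ (c : ℕ) % M = pt (x (tsS e u c)) :=
      ⟨finFunctionFinEquiv fun c => pt (x (tsS e u c)), fun c => by
        rw [← finFunctionFinEquiv_symm_apply_val, Equiv.symm_apply_apply]⟩
    obtain ⟨i, hi⟩ : ∃ i, i = (u.1.val * q + u.2.val) * M ^ 8 + d := ⟨_, rfl⟩
    have hP : 0 < M ^ 8 := by positivity
    have i1 : i / M ^ 8 = u.1.val * q + u.2.val := by
      rw [hi, add_comm, Nat.add_mul_div_right _ _ hP, Nat.div_eq_of_lt d.2, zero_add]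
    have i2 : i % M ^ 8 = d := by rw [hi, Nat.mul_add_mod_of_lt d.2]
    have i3 : i < q ^ 2 * M ^ 8 := by
      rw [← Nat.div_lt_iff_lt_mul hP, i1]
      have a1 := ZMod.val_lt u.1
      have a2 := ZMod.val_lt u.2
      nlinarith
    have i4 : i < N := i3.trans_le hq
    have i5 : langVtx M q i = u := by
      unfold langVtx
      rw [i1, Nat.mul_add_mod_of_lt (ZMod.val_lt u.2), add_comm, Nat.add_mul_div_right _ _ hq0,
        Nat.div_eq_of_lt (ZMod.val_lt u.2), zero_add, ZMod.natCast_zmod_val,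
        ZMod.natCast_zmod_val]
    have i6 : ∀ c : Fin 8, pt (x (tsS e u c)) = langDig hM i c := fun c => Fin.ext (by
      show _ = i % M ^ 8 / M ^ (c : ℕ) % M
      rw [i2, hd])
    have := hy (rowN M q i) ((lv_mem _ _).2 ⟨⟨i, i4⟩, by
      rw [decide_eq_true_iff]
      exact ⟨i3, fun c => by rw [← i6, show langVtx M q ((⟨i, i4⟩ : Fin N) : ℕ) = u from i5]⟩,
      i3, rfl⟩)
    rw [lang_row hM e i3, i5] at this
    simp only [← i6] at this
    exact hu this
  · intro y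
    have hinj : Function.Injective fun p : Fin n × X => langNum (e.symm p.1) * M + pt p.2 := by
      rintro ⟨j, a⟩ ⟨j', a'⟩ h
      obtain ⟨h1, h2⟩ := lang_pair (pt a).2 (pt a').2 h
      exact Prod.ext (e.symm.injective (lang_num_inj h1)) (pt.injective (Fin.ext h2))
    refine ⟨Function.extend (fun p : Fin n × X => langNum (e.symm p.1) * M + pt p.2)
      (fun p => y p.1 p.2) fun _ => false, fun r hr => ?_⟩
    obtain ⟨i, h1, h2, rfl⟩ := (lv_mem _ _).1 hr
    rw [decide_eq_true_iff] at h1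
    rw [lang_row hM e h2, ← h1.2]
    congr! 3 with c
    have := hinj.extend_apply (fun p => y p.1 p.2) (fun _ => false)
      (tsS e (langVtx M q i) c, pt.symm (langDig hM i c))
    simp only [Equiv.apply_symm_apply] at this
    rw [this]
  · intro i
    refine ⟨langVtx M q i, fun x hx y => ?_⟩
    rw [decide_eq_true_iff] at hx
    rw [decide_eq_false_iff_not]
    unfold Viol gad
    simp only [← hx.2, Equiv.symm_apply_apply, hx.1, true_and]

theorem viol_null {n D : ℕ} {Λ : ℝ} {σ : (Fin n → Bool) → ℝ} (hσ : IsPseudo n D Λ σ) (hD : 8 ≤ D)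
    {E : Type} (S : E → Fin 8 → Fin n) (b : E → Bool) (u : E)
    (h0 : 𝔼 z, σ z * ind (Viol S b u z) = 0) {w : Fin n → Bool} (hw : Viol S b u w) :
    pe σ (res (univ.image (S u)) w) = 0 := by
  have hc : ∀ z z' : Fin n → Bool, (∀ e ∈ univ.image (S u), z e = z' e) →
      (Viol S b u z ↔ Viol S b u z') := fun z z' h => by
    unfold Viol
    simp only [fun i => h (S u i) (mem_image_of_mem _ (mem_univ i))]
  refine null_junta hσ (U := univ.image (S u)) (card_image_le.trans (by simpa using hD)) h0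
    (fun z => ?_) (fun z z' h => ind_congr (hc z z' h)) fun z z' h => ind_congr ?_
  · rw [abs_of_nonneg (ind_nonneg _)]
    exact ind_mono fun h => (hc z w ((agr_res _ _ _).1 h)).2 hw
  · rw [agr_res, agr_res]
    exact forall₂_congr fun e he => by rw [h e he]

theorem pow67_le : ∃ n₀ : ℕ, ∀ n ≥ n₀, n ^ 67 ≤ 2 ^ n := by
  have h := (tendsto_pow_const_div_const_pow_of_one_lt 67 (r := 2) one_lt_two).eventually_le_const
    one_pos
  obtain ⟨n₀, h⟩ := eventually_atTop.1 h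
  refine ⟨n₀, fun n hn => ?_⟩
  have := h n hn
  rw [div_le_one (by positivity)] at this
  exact_mod_cast this

theorem lang_spec (n₀ : ℕ) : ∃ N₀ : ℕ, ∀ N ≥ N₀, ∃ n ≥ n₀, N ≤ n ^ 66 ∧ 2 * N ≤ 2 ^ n ∧
    ∃ (_ : NeZero (n ^ 2)) (_ : Nonempty (Fin (2 * (n ^ 2) ^ 3))) (σ : (Fin n → Bool) → ℝ)
      (U : Row n (n ^ 2) (Fin (2 * (n ^ 2) ^ 3)) → Fin N → Bool)
      (W : Col n (n ^ 2) (Fin (2 * (n ^ 2) ^ 3)) → Fin N → Bool),
      IsPseudo n (2 * (n / 256)) (2 ^ n) σ ∧ (∀ α, hardV (List.ofFn (U α)) = true) ∧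
      (∀ y, hardV (List.ofFn (W y)) = false) ∧
      ∀ i, Cvd σ 8 (fun α y => U α i = true ∧ W y i = false) (fun _ => True) fun _ => True := by
  obtain ⟨n₁, hn₁⟩ := pow67_le
  obtain ⟨q₀, h1, h2, h3⟩ : ∃ q₀, n₀ ≤ q₀ ∧ n₁ ≤ q₀ ∧ 2 ^ 136 ≤ q₀ :=
    ⟨n₀ + n₁ + 2 ^ 136, by omega, by omega, by omega⟩
  refine ⟨q₀ ^ 2 * (2 * (4 * q₀ ^ 2) ^ 8) ^ 8, fun N hN => ?_⟩
  have hle : ∀ q : ℕ, q ≤ q ^ 2 * (2 * (4 * q ^ 2) ^ 8) ^ 8 := fun q => by
    rcases q.eq_zero_or_pos with rfl | h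
    · simp
    · exact (Nat.le_self_pow two_ne_zero q).trans (Nat.le_mul_of_pos_right _ (by positivity))
  have hq₀ : q₀ ≤ qV N := Nat.le_findGreatest ((hle q₀).trans hN) hN
  have hq : qV N ^ 2 * (2 * (4 * qV N ^ 2) ^ 8) ^ 8 ≤ N :=
    Nat.findGreatest_spec (P := fun q => q ^ 2 * (2 * (4 * q ^ 2) ^ 8) ^ 8 ≤ N)
      ((hle q₀).trans hN) hN
  have hq' : N < (qV N + 1) ^ 2 * (2 * (4 * (qV N + 1) ^ 2) ^ 8) ^ 8 := by
    by_contra hc
    have := Nat.le_findGreatest (P := fun q => q ^ 2 * (2 * (4 * q ^ 2) ^ 8) ^ 8 ≤ N)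
      ((hle _).trans (not_lt.1 hc)) (not_lt.1 hc)
    exact absurd this (not_le.2 (Nat.lt_succ_self _))
  obtain ⟨q, hqd⟩ : ∃ q, q = qV N := ⟨_, rfl⟩
  rw [← hqd] at hq₀ hq hq'
  have hq1 : 2 ^ 136 ≤ q := h3.trans hq₀
  have hqn : q ≤ 4 * q ^ 2 := by nlinarith
  have : NeZero q := ⟨by omega⟩
  have h66 : N ≤ (4 * q ^ 2) ^ 66 := by
    calc N ≤ (2 * q) ^ 2 * (2 * (4 * (2 * q) ^ 2) ^ 8) ^ 8 := by
          refine hq'.le.trans ?_
          have : q + 1 ≤ 2 * q := by omega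
          gcongr
      _ = 2 ^ 136 * (4 * q ^ 2) ^ 65 := by ring
      _ ≤ 4 * q ^ 2 * (4 * q ^ 2) ^ 65 := Nat.mul_le_mul_right _ (hq1.trans hqn)
      _ = _ := (pow_succ' _ _).symm
  have e : (ZMod q × ZMod q) × Fin 4 ≃ Fin (4 * q ^ 2) :=
    Fintype.equivFinOfCardEq (by simp [ZMod.card]; ring)
  obtain ⟨n, hn⟩ : ∃ n, n = 4 * q ^ 2 := ⟨_, rfl⟩
  rw [← hn] at hq h66 e hqn
  have hn0 : 0 < n := by omega
  obtain ⟨σ, hσ, hv⟩ := ts_pseudo (by omega) e
  obtain ⟨U, W, hU, hW, hl⟩ := lv_spec (M := 2 * n ^ 8) (Nat.mul_pos two_pos (Nat.pow_pos hn0))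
    (Fintype.equivFinOfCardEq (card_X n)) N q n hq e
  have h67 : 2 * N ≤ 2 ^ n :=
    ((Nat.mul_le_mul (show 2 ≤ n by omega) h66).trans_eq (pow_succ' n 66).symm).trans
      (hn₁ n (by omega))
  refine ⟨n, by omega, h66, h67, ⟨(Nat.pow_pos hn0).ne'⟩,
    ⟨⟨0, Nat.mul_pos two_pos (Nat.pow_pos (Nat.pow_pos hn0))⟩⟩, σ,
    U, fun y => W fun e x => y (gp e x.1) x.2, hσ, fun α => ?_, fun y => ?_, fun i => ?_⟩
  · simp only [hardV, List.length_ofFn, ← hqd, ← hn, decide_eq_true_eq]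
    exact hU α
  · simp only [hardV, List.length_ofFn, ← hqd, ← hn, decide_eq_false_iff_not, not_not]
    exact hW _
  · obtain ⟨u, hu⟩ := hl i
    exact ⟨fun _ => univ.image (tsS e u), fun _ => card_image_le.trans (by simp),
      fun α y _ _ h => viol_null hσ (by omega) _ _ u (hv u) ((hu α h.1 _).1 h.2)⟩

end Pool.Agent.Lib.MP_8a52c3_lc.LS
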