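import Pool.Agent.Lib.MP_8a52c3_lc.LS.MlpRun
import Pool.Agent.Lib.MP_8a52c3_lc.LS.MlpLang

/-! The lower bounds for monotone linear programs. -/

open Finset
open scoped BigOperators

namespace Pool.Agent.Lib.MP_8a52c3_lc.LS

open Pool.Agent.Lib.MP_8a52c3_lc.Mono

theorem mlp_env : ∃ N₀ : ℕ, ∀ N ≥ N₀, ∃ (n r : ℕ) (Q : Type) (_ : Fintype Q) (_ : DecidableEq Q)
    (_ : Nonempty Q) (_ : NeZero r) (D k : ℕ) (Λ κ ν : ℝ) (σ : (Fin n → Bool) → ℝ)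
    (U : Row n r Q → Fin N → Bool) (W : Col n r Q → Fin N → Bool), MEnv D k Λ κ ν σ U W ∧
      N ≤ 2 ^ n ∧ (∀ α, hardV (List.ofFn (U α)) = true) ∧ (∀ y, hardV (List.ofFn (W y)) = false) ∧
      ∀ s : ℕ, ¬ s ≤ 2 ^ n → (2 : ℝ) ^ ((N : ℝ) ^ (1 / 66 : ℝ)) ≤ s := by
  obtain ⟨n₀, h0⟩ := master
  obtain ⟨N₀, h1⟩ := lang_spec (max n₀ 2)
  refine ⟨N₀, fun N hN => ?_⟩
  obtain ⟨n, hn, h2, h3, _, _, σ, U, W, hσ, hU, hW, hl⟩ := h1 N hN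
  obtain ⟨κ, ν, k, e1, e2, e3, e4, e5, e6⟩ := h0 n (le_of_max_le_left hn) σ hσ
  refine ⟨n, _, _, inferInstance, inferInstance, inferInstance, inferInstance, _, k, _, κ, ν, σ,
    U, W, ⟨hσ, le_of_max_le_right hn, e1, e2, e3, e4, e5, e6, hl⟩, by omega, hU, hW,
    fun s hs => ?_⟩
  have h4 : (N : ℝ) ^ (1 / 66 : ℝ) ≤ n := by
    have h5 : (N : ℝ) ≤ (n : ℝ) ^ 66 := by exact_mod_cast h2
    refine (Real.rpow_le_rpow (Nat.cast_nonneg N) h5 (by norm_num)).trans_eq ?_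
    rw [← Real.rpow_natCast, ← Real.rpow_mul (Nat.cast_nonneg n)]
    norm_num
  refine (Real.rpow_le_rpow_of_exponent_le one_le_two h4).trans ?_
  rw [Real.rpow_natCast]
  exact_mod_cast (not_le.1 hs).le

theorem bi_aff {d v : ℕ} {E : Type} [AddCommGroup E] [Module ℝ E] (a : E) (b : Fin d → E)
    (c : Fin v → E) (e : Fin d → Fin v → E) :
    ∃ F : (Fin d → ℝ) →ᵃ[ℝ] (Fin v → ℝ) →ᵃ[ℝ] E, ∀ w p, F w p =
      a + ∑ j, w j • b j + ∑ u, p u • c u + ∑ j, ∑ u, w j • p u • e j u := by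
  let M : Fin d → (Fin v → ℝ) →ᵃ[ℝ] E := fun j =>
    AffineMap.const ℝ _ (b j) + (Fintype.linearCombination ℝ (e j)).toAffineMap
  refine ⟨AffineMap.const ℝ _ (AffineMap.const ℝ _ a +
    (Fintype.linearCombination ℝ c).toAffineMap) + (Fintype.linearCombination ℝ M).toAffineMap,
    fun w p => ?_⟩
  have h := map_sum (evp p) (fun j => w j • M j) univ
  simp only [map_smul] at h
  refine (congrArg (a + ∑ u, p u • c u + ·) h).trans ?_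
  have h2 : ∀ j, evp p (M j) = b j + ∑ u, p u • e j u := fun j => rfl
  simp only [h2, smul_add, sum_add_distrib, smul_sum]
  abel

/-- Monotone separation complexity. -/
theorem sep_lower : ∃ N₀ : ℕ, ∀ N ≥ N₀, ∀ (V : Type) [AddCommGroup V] [Module ℝ V] (s : ℕ)
    (f : Fin s → V →ᵃ[ℝ] ℝ) (π : V →ᵃ[ℝ] (Fin N → ℝ)),
    (∀ x : Fin N → Bool, hardV (List.ofFn x) = true ↔
      ∃ w, (∀ t, 0 ≤ f t w) ∧ ∀ i, π w i ≤ if x i then 1 else 0) →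
    (2 : ℝ) ^ ((N : ℝ) ^ (1 / 66 : ℝ)) ≤ s := by
  obtain ⟨N₀, h⟩ := mlp_env
  refine ⟨N₀, fun N hN V _ _ s f π hx => ?_⟩
  obtain ⟨n, r, Q, _, _, _, _, D, k, Λ, κ, ν, σ, U, W, h1, h2, h3, h4, h5⟩ := h N hN
  exact h5 s (h1.sep h2 f π (fun α => (hx _).1 (h3 α)) fun y hy => by
    simpa [h4 y] using (hx _).2 hy)

/-- Nonnegative rank of the shifted monotone distance matrix. -/
theorem rank_lower : ∃ N₀ : ℕ, ∀ N ≥ N₀, ∀ δ : ℝ, 0 < δ → ∀ (s : ℕ)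
    (a b : Fin s → (Fin N → Bool) → ℝ), (∀ t x, 0 ≤ a t x) → (∀ t x, 0 ≤ b t x) →
    (∀ x y : Fin N → Bool, hardV (List.ofFn x) = true → hardV (List.ofFn y) = false →
      ((univ.filter fun i => x i = true ∧ y i = false).card : ℝ) - δ = ∑ t, a t x * b t y) →
    (2 : ℝ) ^ ((N : ℝ) ^ (1 / 66 : ℝ)) ≤ s := by
  obtain ⟨N₀, h⟩ := mlp_env
  refine ⟨N₀, fun N hN δ hδ s a b ha hb he => ?_⟩
  obtain ⟨n, r, Q, _, _, _, _, D, k, Λ, κ, ν, σ, U, W, h1, h2, h3, h4, h5⟩ := h N hN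
  exact h5 s (h1.rank h2 hδ ha hb fun α y => he _ _ (h3 α) (h4 y))

end Pool.Agent.Lib.MP_8a52c3_lc.LS
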