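import Pool.Agent.Lib.MP_8a52c3_lc.LS.MlpDec
import Pool.Agent.Lib.MP_8a52c3_lc.LS.MlpLP

/-! Lower bounds for monotone linear programs from the forbidden decomposition. -/

open Finset
open scoped BigOperators

namespace Pool.Agent.Lib.MP_8a52c3_lc.LS

open Pool.Agent.Lib.MP_8a52c3_lc.Mono

/-- The data of the lower bound. -/
structure MEnv {n r N : ℕ} {Q : Type} [Fintype Q] [DecidableEq Q] (D k : ℕ) (Λ κ ν : ℝ)
    (σ : (Fin n → Bool) → ℝ) (U : Row n r Q → Fin N → Bool) (W : Col n r Q → Fin N → Bool) :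
    Prop where
  ps : IsPseudo n D Λ σ
  n2 : 2 ≤ n
  k0 : 0 ≤ κ
  k8 : 8 ≤ k
  kD : 2 * k ≤ D
  cov : CovOK r Q σ κ k ν
  nu : ν + 2 * Λ * κ * 2 ^ n ≤ 1
  key : ∀ (A : Row n r Q → Prop) (B : Col n r Q → Prop) (G : ℝ),
    Dec σ (2 ^ (4 * n) * RR n r Q D (2 * k)) (2 ^ (4 * n) * MM n r Q (2 * k)) G 0 A B
      (fun _ _ => -1) → ν ≤ vl σ (rect A B) → False
  leaf : ∀ i, Cvd σ 8 (fun α y => U α i = true ∧ W y i = false) (fun _ => True) fun _ => True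

variable {n r N D k : ℕ} {Q : Type} [Fintype Q] [DecidableEq Q] [Nonempty Q] [NeZero r]
  {Λ κ ν : ℝ} {σ : (Fin n → Bool) → ℝ} {U : Row n r Q → Fin N → Bool}
  {W : Col n r Q → Fin N → Bool} {A : Row n r Q → Prop} {B : Col n r Q → Prop}

omit [DecidableEq Q] in
theorem budget (hn : 2 ≤ n) {a t : ℕ} (ha : a ≤ 2 ^ n * 2 ^ n) (ht : t ≤ 2 ^ n + 2 ^ n)
    (h : DecR σ (a * (4 * RR n r Q D k)) (a * (MM n r Q k * 4) + (2 + t)) A B fun _ _ => -1) :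
    DecR σ (2 ^ (4 * n) * RR n r Q D k) (2 ^ (4 * n) * MM n r Q k) A B fun _ _ => -1 := by
  have h1 : 4 ≤ 2 ^ n := Nat.pow_le_pow_right (n := 2) (by norm_num) hn
  have h2 : 1 ≤ MM n r Q k := by
    have : 0 < Fintype.card (Fin r × Q) := Fintype.card_pos
    exact Nat.pos_of_ne_zero (by unfold MM; positivity)
  have h3 : 2 ^ (4 * n) = 2 ^ n * 2 ^ n * (2 ^ n * 2 ^ n) := by ring
  rw [h3]
  generalize 2 ^ n = X at h1 ha ht
  have h4 : 16 ≤ X * X := Nat.mul_le_mul h1 h1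
  have h5 : t ≤ X * X := by nlinarith
  generalize X * X = Y at h4 h5 ha
  refine h.mono ?_ ?_
  · rw [← mul_assoc]
    exact Nat.mul_le_mul_right _ (Nat.mul_le_mul ha (by omega))
  · generalize MM n r Q k = M at h2
    calc _ ≤ Y * (M * 4) + Y * (M * 12) :=
          Nat.add_le_add (Nat.mul_le_mul_right _ ha) (by nlinarith)
      _ = Y * 16 * M := by ring
      _ ≤ _ := by gcongr

omit [DecidableEq Q] [Nonempty Q] [NeZero r] in
theorem budget0 (h : DecR σ (RR n r Q D k) 0 A B fun _ _ => -1) :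
    DecR σ (2 ^ (4 * n) * RR n r Q D k) (2 ^ (4 * n) * MM n r Q k) A B fun _ _ => -1 :=
  h.mono (Nat.le_mul_of_pos_left _ (by positivity)) (Nat.zero_le _)

omit [Nonempty Q] [NeZero r] in
theorem MEnv.bit (h : MEnv D k Λ κ ν σ U W) (i : Fin N) :
    Cvd σ k (fun α y => (if W y i then (1 : ℝ) else 0) < if U α i then 1 else 0) A B :=
  ((h.leaf i).wide h.k8).mono fun α y _ _ c => ⟨trivial, trivial, by
    revert c
    cases U α i <;> cases W y i <;> simp⟩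

theorem gate_max (h : MEnv D k Λ κ ν σ U W) {v s : ℕ} (hv : v ≤ 2 ^ n) (hs : 1 + s ≤ 2 ^ n)
    {V : Type} [AddCommGroup V] [Module ℝ V] {F : V →ᵃ[ℝ] (Fin v → ℝ) →ᵃ[ℝ] (Fin s → ℝ)}
    {c : V →ᵃ[ℝ] (Fin v → ℝ) →ᵃ[ℝ] ℝ} (hF : ∀ w p, 0 ≤ F w p → Monotone (F w) ∧ Monotone (c w))
    {p : (Fin N → Bool) → Fin v → ℝ} {g : (Fin N → Bool) → ℝ}
    (hg : ∀ x, IsGreatest {t | ∃ w, 0 ≤ F w (p x) ∧ t = c w (p x)} (g x))
    (hT : ∀ α y, A α → B y → g (W y) < g (U α))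
    (hcv : ∀ u, Cvd σ k (fun α y => p (W y) u < p (U α) u) A B) :
    DecR σ (2 ^ (4 * n) * RR n r Q D (2 * k)) (2 ^ (4 * n) * MM n r Q (2 * k)) A B
      fun _ _ => -1 := by
  choose w w0 w1 using fun x => (hg x).1
  choose μ ν' m0 m1 m2 using fun x => dual_max F c (p x) (hg x)
  have h1 : ∀ u : Fin v, (0 : Fin v → ℝ) ≤ Pi.single u 1 := fun u =>
    Pi.single_nonneg.2 zero_le_one
  refine budget h.n2 ?_ ?_ (dec_gate h.ps h.kD (ι := Fin v × Option (Fin s)) (τ := Fin s)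
    (c := fun x α => x.2.elim (c (w (U α)) (Pi.single x.1 1) - c (w (U α)) 0) fun t =>
      F (w (U α)) (Pi.single x.1 1) t - F (w (U α)) 0 t) (d := fun x y => x.2.elim 1 (μ (W y)))
    (e := fun α => g (U α)) (f := fun y => g (W y) - ν' (W y)) ?_ ?_ (fun x => hcv x.1)
    (fun t α => w0 (U α) t) (fun t y => m0 (W y) t)
    (fun α y a a' => by linarith [hT α y a a', m1 (W y)]) fun α y _ _ => ?_)
  · rw [Fintype.card_prod, Fintype.card_option, Fintype.card_fin, Fintype.card_fin]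
    exact Nat.mul_le_mul hv (by omega)
  · rw [Fintype.card_fin]
    omega
  · rintro ⟨u, _ | t⟩ α
    · exact sub_nonneg.2 ((hF _ _ (w0 (U α))).2 (h1 u))
    · exact sub_nonneg.2 ((hF _ _ (w0 (U α))).1 (h1 u) t)
  · rintro ⟨u, _ | t⟩ y
    · exact zero_le_one
    · exact m0 _ t
  · rw [lp_id]
    have e1 := m2 (W y) (w (U α))
    simp only [mul_comm (μ (W y) _)] at e1
    linarith [w1 (U α)]

theorem gate_min (h : MEnv D k Λ κ ν σ U W) {v s : ℕ} (hv : v ≤ 2 ^ n) (hs : 1 + s ≤ 2 ^ n)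
    {V : Type} [AddCommGroup V] [Module ℝ V] {F : V →ᵃ[ℝ] (Fin v → ℝ) →ᵃ[ℝ] (Fin s → ℝ)}
    {c : V →ᵃ[ℝ] (Fin v → ℝ) →ᵃ[ℝ] ℝ} (hF : ∀ w p, 0 ≤ F w p → Antitone (F w) ∧ Monotone (c w))
    {p : (Fin N → Bool) → Fin v → ℝ} {g : (Fin N → Bool) → ℝ}
    (hg : ∀ x, IsLeast {t | ∃ w, 0 ≤ F w (p x) ∧ t = c w (p x)} (g x))
    (hT : ∀ α y, A α → B y → g (W y) < g (U α))
    (hcv : ∀ u, Cvd σ k (fun α y => p (W y) u < p (U α) u) A B) :
    DecR σ (2 ^ (4 * n) * RR n r Q D (2 * k)) (2 ^ (4 * n) * MM n r Q (2 * k)) A B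
      fun _ _ => -1 := by
  choose w w0 w1 using fun x => (hg x).1
  choose μ ν' m0 m1 m2 using fun x => dual_min F c (p x) (hg x)
  have h1 : ∀ u : Fin v, (0 : Fin v → ℝ) ≤ Pi.single u 1 := fun u =>
    Pi.single_nonneg.2 zero_le_one
  refine budget h.n2 ?_ ?_ (dec_gate h.ps h.kD (ι := Fin v × Option (Fin s)) (τ := Fin s)
    (d := fun x y => x.2.elim (c (w (W y)) (Pi.single x.1 1) - c (w (W y)) 0) fun t =>
      (-F (w (W y))) (Pi.single x.1 1) t - (-F (w (W y))) 0 t)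
    (c := fun x α => x.2.elim 1 (μ (U α)))
    (e := fun α => g (U α) + ν' (U α)) (f := fun y => g (W y)) ?_ ?_ (fun x => hcv x.1)
    (fun t α => m0 (U α) t) (fun t y => w0 (W y) t)
    (fun α y a a' => by linarith [hT α y a a', m1 (U α)]) fun α y _ _ => ?_)
  · rw [Fintype.card_prod, Fintype.card_option, Fintype.card_fin, Fintype.card_fin]
    exact Nat.mul_le_mul hv (by omega)
  · rw [Fintype.card_fin]
    omega
  · rintro ⟨u, _ | t⟩ α
    · exact zero_le_one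
    · exact m0 _ t
  · rintro ⟨u, _ | t⟩ y
    · exact sub_nonneg.2 ((hF _ _ (w0 (W y))).2 (h1 u))
    · exact sub_nonneg.2 (neg_le_neg ((hF _ _ (w0 (W y))).1 (h1 u) t))
  · have e0 := lp_id (-F (w (W y))) (c (w (W y))) (p (U α)) (p (W y)) (μ (U α))
    have e1 := m2 (U α) (w (W y))
    simp only [mul_comm _ (Option.elim _ 1 (μ (U α)))] at e0
    rw [e0]
    simp only [AffineMap.coe_neg, Pi.neg_apply, mul_comm _ (μ (U α) _), mul_neg, sum_neg_distrib]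
    linarith [w1 (W y)]

theorem gate_feas (h : MEnv D k Λ κ ν σ U W) {v s : ℕ} (hv : v ≤ 2 ^ n) (hs : 1 + s ≤ 2 ^ n)
    {V : Type} [AddCommGroup V] [Module ℝ V] {F : V →ᵃ[ℝ] (Fin v → ℝ) →ᵃ[ℝ] (Fin s → ℝ)}
    (hF : ∀ w p, 0 ≤ F w p → Monotone (F w)) {p : (Fin N → Bool) → Fin v → ℝ}
    {g : (Fin N → Bool) → ℝ}
    (hg : ∀ x, (g x = 1 ∧ ∃ w, 0 ≤ F w (p x)) ∨ (g x = 0 ∧ ¬ ∃ w, 0 ≤ F w (p x)))
    (hT : ∀ α y, A α → B y → g (W y) < g (U α))
    (hcv : ∀ u, Cvd σ k (fun α y => p (W y) u < p (U α) u) A B) :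
    DecR σ (2 ^ (4 * n) * RR n r Q D (2 * k)) (2 ^ (4 * n) * MM n r Q (2 * k)) A B
      fun _ _ => -1 := by
  by_cases hne : ∃ α y, A α ∧ B y
  swap
  · exact budget0 (dec_null h.ps ⟨fun _ => ∅, by simp, fun α y a b _ => absurd ⟨α, y, a, b⟩ hne⟩)
  have h2 : ∀ α y, A α → B y → g (U α) = 1 ∧ g (W y) = 0 := fun α y a b => by
    have := hT α y a b
    rcases hg (U α) with e | e <;> rcases hg (W y) with e' | e' <;>
      exact ⟨by linarith [e.1, e'.1], by linarith [e.1, e'.1]⟩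
  obtain ⟨α₀, y₀, a₀, b₀⟩ := hne
  obtain ⟨w₀, hw₀⟩ := ((hg (U α₀)).resolve_right fun e => by linarith [e.1, (h2 _ _ a₀ b₀).1]).2
  have h3 : ∀ x, ∃ w, (∃ q, 0 ≤ F w q) ∧ (g x = 1 → 0 ≤ F w (p x)) := fun x => by
    rcases hg x with ⟨-, w, e⟩ | ⟨e, -⟩
    · exact ⟨w, ⟨_, e⟩, fun _ => e⟩
    · exact ⟨w₀, ⟨_, hw₀⟩, fun e' => by linarith⟩
  have h4 : ∀ x, ∃ μ : Fin s → ℝ, (∀ t, 0 ≤ μ t) ∧
      (g x = 0 → ∀ w, ∑ t, μ t * F w (p x) t = -1) := fun x => by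
    rcases hg x with ⟨e, -⟩ | ⟨-, e⟩
    · exact ⟨0, fun _ => le_rfl, fun e' => by linarith⟩
    · obtain ⟨μ, e1, e2⟩ := dual_empty F (p x) e
      exact ⟨μ, e1, fun _ => e2⟩
  choose w w0 w1 using h3
  choose μ m0 m1 using h4
  have h1 : ∀ u : Fin v, (0 : Fin v → ℝ) ≤ Pi.single u 1 := fun u =>
    Pi.single_nonneg.2 zero_le_one
  refine budget h.n2 ?_ ?_ (dec_gate h.ps h.kD (ι := Fin v × Option (Fin s)) (τ := Fin s)
    (c := fun x α => x.2.elim ((0 : (Fin v → ℝ) →ᵃ[ℝ] ℝ) (Pi.single x.1 1) -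
      (0 : (Fin v → ℝ) →ᵃ[ℝ] ℝ) 0) fun t => F (w (U α)) (Pi.single x.1 1) t - F (w (U α)) 0 t)
    (d := fun x y => x.2.elim 1 (μ (W y))) (e := fun _ => 1) (f := fun _ => 0)
    (a := fun t α => max 0 (F (w (U α)) (p (U α)) t)) ?_ ?_ (fun x => hcv x.1)
    (fun t α => le_max_left _ _) (fun t y => m0 (W y) t) (fun _ _ _ _ => one_pos)
    fun α y a b => ?_)
  · rw [Fintype.card_prod, Fintype.card_option, Fintype.card_fin, Fintype.card_fin]
    exact Nat.mul_le_mul hv (by omega)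
  · rw [Fintype.card_fin]
    omega
  · rintro ⟨u, _ | t⟩ α
    · exact (sub_self _).ge
    · exact (w0 (U α)).elim fun q hq => sub_nonneg.2 (hF _ _ hq (h1 u) t)
  · rintro ⟨u, _ | t⟩ y
    · exact zero_le_one
    · exact m0 _ t
  · rw [lp_id]
    have e1 := m1 (W y) (h2 α y a b).2 (w (U α))
    simp only [mul_comm (μ (W y) _)] at e1
    have e2 : ∀ t, max 0 (F (w (U α)) (p (U α)) t) = F (w (U α)) (p (U α)) t := fun t =>
      max_eq_right (w1 (U α) (h2 α y a b).1 t)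
    simp only [e2, AffineMap.coe_zero, Pi.zero_apply]
    linarith

theorem MEnv.circ (h : MEnv D k Λ κ ν σ U W) {S : ℕ} {g : ℕ → (Fin N → Bool) → ℝ} {s : ℕ → ℕ}
    (hg : ∀ v < S, (∃ a, ∀ x, g v x = a) ∨ (∃ i, ∀ x, g v x = if x i then 1 else 0) ∨
      (∃ u < v, ∃ w < v, ∃ φ : ℝ → ℝ → ℝ, (∀ a a' b b', a ≤ a' → b ≤ b' → φ a b ≤ φ a' b') ∧
        ∀ x, g v x = φ (g u x) (g w x)) ∨
      ∃ (d : ℕ) (F : (Fin d → ℝ) →ᵃ[ℝ] (Fin v → ℝ) →ᵃ[ℝ] (Fin (s v) → ℝ))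
        (c : (Fin d → ℝ) →ᵃ[ℝ] (Fin v → ℝ) →ᵃ[ℝ] ℝ),
        ((∀ w p, 0 ≤ F w p → Monotone (F w) ∧ Monotone (c w)) ∧ ((∀ x, IsGreatest
          {t | ∃ w, 0 ≤ F w (fun u => g u x) ∧ t = c w fun u => g u x} (g v x)) ∨
          ∀ x, (g v x = 1 ∧ ∃ w, 0 ≤ F w fun u => g u x) ∨
            (g v x = 0 ∧ ¬ ∃ w, 0 ≤ F w fun u => g u x))) ∨
        ((∀ w p, 0 ≤ F w p → Antitone (F w) ∧ Monotone (c w)) ∧ ∀ x, IsLeast
          {t | ∃ w, 0 ≤ F w (fun u => g u x) ∧ t = c w fun u => g u x} (g v x)))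
    {v₀ : ℕ} (h0 : v₀ < S) (hroot : ∀ α y, g v₀ (W y) < g v₀ (U α))
    (hS : ∑ v ∈ range S, (1 + s v) ≤ 2 ^ n) : False := by
  have hΛ : 0 ≤ Λ := (abs_nonneg _).trans (h.ps.bound fun _ => false)
  have h1 : S ≤ 2 ^ n := by
    refine le_trans ?_ hS
    simpa using card_nsmul_le_sum (range S) (fun v => 1 + s v) 1 fun v _ => by omega
  have h2 : (S : ℝ) ≤ 2 ^ n := by exact_mod_cast h1
  refine dag_run h.ps h.k0 h.cov (le_trans (add_le_add le_rfl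
      (mul_le_mul_of_nonneg_left h2 (by have := h.k0; positivity))) h.nu)
    (fun A B hd => hd.dec.elim (h.key A B)) (fun v α => g v (U α)) (fun v y => g v (W y)) h0 hroot
    fun v hv A B hT hcv => ?_
  have h3 : 1 + s v ≤ 2 ^ n :=
    (single_le_sum (f := fun v => 1 + s v) (fun _ _ => Nat.zero_le _) (mem_range.2 hv)).trans hS
  rcases hg v hv with ⟨a, ha⟩ | ⟨i, hi⟩ | ⟨u, hu, w, hw, φ, hφ, e⟩ |
    ⟨d, F, c, ⟨hF, e | e⟩ | ⟨hF, e⟩⟩
  · refine budget0 (dec_null h.ps ⟨fun _ => ∅, by simp, fun α y p q _ => ?_⟩)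
    have := hT α y p q
    rw [ha, ha] at this
    exact absurd this (lt_irrefl a)
  · refine budget0 (dec_null h.ps (((h.bit i).wide (by omega)).mono fun α y p q _ => ⟨p, q, ?_⟩))
    have := hT α y p q
    rwa [hi, hi] at this
  · refine budget0 (dec_null h.ps ((hcv u hu).union h.ps h.kD (hcv w hw) fun α y p q _ => ?_))
    by_contra hcon
    push Not at hcon
    have := hT α y p q
    rw [e, e] at this
    exact absurd (hφ _ _ _ _ hcon.1 hcon.2) (not_le.2 this)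
  · exact gate_max h (by omega) h3 hF e hT fun u => hcv u u.2
  · exact gate_feas h (by omega) h3 (fun w p hw => (hF w p hw).1) e hT fun u => hcv u u.2
  · exact gate_min h (by omega) h3 hF e hT fun u => hcv u u.2

theorem MEnv.one (h : MEnv D k Λ κ ν σ U W)
    (hd : DecR σ (2 ^ (4 * n) * RR n r Q D (2 * k)) (2 ^ (4 * n) * MM n r Q (2 * k))
      (fun _ : Row n r Q => True) (fun _ => True) fun _ _ => -1) : False := by
  have hΛ : 0 ≤ Λ := (abs_nonneg _).trans (h.ps.bound fun _ => false)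
  have h1 : 0 ≤ 2 * Λ * κ * 2 ^ n := by have := h.k0; positivity
  exact hd.dec.elim fun G hG => h.key _ _ G hG (by rw [vl_univ h.ps]; linarith [h.nu])

theorem MEnv.rank (h : MEnv D k Λ κ ν σ U W) (hN : N ≤ 2 ^ n) {δ : ℝ} (hδ : 0 < δ) {s : ℕ}
    {a b : Fin s → (Fin N → Bool) → ℝ} (ha : ∀ t x, 0 ≤ a t x) (hb : ∀ t x, 0 ≤ b t x)
    (he : ∀ α y, ((univ.filter fun i => U α i = true ∧ W y i = false).card : ℝ) - δ =
      ∑ t, a t (U α) * b t (W y)) (hs : s ≤ 2 ^ n) : False := by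
  refine h.one (budget h.n2 ?_ ?_ (dec_gate h.ps h.kD (ι := Fin N) (τ := Fin s)
    (c := fun i α => if U α i then 1 else 0) (d := fun _ _ => 1) (e := fun _ => δ)
    (f := fun _ => 0) (fun i α => by positivity) (fun _ _ => zero_le_one) (fun i => h.bit i)
    (fun t α => ha t (U α)) (fun t y => hb t (W y)) (fun _ _ _ _ => hδ) fun α y _ _ => ?_))
  · rw [Fintype.card_fin]
    exact hN.trans (Nat.le_mul_self _)
  · rw [Fintype.card_fin]
    omega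
  · rw [← he α y, card_filter]
    push_cast
    rw [sub_zero, add_sub_cancel]
    refine sum_congr rfl fun i _ => ?_
    cases U α i <;> cases W y i <;> simp

theorem MEnv.sep (h : MEnv D k Λ κ ν σ U W) (hN : N ≤ 2 ^ n) {V : Type} [AddCommGroup V]
    [Module ℝ V] {s : ℕ} (f : Fin s → V →ᵃ[ℝ] ℝ) (π : V →ᵃ[ℝ] (Fin N → ℝ))
    (h1 : ∀ α, ∃ w, (∀ t, 0 ≤ f t w) ∧ ∀ i, π w i ≤ if U α i then 1 else 0)
    (h0 : ∀ y, ¬ ∃ w, (∀ t, 0 ≤ f t w) ∧ ∀ i, π w i ≤ if W y i then 1 else 0)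
    (hs : s ≤ 2 ^ n) : False := by
  choose w w0 w1 using h1
  have h2 : ∀ y, ∃ μ : Fin s ⊕ Fin N → ℝ, (∀ t, 0 ≤ μ t) ∧ ∀ x, ∑ t, μ (Sum.inl t) * f t x +
      ∑ i, μ (Sum.inr i) * ((if W y i then 1 else 0) - π x i) = -1 := fun y => by
    obtain ⟨μ, e1, e2⟩ := farkas_empty (Sum.elim f fun i => AffineMap.const ℝ V
      (if W y i then (1 : ℝ) else 0) - (LinearMap.proj i).toAffineMap.comp π) fun ⟨x, hx⟩ =>
        h0 y ⟨x, fun t => hx (Sum.inl t), fun i => by simpa using hx (Sum.inr i)⟩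
    exact ⟨μ, e1, fun x => by simpa using e2 x⟩
  choose μ m0 m1 using h2
  refine h.one (budget h.n2 ?_ ?_ (dec_gate h.ps h.kD (ι := Fin N) (τ := Fin s ⊕ Fin N)
    (c := fun _ _ => 1) (d := fun i y => μ y (Sum.inr i)) (e := fun _ => 1) (f := fun _ => 0)
    (a := Sum.elim (fun t α => f t (w α)) fun i α => (if U α i then 1 else 0) - π (w α) i)
    (b := fun t y => μ y t) (fun _ _ => zero_le_one) (fun i y => m0 y _) (fun i => h.bit i) ?_
    (fun t y => m0 y t) (fun _ _ _ _ => one_pos) fun α y _ _ => ?_))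
  · rw [Fintype.card_fin]
    exact hN.trans (Nat.le_mul_self _)
  · rw [Fintype.card_sum, Fintype.card_fin, Fintype.card_fin]
    omega
  · rintro (t | i) α
    · exact w0 α t
    · exact sub_nonneg.2 (w1 α i)
  · have e1 := m1 y (w α)
    have e2 : ∑ i, ((if U α i then (1 : ℝ) else 0) - if W y i then 1 else 0) *
        (1 * μ y (Sum.inr i)) = ∑ i, ((if U α i then 1 else 0) - π (w α) i) * μ y (Sum.inr i) -
          ∑ i, μ y (Sum.inr i) * ((if W y i then 1 else 0) - π (w α) i) := by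
      rw [← sum_sub_distrib]
      exact sum_congr rfl fun i _ => by ring
    have e3 : ∑ t, f t (w α) * μ y (Sum.inl t) = ∑ t, μ y (Sum.inl t) * f t (w α) :=
      sum_congr rfl fun t _ => mul_comm _ _
    simp only [Fintype.sum_sum_type, Sum.elim_inl, Sum.elim_inr]
    linarith

end Pool.Agent.Lib.MP_8a52c3_lc.LS
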