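import Mathlib

/-! The square of a real linear form in Boolean variables has small nonnegative rank. -/

open Finset

namespace Pool.Agent.Lib.MP_8a52c3_lc.LS

variable {X Y : Type}

/-- `F` is a sum of at most `s` nonnegative products. -/
def NR (s : ℕ) (F : X → Y → ℝ) : Prop :=
  ∃ (ι : Type) (_ : Fintype ι) (a : ι → X → ℝ) (b : ι → Y → ℝ), Fintype.card ι ≤ s ∧
    (∀ i x, 0 ≤ a i x) ∧ (∀ i y, 0 ≤ b i y) ∧ ∀ x y, F x y = ∑ i, a i x * b i y

variable {s s' : ℕ} {F F' : X → Y → ℝ}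

theorem NR.zero (h : ∀ x y, F x y = 0) : NR s F :=
  ⟨Empty, inferInstance, Empty.elim, Empty.elim, by simp, fun i => i.elim, fun i => i.elim,
    fun x y => by simp [h]⟩

theorem NR.one {u : X → ℝ} {v : Y → ℝ} (hu : ∀ x, 0 ≤ u x) (hv : ∀ y, 0 ≤ v y) :
    NR 1 fun x y => u x * v y :=
  ⟨Unit, inferInstance, fun _ => u, fun _ => v, by simp, fun _ => hu, fun _ => hv,
    fun _ _ => by simp⟩

theorem NR.add (h : NR s F) (h' : NR s' F') : NR (s + s') fun x y => F x y + F' x y := by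
  obtain ⟨ι, _, a, b, h1, h2, h3, h4⟩ := h
  obtain ⟨ι', _, a', b', h1', h2', h3', h4'⟩ := h'
  exact ⟨ι ⊕ ι', inferInstance, Sum.elim a a', Sum.elim b b', by rw [Fintype.card_sum]; omega,
    fun i => by cases i <;> simp [h2, h2'], fun i => by cases i <;> simp [h3, h3'],
    fun x y => by simp only [Fintype.sum_sum_type, Sum.elim_inl, Sum.elim_inr, h4, h4']⟩

theorem NR.congr (h : NR s F) (hs : s ≤ s') (he : ∀ x y, F' x y = F x y) : NR s' F' := by
  obtain ⟨ι, _, a, b, h1, h2, h3, h4⟩ := h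
  exact ⟨ι, inferInstance, a, b, h1.trans hs, h2, h3, fun x y => (he x y).trans (h4 x y)⟩

theorem NR.smul (h : NR s F) {c : ℝ} (hc : 0 ≤ c) : NR s fun x y => c * F x y := by
  obtain ⟨ι, _, a, b, h1, h2, h3, h4⟩ := h
  exact ⟨ι, inferInstance, fun i x => c * a i x, b, h1, fun i x => mul_nonneg hc (h2 i x), h3,
    fun x y => by simp only [h4, mul_sum, mul_assoc]⟩

/-- Folding of a product of two close differences. -/
theorem nr_fold (t : ℕ) {p : X → ℤ} {q : Y → ℤ} {e : X → ℝ} {f : Y → ℝ}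
    (hp : ∀ x, 0 ≤ p x ∧ p x < 2 ^ t) (hq : ∀ y, 0 ≤ q y ∧ q y < 2 ^ t)
    (he : ∀ x, |e x| ≤ 1 / 2) (hf : ∀ y, |f y| ≤ 1 / 2) :
    NR (4 * t) fun x y => ((p x : ℝ) - q y) * (p x + e x - (q y + f y)) := by
  induction t generalizing p q e f with
  | zero =>
    refine NR.zero fun x y => ?_
    have h1 : p x = 0 := by have := hp x; omega
    have h2 : q y = 0 := by have := hq y; omega
    simp [h1, h2]
  | succ t ih =>
    obtain ⟨c, hc⟩ : ∃ c : ℤ, c = 2 ^ t := ⟨_, rfl⟩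
    have hc2 : (2 : ℤ) ^ (t + 1) = 2 * c := by rw [hc, pow_succ']
    rw [hc2] at hp hq
    set fo : ℤ → ℤ := fun z => if z < c then c - 1 - z else z - c with hfo
    set sg : ℤ → ℝ := fun z => if z < c then -1 else 1 with hsg
    set lo : ℤ → ℝ := fun z => if z < c then 1 else 0 with hlo
    set hi : ℤ → ℝ := fun z => if z < c then 0 else 1 with hhi
    have b1 : ∀ z, 0 ≤ z ∧ z < 2 * c → 0 ≤ fo z ∧ fo z < 2 ^ t := fun z h => by
      rw [← hc]
      simp only [hfo]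
      split_ifs <;> omega
    have b2 : ∀ (z : ℤ) (w : ℝ), |w| ≤ 1 / 2 → |sg z * w| ≤ 1 / 2 := fun z w h => by
      simp only [hsg]
      split_ifs <;> simpa using h
    have b3 : ∀ z, 0 ≤ lo z := fun z => by simp only [hlo]; split_ifs <;> norm_num
    have b4 : ∀ z, 0 ≤ hi z := fun z => by simp only [hhi]; split_ifs <;> norm_num
    have b5 : ∀ z, 0 ≤ z ∧ z < 2 * c → (0 : ℝ) ≤ fo z + 1 / 2 := fun z h => by
      have : (0 : ℝ) ≤ fo z := by exact_mod_cast (b1 z h).1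
      linarith
    have b6 : ∀ (z : ℤ) (w : ℝ), 0 ≤ z ∧ z < 2 * c → |w| ≤ 1 / 2 →
        (0 : ℝ) ≤ fo z + 1 / 2 + sg z * w := fun z w h h' => by
      have : (0 : ℝ) ≤ fo z := by exact_mod_cast (b1 z h).1
      linarith [(abs_le.1 (b2 z w h')).1]
    have h1 := ih (p := fun x => fo (p x)) (q := fun y => fo (q y)) (e := fun x => sg (p x) * e x)
      (f := fun y => sg (q y) * f y) (fun x => b1 _ (hp x)) (fun y => b1 _ (hq y))
      (fun x => b2 _ _ (he x)) fun y => b2 _ _ (hf y)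
    have t1 := fun (u v : ℤ → ℝ) (hu : ∀ z, 0 ≤ u z) (hv : ∀ z, 0 ≤ v z) =>
      (NR.one (u := fun x => 2 * (u (p x) * (fo (p x) + 1 / 2)))
        (v := fun y => v (q y) * (fo (q y) + 1 / 2 + sg (q y) * f y))
        (fun x => mul_nonneg zero_le_two (mul_nonneg (hu _) (b5 _ (hp x))))
        (fun y => mul_nonneg (hv _) (b6 _ _ (hq y) (hf y)))).add
      (NR.one (u := fun x => 2 * (u (p x) * (fo (p x) + 1 / 2 + sg (p x) * e x)))
        (v := fun y => v (q y) * (fo (q y) + 1 / 2))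
        (fun x => mul_nonneg zero_le_two (mul_nonneg (hu _) (b6 _ _ (hp x) (he x))))
        (fun y => mul_nonneg (hv _) (b5 _ (hq y))))
    refine ((h1.add (t1 lo hi b3 b4)).add (t1 hi lo b4 b3)).congr (by omega) fun x y => ?_
    simp only [hfo, hsg, hlo, hhi]
    split_ifs <;> push_cast <;> ring

/-- Simultaneous approximation. -/
theorem dirichlet {ι : Type} [Fintype ι] (c : ι → ℝ) {M : ℕ} (hM : 0 < M) :
    ∃ (q : ℕ) (p : ι → ℤ), 0 < q ∧ q ≤ M ^ Fintype.card ι ∧ ∀ i, |q * c i - p i| < 1 / M := by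
  classical
  have hM' : (0 : ℝ) < M := by exact_mod_cast hM
  have key : ∀ j k : ℕ, j < k → k ≤ M ^ Fintype.card ι →
      (∀ i, ⌊(M : ℝ) * Int.fract (j * c i)⌋ = ⌊(M : ℝ) * Int.fract (k * c i)⌋) →
      ∃ (q : ℕ) (p : ι → ℤ), 0 < q ∧ q ≤ M ^ Fintype.card ι ∧ ∀ i, |q * c i - p i| < 1 / M := by
    intro j k h1 h2 h3
    refine ⟨k - j, fun i => ⌊k * c i⌋ - ⌊j * c i⌋, by omega, by omega, fun i => ?_⟩
    have h4 := Int.abs_sub_lt_one_of_floor_eq_floor (h3 i).symm
    rw [← mul_sub, abs_mul, abs_of_pos hM', ← lt_div_iff₀' hM'] at h4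
    refine lt_of_eq_of_lt (congrArg abs ?_) h4
    rw [Nat.cast_sub h1.le, Int.fract, Int.fract]
    push_cast
    ring
  obtain ⟨j, hj, k, hk, h1, h2⟩ := exists_ne_map_eq_of_card_lt_of_maps_to
    (s := range (M ^ Fintype.card ι + 1)) (t := Fintype.piFinset fun _ : ι => Ico (0 : ℤ) M)
    (f := fun (j : ℕ) i => ⌊(M : ℝ) * Int.fract (j * c i)⌋)
    (by simp [Fintype.card_piFinset]) (fun j _ => by
      refine mem_coe.2 (Fintype.mem_piFinset.2 fun i => mem_Ico.2 ⟨Int.floor_nonneg.2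
        (mul_nonneg hM'.le (Int.fract_nonneg _)), Int.floor_lt.2 ?_⟩)
      push_cast
      exact mul_lt_of_lt_one_right hM' (Int.fract_lt_one _))
  have hj' := mem_range.1 hj
  have hk' := mem_range.1 hk
  rcases lt_or_gt_of_ne h1 with h | h
  · exact key j k h (by omega) fun i => congrFun h2 i
  · exact key k j h (by omega) fun i => (congrFun h2 i).symm

theorem sum_bd {ι : Type} [Fintype ι] {c w : ι → ℝ} {K : ℝ} (hc : ∀ i, |c i| ≤ K)
    (hw : ∀ i, |w i| ≤ 1) : |∑ i, c i * w i| ≤ Fintype.card ι * K := by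
  refine (abs_sum_le_sum_abs _ _).trans ?_
  rw [← card_univ, ← nsmul_eq_mul]
  refine sum_le_card_nsmul _ _ _ fun i _ => ?_
  rw [abs_mul]
  exact (mul_le_of_le_one_right (abs_nonneg _) (hw i)).trans (hc i)

theorem num_bd (m : ℕ) : m * ((4 * m) ^ m + 1) ≤ 2 ^ (m ^ 2 + 3 * m + 1) := by
  have h1 : m ≤ 2 ^ m := Nat.lt_two_pow_self.le
  have h2 : 4 * m ≤ 2 ^ (m + 2) := by rw [pow_add]; omega
  have h3 : (4 * m) ^ m ≤ 2 ^ ((m + 2) * m) := by
    rw [pow_mul]
    exact Nat.pow_le_pow_left h2 m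
  have h4 : 1 ≤ 2 ^ ((m + 2) * m) := Nat.one_le_two_pow
  calc m * ((4 * m) ^ m + 1) ≤ 2 ^ m * (2 ^ ((m + 2) * m) * 2) :=
        Nat.mul_le_mul h1 (by omega)
    _ = 2 ^ (m ^ 2 + 3 * m + 1) := by
        rw [← pow_succ, ← pow_add]
        congr 1
        ring

theorem nr_sq_aux {ι : Type} [Fintype ι] [DecidableEq ι] {u : ι → X → ℤ} {v : ι → Y → ℤ}
    (hu : ∀ i x, |u i x| ≤ 1) (hv : ∀ i y, |v i y| ≤ 1) (k : ℕ) (c : ι → ℝ) (S : Finset ι)
    (hS : ∀ i, i ∉ S → c i = 0) (hk : S.card ≤ k) :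
    NR (k * (4 * (Fintype.card ι ^ 2 + 3 * Fintype.card ι + 3)))
      fun x y => (∑ i, c i * u i x + ∑ i, c i * v i y) ^ 2 := by
  induction k generalizing c S with
  | zero =>
    have h0 : S = ∅ := card_eq_zero.1 (by omega)
    exact NR.zero fun x y => by simp [hS, h0]
  | succ k ih =>
    by_cases hz : ∀ i, c i = 0
    · exact NR.zero fun x y => by simp [hz]
    obtain ⟨i₁, hi₁⟩ := not_forall.1 hz
    obtain ⟨i₀, -, hmax⟩ := exists_max_image univ (fun i => |c i|) ⟨i₁, mem_univ _⟩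
    have hd : 0 < |c i₀| := (abs_pos.2 hi₁).trans_le (hmax i₁ (mem_univ _))
    obtain ⟨m, hm⟩ : ∃ m, m = Fintype.card ι := ⟨_, rfl⟩
    have hm0 : 0 < m := hm ▸ Fintype.card_pos_iff.2 ⟨i₀⟩
    have hm1 : (1 : ℝ) ≤ m := by exact_mod_cast hm0
    obtain ⟨q, p, q0, q1, hp⟩ := dirichlet (fun i => c i / |c i₀|) (M := 4 * m) (by omega)
    rw [← hm] at q1 ⊢
    rw [← hm] at ih
    push_cast at hp
    have q2 : (0 : ℝ) < q := by exact_mod_cast q0
    have hlt : 1 / (4 * (m : ℝ)) ≤ 1 := by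
      rw [div_le_one (by linarith)]
      linarith
    set e : ι → ℝ := fun i => q * (c i / |c i₀|) - p i with he
    have hint : ∀ (i : ι) (z : ℤ), c i / |c i₀| = z → e i = 0 := fun i z h => by
      have h1 := (hp i).trans_le hlt
      simp only [he]
      rw [h] at h1 ⊢
      have h2 : |(q : ℤ) * z - p i| < 1 := by exact_mod_cast h1
      have h3 : (q : ℤ) * z - p i = 0 := Int.abs_lt_one_iff.1 h2
      exact_mod_cast h3
    have hi₀ : i₀ ∈ S := by_contra fun h => hd.ne' (by rw [hS i₀ h, abs_zero])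
    have h1 := ih e (S.erase i₀) (fun i hi => by
      by_cases h : i = i₀
      · subst h
        rcases abs_choice (c i) with h | h
        · exact hint i 1 (by rw [Int.cast_one, div_eq_one_iff_eq hd.ne', h])
        · exact hint i (-1) (by rw [div_eq_iff hd.ne', h]; simp)
      · exact hint i 0 (by rw [hS i fun h' => hi (mem_erase.2 ⟨h, h'⟩)]; simp))
      (by rw [card_erase_of_mem hi₀]; omega)
    have hpb : ∀ i, |(p i : ℝ)| ≤ (4 * m) ^ m + 1 := fun i => by
      have a1 : |c i / (|c i₀|)| ≤ 1 := by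
        rw [abs_div, abs_abs, div_le_one hd]
        exact hmax i (mem_univ _)
      have a2 : |(q : ℝ) * (c i / |c i₀|)| ≤ (4 * m) ^ m := by
        rw [abs_mul, abs_of_pos q2]
        exact (mul_le_of_le_one_right q2.le a1).trans (by exact_mod_cast q1)
      have a3 := abs_lt.1 ((hp i).trans_le hlt)
      have a4 := abs_le.1 a2
      exact abs_le.2 ⟨by linarith, by linarith⟩
    have hP : ∀ w : ι → ℤ, (∀ i, |w i| ≤ 1) → |∑ i, p i * w i| ≤ 2 ^ (m ^ 2 + 3 * m + 1) :=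
      fun w hw => by
        have a1 := sum_bd (w := fun i => (w i : ℝ)) hpb fun i => by exact_mod_cast hw i
        rw [← hm] at a1
        have a2 : (m : ℝ) * ((4 * m) ^ m + 1) ≤ 2 ^ (m ^ 2 + 3 * m + 1) := by
          exact_mod_cast num_bd m
        exact_mod_cast a1.trans a2
    have hE : ∀ w : ι → ℤ, (∀ i, |w i| ≤ 1) → |2 * ∑ i, e i * w i| ≤ 1 / 2 := fun w hw => by
      have a1 := sum_bd (w := fun i => (w i : ℝ)) (c := e) (fun i => (hp i).le)
        fun i => by exact_mod_cast hw i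
      rw [← hm] at a1
      have a2 : (m : ℝ) * (1 / (4 * m)) = 1 / 4 := by field_simp
      rw [abs_mul, abs_two]
      linarith
    obtain ⟨b, hb⟩ : ∃ b : ℤ, b = 2 ^ (m ^ 2 + 3 * m + 1) := ⟨_, rfl⟩
    have hb2 : (2 : ℤ) ^ (m ^ 2 + 3 * m + 3) = 4 * b := by rw [hb]; ring
    have hb0 : 0 < b := by rw [hb]; positivity
    rw [← hb] at hP
    have h2 := nr_fold (m ^ 2 + 3 * m + 3) (p := fun x => ∑ i, p i * u i x + b)
      (q := fun y => b - ∑ i, p i * v i y) (e := fun x => 2 * ∑ i, e i * u i x)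
      (f := fun y => -(2 * ∑ i, e i * v i y))
      (fun x => by have := abs_le.1 (hP _ fun i => hu i x); rw [hb2]; omega)
      (fun y => by have := abs_le.1 (hP _ fun i => hv i y); rw [hb2]; omega)
      (fun x => hE _ fun i => hu i x) fun y => by rw [abs_neg]; exact hE _ fun i => hv i y
    refine ((h1.add h2).smul (sq_nonneg (|c i₀| / q))).congr (le_of_eq (by ring)) fun x y => ?_
    have hc : ∀ w : ι → ℝ, ∑ i, c i * w i = |c i₀| / q * (∑ i, p i * w i + ∑ i, e i * w i) :=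
      fun w => by
        rw [← sum_add_distrib, mul_sum]
        refine sum_congr rfl fun i _ => ?_
        simp only [he]
        field_simp
        ring
    rw [hc, hc]
    push_cast
    ring

/-- The square of a real combination of `m` features of size at most one. -/
theorem nr_sq {ι : Type} [Fintype ι] {u : ι → X → ℤ} {v : ι → Y → ℤ}
    (hu : ∀ i x, |u i x| ≤ 1) (hv : ∀ i y, |v i y| ≤ 1) (c : ι → ℝ) :
    NR (Fintype.card ι * (4 * (Fintype.card ι ^ 2 + 3 * Fintype.card ι + 3)))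
      fun x y => (∑ i, c i * u i x + ∑ i, c i * v i y) ^ 2 := by
  classical
  exact nr_sq_aux hu hv _ c univ (fun i h => absurd (mem_univ i) h) le_rfl

end Pool.Agent.Lib.MP_8a52c3_lc.LS
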