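import Pool.Agent.Lib.MP_8a52c3_lc.LS.Outer
import Pool.Agent.Lib.MP_8a52c3_lc.LS.SqNR

/-! Choice of the parameters. -/

open Finset
open scoped BigOperators

namespace Pool.Agent.Lib.MP_8a52c3_lc.LS

open Pool.Agent.Lib.MP_8a52c3_lc.Mono

theorem p2 {a b : ℕ} (h : a ≤ b) : (2 : ℝ) ^ a ≤ 2 ^ b := pow_le_pow_right₀ one_le_two h

theorem p2' {a b c d : ℕ} (h : a + d ≤ c + b) : (2 : ℝ) ^ a / 2 ^ b ≤ 2 ^ c / 2 ^ d := by
  rw [div_le_div_iff₀ (by positivity) (by positivity), ← pow_add, ← pow_add]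
  exact p2 h

theorem half_add {x y : ℝ} {a : ℕ} (hx : x ≤ 2 ^ 0 / 2 ^ (a + 1)) (hy : y ≤ 2 ^ 0 / 2 ^ (a + 1)) :
    x + y ≤ 1 / 2 ^ a := by
  have : (2 : ℝ) ^ 0 / 2 ^ (a + 1) + 2 ^ 0 / 2 ^ (a + 1) = 1 / 2 ^ a := by
    rw [pow_succ]
    field_simp
    norm_num
  linarith

theorem p2'' {b d : ℕ} (h : d ≤ b) : (1 : ℝ) / 2 ^ b ≤ 2 ^ 0 / 2 ^ d := by
  have := p2' (a := 0) (b := b) (c := 0) (d := d) (by omega)
  rwa [pow_zero] at this ⊢

theorem three_le (n : ℕ) : (3 : ℝ) ^ n ≤ 2 ^ (2 * n) := by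
  rw [pow_mul]
  exact pow_le_pow_left₀ (by norm_num) (by norm_num) n

instance two_pow_ne (a : ℕ) : NeZero (2 ^ a) := ⟨by positivity⟩

/-- Positions in a group. -/
abbrev QQ (l : ℕ) : Type := Fin (2 ^ (6 * l + 1))

theorem card_X (l : ℕ) : Fintype.card (Fin (2 ^ (2 * l)) × QQ l) = 2 ^ (8 * l + 1) := by
  rw [Fintype.card_prod, Fintype.card_fin, Fintype.card_fin, ← pow_add]
  congr 1
  omega

theorem MM_le {n l : ℕ} (hl : 1 ≤ l) (k : ℕ) :
    MM n (2 ^ (2 * l)) (QQ l) k ≤ 2 ^ (n + 10 * (l * k)) := by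
  rw [MM, card_X, ← pow_succ, ← pow_mul, ← pow_add]
  exact Nat.pow_le_pow_right (by norm_num) (by nlinarith)

theorem tail_num {n l d : ℕ} :
    Tail n (2 ^ (2 * l)) (QQ l) (2 * d) (2 ^ (2 * n) / 2 ^ (2 * (l * d))) := by
  intro h h0 h1
  refine (tl_le (le_of_eq ?_) d h0 h1).trans ?_
  · rw [Fintype.card_fin, ← pow_mul, ← pow_succ']
    congr 1
    omega
  · push_cast
    rw [← pow_mul, mul_assoc]
    exact div_le_div_of_nonneg_right (three_le n) (by positivity)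

variable {n l d : ℕ} {σ : (Fin n → Bool) → ℝ}

theorem cov_num (hσ : IsPseudo n (2 * d) (2 ^ n) σ) (hl : 1 ≤ l) (hd : 4 * d ≤ 2 ^ l) {K k V : ℕ}
    (hK : K + 1 < l * k + l) (hV : 3 * K + 4 + 2 * n + 21 * (l * k) ≤ V)
    (hX : V + 3 * n + 1 ≤ 2 * (l * d)) :
    CovOK (2 ^ (2 * l)) (QQ l) σ (1 / 2 ^ K) k (1 / 2 ^ V) := by
  refine cover hσ tail_num (lam := 2 ^ l) (by positivity) (one_le_pow₀ one_le_two) ?_ ?_ ?_ ?_
  · push_cast
    exact p2 (by omega)
  · have : ((4 * d : ℕ) : ℝ) ≤ (2 ^ l : ℕ) := by exact_mod_cast hd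
    push_cast at this ⊢
    linarith
  · push_cast
    rw [two_mul l, pow_add 2 l l, mul_div_assoc, div_self (by positivity), mul_one, ← pow_mul,
      div_div_eq_mul_div, div_one, ← pow_succ']
    exact pow_lt_pow_right₀ one_lt_two (by linarith)
  · have hM : (MM n (2 ^ (2 * l)) (QQ l) k : ℝ) ≤ 2 ^ (n + 10 * (l * k)) := by
      exact_mod_cast MM_le hl k
    have hM0 : (0 : ℝ) < MM n (2 ^ (2 * l)) (QQ l) k := by
      rw [MM, card_X]
      positivity
    obtain ⟨V, rfl⟩ : ∃ V', V = V' + 1 := ⟨V - 1, by omega⟩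
    refine (half_add (a := V) (by rw [pow_zero]) ?_).trans ?_
    · refine le_trans ?_ (p2' (a := n + 1 + 2 * n) (b := 2 * (l * d)) (by omega))
      rw [← mul_div_assoc, pow_add, pow_succ]
      gcongr
      linarith [one_le_pow₀ (n := n) (one_le_two (α := ℝ))]
    · rw [div_pow, one_pow, div_div, ← pow_mul, ← pow_mul]
      refine one_div_le_one_div_of_le (by positivity) ?_
      refine le_trans ?_ (p2 (a := K * 3 + (3 + (n + 10 * (l * k)) * 2 + l * k)) (by omega))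
      rw [pow_add (2 : ℝ), pow_add (2 : ℝ), pow_add (2 : ℝ) 3, pow_mul (2 : ℝ) _ 2]
      gcongr
      norm_num

theorem pos_num (hσ : IsPseudo n (2 * d) (2 ^ n) σ) (hl : 1 ≤ l) (hd : 4 * d ≤ 2 ^ l) {K k g V : ℕ}
    (hK : K + 1 < l * k + l) (hV : 2 * K + g + 4 + n + 11 * (l * k) ≤ V)
    (hX : V + 3 * n + 1 ≤ 2 * (l * d)) :
    PosOK (2 ^ (2 * l)) (QQ l) σ (1 / 2 ^ K) (1 / 2 ^ g) k (1 / 2 ^ V) := by
  refine pos_ok hσ tail_num (lam := 2 ^ l) (by positivity) (by positivity)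
    (one_le_pow₀ one_le_two) ?_ ?_ ?_ ?_
  · push_cast
    exact p2 (by omega)
  · have : ((4 * d : ℕ) : ℝ) ≤ (2 ^ l : ℕ) := by exact_mod_cast hd
    push_cast at this ⊢
    linarith
  · push_cast
    rw [two_mul l, pow_add 2 l l, mul_div_assoc, div_self (by positivity), mul_one, ← pow_mul,
      div_div_eq_mul_div, div_one, ← pow_succ']
    exact pow_lt_pow_right₀ one_lt_two (by linarith)
  · have hM : (MM n (2 ^ (2 * l)) (QQ l) k : ℝ) ≤ 2 ^ (n + 10 * (l * k)) := by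
      exact_mod_cast MM_le hl k
    have hM0 : (0 : ℝ) < MM n (2 ^ (2 * l)) (QQ l) k := by
      rw [MM, card_X]
      positivity
    obtain ⟨V, rfl⟩ : ∃ V', V = V' + 1 := ⟨V - 1, by omega⟩
    refine (half_add (a := V) (by rw [pow_zero]) ?_).trans ?_
    · refine le_trans ?_ (p2' (a := n + 1 + 2 * n) (b := 2 * (l * d)) (by omega))
      rw [← mul_div_assoc, pow_add, pow_succ]
      gcongr
      linarith [one_le_pow₀ (n := n) (one_le_two (α := ℝ))]
    · rw [div_pow, one_pow, div_mul_div_comm, one_mul, div_div, ← pow_mul, ← pow_mul]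
      refine one_div_le_one_div_of_le (by positivity) ?_
      refine le_trans ?_ (p2 (a := K * 2 + g + (3 + (n + 10 * (l * k)) + l * k)) (by omega))
      rw [pow_add (2 : ℝ), pow_add (2 : ℝ), pow_add (2 : ℝ) _ (l * k), pow_add (2 : ℝ) 3]
      gcongr
      norm_num

theorem dz_sq {N r : ℕ} {Q : Type} [Fintype Q] [DecidableEq Q]
    {pt : Row n r Q → Col n r Q → Fin N → Bool} (hs : Split pt) {h : Poly N}
    (hh : h.totalDegree ≤ 1) (A : Row n r Q → Prop) (C : Col n r Q → Prop) :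
    Dz σ 0 ((N + 1) * (4 * ((N + 1) ^ 2 + 3 * (N + 1) + 3))) A C
      fun α y => val (pt α y) h ^ 2 := by
  obtain ⟨side, pr, pc, hs⟩ := hs
  obtain ⟨ι, _, a, b, h1, h2, h3, h4⟩ := nr_sq (ι := Option (Fin N))
    (u := fun o α => o.elim 1 fun i => if side i ∧ pr α i then 1 else 0)
    (v := fun o y => o.elim 0 fun i => if ¬ side i ∧ pc y i then 1 else 0)
    (fun o α => by cases o <;> simp only [Option.elim] <;> (try split_ifs) <;> simp)
    (fun o y => by cases o <;> simp only [Option.elim] <;> (try split_ifs) <;> simp)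
    fun o => h.coeff (o.elim 0 fun i => Finsupp.single i 1)
  refine (Dz.sum univ fun i _ => Dz.one (h2 i) (h3 i)).mono (by simp) (by simpa using h1)
    fun α y _ _ => ?_
  rw [← h4]
  beta_reduce
  rw [val_lin hh, ← sum_add_distrib, Fintype.sum_option]
  simp only [Option.elim, Int.cast_one, Int.cast_zero, mul_one, mul_zero, add_zero]
  congr 2
  refine sum_congr rfl fun i _ => ?_
  rw [hs]
  cases side i <;> cases pr α i <;> cases pc y i <;> simp

theorem no_ref (hσ : IsPseudo n (2 * (n / 256)) (2 ^ n) σ) (hl : 10 ^ 7 ≤ l) (hn : n = 2 ^ l)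
    {N : ℕ} {pt : Row n (2 ^ (2 * l)) (QQ l) → Col n (2 ^ (2 * l)) (QQ l) → Fin N → Bool}
    (hs : Split pt) {F : Finset (Finset (Fin N × Bool))}
    (hF : ∀ c ∈ F, ∃ I : Finset (Fin n), I.card ≤ 8 ∧
      ∀ α y, (∀ l ∈ c, pt α y l.1 ≠ l.2) → pe σ (res I (zz α y)) = 0)
    {T : ℕ} {L : ℕ → Poly N} (hL : Refutes F T L) (hN : N ≤ 2 ^ n) (hT : T ≤ 2 ^ n) : False := by
  have hln : 1000 * l ≤ n := by
    obtain ⟨j, rfl⟩ : ∃ j, l = j + 20 := ⟨l - 20, by omega⟩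
    have := Nat.lt_two_pow_self (n := j)
    rw [hn, pow_add]
    omega
  have hE : n < 2 ^ n := Nat.lt_two_pow_self
  have hdiv : ∀ a, ∃ k, a < l * k + l ∧ l * k ≤ a := fun a =>
    ⟨a / l, by linarith [Nat.div_add_mod a l, Nat.mod_lt a (show 0 < l by omega)],
      Nat.mul_div_le a l⟩
  obtain ⟨k₁, a0, a1, a2⟩ : ∃ k, 8 ≤ k ∧ 2 * n + 3 < l * k + l ∧ l * k ≤ 3 * n := by
    obtain ⟨k, h1, h2⟩ := hdiv (2 * n + 3)
    exact ⟨k + 8, by omega, by rw [mul_add]; omega, by rw [mul_add]; omega⟩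
  obtain ⟨k₂, a3, a4⟩ := hdiv (140 * n + 1)
  have hd1 : 256 * (n / 256) ≤ n ∧ n < 256 * (n / 256) + 256 := by omega
  generalize n / 256 = d at hσ hd1
  have hd2 : 4 * d ≤ 2 ^ l := by omega
  clear hn hdiv
  have hX : 30000 * n ≤ l * d := le_trans (by omega) (Nat.mul_le_mul_right d hl)
  have a5 : l * (2 * k₁) = 2 * (l * k₁) := by ring
  have hkk : 2 * k₁ ≤ k₂ := Nat.le_of_mul_le_mul_left (c := l) (by omega) (by omega)
  have hkd : k₂ ≤ d := Nat.le_of_mul_le_mul_left (c := l) (by omega) (by omega)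
  have hc₁ := cov_num hσ (by omega) hd2 (K := 2 * n + 2) (k := k₁) (V := 72 * n)
    (by omega) (by omega) (by omega)
  have hc₂ := pos_num hσ (by omega) hd2 (K := 140 * n) (k := k₂) (g := 3030 * n) (V := 4900 * n)
    (by omega) (by omega) (by omega)
  have hT' : (T : ℝ) ≤ 2 ^ n := by exact_mod_cast hT
  have ht : (N + 1) * (4 * ((N + 1) ^ 2 + 3 * (N + 1) + 3)) ≤ 2 ^ (4 * n) := by
    rw [mul_comm 4 n, pow_mul]
    generalize 2 ^ n = E at *
    have b1 : N + 1 ≤ 2 * E := by omega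
    have b2 : (N + 1) ^ 2 + 3 * (N + 1) + 3 ≤ 13 * E ^ 2 := by
      nlinarith [Nat.pow_le_pow_left b1 2]
    calc _ ≤ 2 * E * (4 * (13 * E ^ 2)) := Nat.mul_le_mul b1 (Nat.mul_le_mul_left 4 b2)
      _ = 104 * E ^ 3 := by ring
      _ ≤ E * E ^ 3 := Nat.mul_le_mul_right _ (by omega)
      _ = E ^ 4 := by ring
  obtain ⟨A, C, hpos, G, -, hdec⟩ := outer hσ (by positivity) hc₁ (by omega) (by positivity) (by
      refine (half_add (a := 0) (p2'' (by omega)) ?_).trans (by norm_num)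
      refine le_trans ?_ (p2' (a := 1 + n + n) (b := 2 * n + 2) (by omega))
      rw [pow_add 2 (1 + n), pow_add 2 1 n, pow_one, mul_one_div, div_mul_eq_mul_div]
      gcongr) hs (fun h hh A C => (dz_sq hs hh A C).mono le_rfl ht fun _ _ _ _ => rfl)
    (fun c hc => (hF c hc).imp fun I h => ⟨h.1.trans (by omega), h.2⟩) hL
  have hM := MM_le (n := n) (l := l) (by omega) (2 * k₁)
  have hs1 : T * (MM n (2 ^ (2 * l)) (QQ l) (2 * k₁) * 4 + 2 ^ (4 * n) + 1) + 2 ≤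
      2 ^ (65 * n + 1) := by
    have b1 : 2 ^ (n + 10 * (l * (2 * k₁))) ≤ 2 ^ (61 * n) :=
      Nat.pow_le_pow_right (by norm_num) (by omega)
    have b2 : 2 ^ (4 * n) ≤ 2 ^ (61 * n) := Nat.pow_le_pow_right (by norm_num) (by omega)
    have b3 : 2 ^ (61 * n + 3) ≤ 2 ^ (64 * n) := Nat.pow_le_pow_right (by norm_num) (by omega)
    have b6 : 1 ≤ 2 ^ (61 * n) := Nat.one_le_two_pow
    have b4 := Nat.mul_le_mul hT (show MM n (2 ^ (2 * l)) (QQ l) (2 * k₁) * 4 + 2 ^ (4 * n) + 1 ≤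
      2 ^ (64 * n) by rw [pow_add] at b3; omega)
    have b5 : 2 ^ 1 ≤ 2 ^ (65 * n) := Nat.pow_le_pow_right (by norm_num) (by omega)
    rw [← pow_add, show n + 64 * n = 65 * n by omega] at b4
    rw [pow_succ 2 (65 * n)]
    omega
  have hR : RR n (2 ^ (2 * l)) (QQ l) (2 * d) (2 * k₁) ≤ RR n (2 ^ (2 * l)) (QQ l) (2 * d) k₂ :=
    Nat.mul_le_mul_left _ (Nat.mul_le_mul_left _ (Nat.pow_le_pow_right Fintype.card_pos (by omega)))
  have hM₂ : (MM n (2 ^ (2 * l)) (QQ l) k₂ : ℝ) ≤ 2 ^ (1411 * n) := by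
    exact_mod_cast (MM_le (by omega) k₂).trans (Nat.pow_le_pow_right (by norm_num) (by omega))
  have hs2 : (2 : ℝ) ^ (65 * n + 1) + 1 ≤ 2 ^ (66 * n) := by
    refine le_trans ?_ (p2 (a := 65 * n + 1 + 1) (by omega))
    rw [pow_succ 2 (65 * n + 1)]
    linarith [one_le_pow₀ (n := 65 * n + 1) (one_le_two (α := ℝ))]
  refine keyReal hσ tail_num (by positivity) (by positivity) (by positivity) hc₂
    (hdec.mono (Nat.mul_le_mul hT (Nat.mul_le_mul (show 4 ≤ 2 ^ (65 * n) from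
      Nat.pow_le_pow_right (n := 2) (by norm_num) (show 2 ≤ 65 * n by omega)) hR)) hs1 le_rfl le_rfl)
    (by positivity) (le_trans ?_ hpos) ?_ ?_
  · push_cast
    refine half_add ?_ ?_
    · rw [mul_add, pow_zero]
      refine half_add ?_ ?_
      · refine le_trans ?_ (p2' (a := n + 66 * n) (b := 140 * n) (by omega))
        rw [mul_one_div, ← mul_div_assoc, pow_add 2 n]
        gcongr
      · refine le_trans ?_ (p2' (a := n + (1 + (66 * n + 1411 * n) * 2)) (b := 3030 * n) (by omega))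
        rw [mul_one_div, ← mul_div_assoc, pow_add 2 n, pow_add 2 1, pow_one, pow_mul 2 _ 2,
          pow_add 2 (66 * n)]
        gcongr
    · rw [div_div, ← pow_succ]
      exact p2'' (by omega)
  · push_cast
    rw [div_div, ← pow_succ, ← pow_zero (2 : ℝ)]
    refine le_trans ?_ (p2' (a := 65 * n + 1 + 1411 * n + (n + 2 * n)) (b := 2 * (l * d)) (by omega))
    rw [← mul_div_assoc, ← mul_div_assoc, pow_add 2 _ (n + 2 * n), pow_add 2 _ (1411 * n),
      pow_add 2 n]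
    gcongr
  · have b2 : (RR n (2 ^ (2 * l)) (QQ l) (2 * d) k₂ : ℝ) ≤
        2 ^ (2 * n + (n + (8 * l + 1) * (n + k₂ - 2 * d))) := by
      rw [RR, card_X]
      push_cast
      rw [pow_add 2 (2 * n), pow_add 2 n, pow_mul 2 (8 * l + 1)]
      gcongr
      exact three_le n
    have b3 : (8 * l + 1) * (n + k₂ - 2 * d) + 8 * (l * d) ≤ (8 * l + 1) * n := by
      obtain ⟨e, he⟩ : ∃ e, n = e + 2 * d := ⟨n - 2 * d, by omega⟩
      rw [show n + k₂ - 2 * d = e + k₂ by omega, he]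
      nlinarith [Nat.mul_le_mul_left l hkd]
    rw [card_X]
    push_cast
    calc _ ≤ ((2 : ℝ) ^ n * 2 ^ (66 * n)) ^ 2 * ((2 ^ (66 * n) + 2 ^ (66 * n)) *
          2 ^ (2 * n + (n + (8 * l + 1) * (n + k₂ - 2 * d)))) := by
          rw [← mul_assoc ((2 : ℝ) ^ n) (2 ^ (65 * n)), ← pow_add, show n + 65 * n = 66 * n by omega,
            ← add_mul, add_comm (1 : ℝ)]
          gcongr
      _ < _ := by
          rw [div_div, ← pow_succ, div_pow, one_pow, one_div, ← div_eq_inv_mul,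
            lt_div_iff₀ (by positivity), ← mul_two, ← pow_succ]
          simp only [← pow_mul, ← pow_add]
          exact pow_lt_pow_right₀ one_lt_two (by omega)

end Pool.Agent.Lib.MP_8a52c3_lc.LS
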