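import Pool.Agent.Lib.MP_8a52c3_lc.LS.KeyReal
import Pool.Agent.Lib.MP_8a52c3_lc.LS.Defs

/-! The run through the lines of a refutation. -/

open Finset MvPolynomial
open scoped BigOperators

namespace Pool.Agent.Lib.MP_8a52c3_lc.LS

open Pool.Agent.Lib.MP_8a52c3_lc.Mono

variable {N : ℕ}

theorem val_lin {p : Poly N} (hp : p.totalDegree ≤ 1) (x : Fin N → Bool) :
    val x p = p.coeff 0 + ∑ i, p.coeff (Finsupp.single i 1) * if x i then 1 else 0 := by
  classical
  have hinj : Function.Injective fun o : Option (Fin N) =>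
      (o.elim 0 fun i => Finsupp.single i 1 : Fin N →₀ ℕ) := by
    rintro (_ | i) (_ | j) h
    · rfl
    · exact absurd h.symm (Finsupp.single_ne_zero.2 one_ne_zero)
    · exact absurd h (Finsupp.single_ne_zero.2 one_ne_zero)
    · exact congrArg some (Finsupp.single_left_injective one_ne_zero h)
  have hsub : p.support ⊆ univ.image fun o : Option (Fin N) =>
      (o.elim 0 fun i => Finsupp.single i 1 : Fin N →₀ ℕ) := by
    intro d hd
    rcases Nat.le_one_iff_eq_zero_or_eq_one.1 ((le_totalDegree hd).trans hp) with h | h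
    · refine mem_image.2 ⟨none, mem_univ _, ?_⟩
      ext i
      by_cases hi : i ∈ d.support
      · exact ((sum_eq_zero_iff.1 h) i hi).symm
      · exact (Finsupp.notMem_support_iff.1 hi).symm
    · obtain ⟨i, rfl⟩ := (Finsupp.sum_eq_one_iff d).1 h
      exact mem_image.2 ⟨some i, mem_univ _, rfl⟩
  rw [val, eval_eq', sum_subset hsub fun d _ hd => by rw [notMem_support_iff.1 hd, zero_mul],
    sum_image fun a _ b _ h => hinj h, Fintype.sum_option]
  simp only [Option.elim, Finsupp.coe_zero, Pi.zero_apply, pow_zero, prod_const_one, mul_one]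
  congr 1
  refine sum_congr rfl fun i _ => ?_
  rw [prod_eq_single i (fun j _ hj => by simp [Finsupp.single_eq_of_ne hj]) (by simp)]
  simp

theorem val_lit (x : Fin N → Bool) (l : Fin N × Bool) :
    val x (lit l) = if x l.1 = l.2 then 1 else 0 := by
  rcases l with ⟨i, _ | _⟩ <;> cases h : x i <;> simp [val, lit, h]

theorem clause_neg {x : Fin N → Bool} {c : Finset (Fin N × Bool)} (h : val x (clause c) < 0) :
    ∀ l ∈ c, x l.1 ≠ l.2 := by
  intro l hl he
  have h1 : val x (clause c) = ∑ l ∈ c, val x (lit l) - 1 := by simp [val, clause]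
  have h2 := single_le_sum (f := fun l => val x (lit l))
    (fun l _ => by rw [val_lit]; split_ifs <;> norm_num) hl
  rw [val_lit, if_pos he] at h2
  linarith

theorem clause_deg (c : Finset (Fin N × Bool)) : (clause c).totalDegree ≤ 1 := by
  refine (totalDegree_sub _ _).trans (max_le (totalDegree_finsetSum_le fun l _ => ?_) (by simp))
  unfold lit
  split_ifs
  · exact (totalDegree_X _).le
  · exact (totalDegree_sub _ _).trans (max_le (by simp) (totalDegree_X _).le)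

theorem exists_bd {α : Type} [Fintype α] (f : α → ℝ) : ∃ G, 1 ≤ G ∧ ∀ a, |f a| ≤ G :=
  ⟨1 + ∑ a, |f a|, le_add_of_nonneg_right (sum_nonneg fun _ _ => abs_nonneg _), fun a =>
    (single_le_sum (f := fun a => |f a|) (fun _ _ => abs_nonneg _) (mem_univ a)).trans
      (le_add_of_nonneg_left zero_le_one)⟩

variable {n r : ℕ} {Q : Type}

/-- Every variable is set by the row or by the column. -/
def Split (pt : Row n r Q → Col n r Q → Fin N → Bool) : Prop :=
  ∃ (side : Fin N → Bool) (pr : Row n r Q → Fin N → Bool) (pc : Col n r Q → Fin N → Bool),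
    ∀ α y i, pt α y i = if side i then pr α i else pc y i

variable {pt : Row n r Q → Col n r Q → Fin N → Bool}

theorem ev_aff (hs : Split pt) {p : Poly N} (hp : p.totalDegree ≤ 1) :
    ∃ (a : Row n r Q → ℝ) (b : Col n r Q → ℝ), ∀ α y, val (pt α y) p = a α + b y := by
  obtain ⟨side, pr, pc, hs⟩ := hs
  refine ⟨fun α => p.coeff 0 + ∑ i, p.coeff (Finsupp.single i 1) * if side i ∧ pr α i then 1 else 0,
    fun y => ∑ i, p.coeff (Finsupp.single i 1) * if ¬ side i ∧ pc y i then 1 else 0,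
    fun α y => ?_⟩
  rw [val_lin hp, add_assoc, ← sum_add_distrib]
  congr 1
  refine sum_congr rfl fun i _ => ?_
  rw [hs]
  cases side i <;> cases pr α i <;> cases pc y i <;> simp

theorem ev_mono (hs : Split pt) (M : Finset (Fin N × Bool)) :
    ∃ (u : Row n r Q → ℝ) (v : Col n r Q → ℝ), (∀ α, 0 ≤ u α) ∧
      (∀ y, 0 ≤ v y ∧ v y ≤ 1) ∧ ∀ α y, val (pt α y) (∏ l ∈ M, lit l) = u α * v y := by
  obtain ⟨side, pr, pc, hs⟩ := hs
  refine ⟨fun α => ∏ l ∈ M, ind (side l.1 → pr α l.1 = l.2),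
    fun y => ∏ l ∈ M, ind (¬ side l.1 → pc y l.1 = l.2),
    fun α => prod_nonneg fun _ _ => ind_nonneg _,
    fun y => ⟨prod_nonneg fun _ _ => ind_nonneg _,
      prod_le_one (fun _ _ => ind_nonneg _) fun _ _ => ind_le_one _⟩, fun α y => ?_⟩
  have h1 : val (pt α y) (∏ l ∈ M, lit l) = ∏ l ∈ M, val (pt α y) (lit l) := by simp [val]
  rw [h1, ← prod_mul_distrib]
  refine prod_congr rfl fun l _ => ?_
  rw [val_lit, hs]
  cases side l.1 <;> simp [ind]

variable [Fintype Q] {D : ℕ} {Λ : ℝ} {σ : (Fin n → Bool) → ℝ}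

/-- A decomposition without small part and without a bound on the products. -/
def Dz (σ : (Fin n → Bool) → ℝ) (R s : ℕ) (A : Row n r Q → Prop) (B : Col n r Q → Prop)
    (F : Row n r Q → Col n r Q → ℝ) : Prop := ∃ G, 0 ≤ G ∧ Dec σ R s G 0 A B F

section Dz

variable {R R' s s' : ℕ} {A : Row n r Q → Prop} {B : Col n r Q → Prop}
  {F F' : Row n r Q → Col n r Q → ℝ}

omit [Fintype Q] in
theorem Dz.mono (h : Dz σ R s A B F) (hR : R ≤ R') (hs : s ≤ s')
    (he : ∀ α y, A α → B y → F' α y = F α y) : Dz σ R' s' A B F' :=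
  h.imp fun _ h => ⟨h.1, (h.2.mono hR hs le_rfl le_rfl).congr he⟩

omit [Fintype Q] in
theorem Dz.low (h : Low σ R F) : Dz σ R 0 A B F := ⟨0, le_rfl, Dec.low h⟩

theorem Dz.add (h : Dz σ R s A B F) (h' : Dz σ R' s' A B F') :
    Dz σ (R + R') (s + s') A B fun α y => F α y + F' α y := by
  obtain ⟨G, h0, h⟩ := h
  obtain ⟨G', h0', h'⟩ := h'
  exact ⟨G + G', by linarith, ((h.mono le_rfl le_rfl (by linarith) le_rfl).add
    (h'.mono le_rfl le_rfl (by linarith) le_rfl)).mono le_rfl le_rfl le_rfl (by simp)⟩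

theorem Dz.sum {ι : Type} (t : Finset ι) {F : ι → Row n r Q → Col n r Q → ℝ}
    (h : ∀ i ∈ t, Dz σ R s A B (F i)) :
    Dz σ (t.card * R) (t.card * s) A B fun α y => ∑ i ∈ t, F i α y := by
  classical
  induction t using Finset.induction_on with
  | empty => simpa using Dz.low Low.zero
  | insert a t ha ih =>
    simp only [sum_insert ha, card_insert_of_notMem ha]
    exact ((h a (mem_insert_self _ _)).add (ih fun i hi => h i (mem_insert_of_mem hi))).mono
      (le_of_eq (by ring)) (le_of_eq (by ring)) fun _ _ _ _ => rfl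

theorem Dz.mul {u : Row n r Q → ℝ} {v : Col n r Q → ℝ} (hu : ∀ α, 0 ≤ u α)
    (hv : ∀ y, 0 ≤ v y ∧ v y ≤ 1) (h : Dz σ R s A B F) :
    Dz σ R s A B fun α y => u α * v y * F α y := by
  classical
  obtain ⟨G, h0, h⟩ := h
  obtain ⟨U, h1, h2⟩ := exists_bd u
  exact ⟨U * G, by positivity, (Dec.mul h1 h0 le_rfl (fun α => ⟨hu α, (abs_le.1 (h2 α)).2⟩) hv
    (h.sub (fun _ h => h.1) fun _ h => h.1)).mono le_rfl le_rfl le_rfl (by simp)⟩

theorem Dz.one [DecidableEq Q] {u : Row n r Q → ℝ} {v : Col n r Q → ℝ} (hu : ∀ α, 0 ≤ u α)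
    (hv : ∀ y, 0 ≤ v y) : Dz σ 0 1 A B fun α y => u α * v y := by
  obtain ⟨U, h1, h2⟩ := exists_bd u
  obtain ⟨V, h3, h4⟩ := exists_bd v
  exact ⟨U + V, by linarith, Dec.one (fun α => ⟨hu α, by linarith [(abs_le.1 (h2 α)).2]⟩)
    fun y => ⟨hv y, by linarith [(abs_le.1 (h4 y)).2]⟩⟩

variable [DecidableEq Q] [Nonempty Q] [NeZero r]

theorem dz_mul (hσ : IsPseudo n D Λ σ) {k : ℕ} (hk : 2 * k ≤ D) {a a' : Row n r Q → ℝ}
    {b b' : Col n r Q → ℝ} (h : Cvd σ k (fun α y => a α + b y < 0) A B)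
    (h' : Cvd σ k (fun α y => a' α + b' y < 0) A B) :
    Dz σ (4 * RR n r Q D (2 * k)) (MM n r Q (2 * k) * 4) A B
      fun α y => (a α + b y) * (a' α + b' y) := by
  obtain ⟨G₁, e₁, f₁⟩ := exists_bd a
  obtain ⟨G₂, e₂, f₂⟩ := exists_bd b
  obtain ⟨G₃, e₃, f₃⟩ := exists_bd a'
  obtain ⟨G₄, e₄, f₄⟩ := exists_bd b'
  exact ⟨_, by positivity, dec_mul hσ hk (G := G₁ + G₂ + G₃ + G₄) (by linarith)
    (fun α => by linarith [f₁ α]) (fun y => by linarith [f₂ y]) (fun α => by linarith [f₃ α])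
    (fun y => by linarith [f₄ y]) h h'⟩

end Dz

variable [DecidableEq Q] [Nonempty Q] [NeZero r]

theorem outer (hσ : IsPseudo n D Λ σ) {κ ν : ℝ} {k T t : ℕ} (hκ : 0 ≤ κ)
    (hc : CovOK r Q σ κ k ν) (hk : 2 * k ≤ D) (hν : 0 < ν) (hv : ν + 2 * Λ * κ * T ≤ 1)
    (hs : Split pt) (hsq : ∀ h : Poly N, h.totalDegree ≤ 1 → ∀ A C,
      Dz σ 0 t A C fun α y => val (pt α y) h ^ 2) {F : Finset (Finset (Fin N × Bool))}
    (hF : ∀ c ∈ F, ∃ I : Finset (Fin n), I.card ≤ k ∧
      ∀ α y, (∀ l ∈ c, pt α y l.1 ≠ l.2) → pe σ (res I (zz α y)) = 0)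
    {L : ℕ → Poly N} (hL : Refutes F T L) :
    ∃ (A : Row n r Q → Prop) (C : Col n r Q → Prop), ν ≤ vl σ (rect A C) ∧
      Dz σ (T * (4 * RR n r Q D (2 * k))) (T * (MM n r Q (2 * k) * 4 + t + 1) + 2) A C
        fun _ _ => -1 := by
  classical
  obtain ⟨hL, j₀, hj₀, hj₀'⟩ := hL
  have hch : ∀ i : Fin T, Chain fun α y => (L i).totalDegree ≤ 1 ∧ val (pt α y) (L i) < 0 := by
    intro i α α'
    by_cases h : (L i).totalDegree ≤ 1
    · obtain ⟨a, b, e⟩ := ev_aff hs h
      simp only [e]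
      rcases le_total (a α) (a α') with c | c
      · exact Or.inr fun y h' => ⟨h, by linarith [h'.2]⟩
      · exact Or.inl fun y h' => ⟨h, by linarith [h'.2]⟩
    · exact Or.inl fun y h' => absurd h'.1 h
  have h1 : vl σ (rect (fun _ : Row n r Q => True) fun _ => True) = 1 := by
    rw [vl, ex_bx]
    have e : ∀ (p : Fin (n * r) → Q) (φ : Fin n → Fin r),
        𝔼 y, σ (zz (bx φ p) y) * rect (fun _ => True) (fun _ => True) (bx φ p) y = 1 := by
      intro p φ
      simp only [rect, ind_of trivial, mul_one]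
      exact ((ex_gad p fun u => σ fun e => u (gp e (φ e))).trans
        (ex_comp (gp_graph φ) σ)).trans hσ.mean
    simp only [e, ex_const]
  obtain ⟨⟨j, hj⟩, A, C, -, -, -, hT, hpos, hcv⟩ := process hσ.bound hκ hc _ hch Fin.val
    (A₀ := fun _ => True) (B₀ := fun _ => True) ⟨j₀, hj₀⟩
    (fun α y _ _ => by simp [hj₀', val]) (by rwa [h1, Fintype.card_fin])
  refine ⟨A, C, hpos, ?_⟩
  obtain ⟨α₁, y₁, hα₁, hy₁⟩ := rect_ne (hν.trans_le hpos).ne'
  have hjl : (L j).totalDegree ≤ 1 := (hT α₁ y₁ hα₁ hy₁).1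
  let At : Poly N → Prop := fun p => Dz σ (4 * RR n r Q D (2 * k))
    (MM n r Q (2 * k) * 4 + t + 1) A C fun α y => val (pt α y) p
  have hlin : ∀ i < j, (L i).totalDegree ≤ 1 → ∃ (a : Row n r Q → ℝ) (b : Col n r Q → ℝ),
      (∀ α y, val (pt α y) (L i) = a α + b y) ∧ Cvd σ k (fun α y => a α + b y < 0) A C :=
    fun i hi h => by
      obtain ⟨a, b, e⟩ := ev_aff hs h
      exact ⟨a, b, e, (hcv ⟨i, hi.trans hj⟩ hi).mono fun α y p q c => ⟨p, q, h, (e α y).trans_lt c⟩⟩
  have hM : ∀ (M : Finset (Fin N × Bool)) (p : Poly N), At p → At ((∏ l ∈ M, lit l) * p) := by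
    intro M p h
    obtain ⟨u, v, hu, hv, e⟩ := ev_mono hs M
    refine (Dz.mul hu hv h).mono le_rfl le_rfl fun α y _ _ => ?_
    rw [← e]
    simp [val]
  have hAl : ∀ i < j, (L i).totalDegree ≤ 1 → At (L i) := fun i hi h => by
    obtain ⟨a, b, e, e3⟩ := hlin i hi h
    refine (dz_mul hσ hk (a' := fun _ => 1) (b' := fun _ => 0) e3 ⟨fun _ => ∅, by simp,
      fun _ _ _ _ h => by norm_num at h⟩).mono le_rfl (by omega) fun α y _ _ => ?_
    rw [e]
    ring
  let Rep : Poly N → Prop := fun p => ∃ c : ℕ → ℝ, (∀ b, 0 ≤ c b ∧ (c b ≠ 0 → At (L b))) ∧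
      ∀ α y, val (pt α y) p = ∑ b ∈ range T, c b * val (pt α y) (L b)
  have hAR : ∀ i < T, At (L i) → Rep (L i) := fun i hi h =>
    ⟨fun b => if b = i then 1 else 0, fun b => by
      by_cases hb : b = i
      · simp [hb, h]
      · simp [hb], fun α y => by simp [hi]⟩
  have hstep : ∀ i ≤ j, (∀ i' < i, Rep (L i')) → ∀ p, Step F {p | ∃ i' < i, L i' = p} p →
      (At p ∨ Rep p) ∨ (p.totalDegree ≤ 1 ∧ ∃ I : Row n r Q → Finset (Fin n),
        (∀ α, (I α).card ≤ 2 * k) ∧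
        ∀ α y, A α → C y → val (pt α y) p < 0 → pe σ (res (I α) (zz α y)) = 0) := by
    intro i hi ih p hp
    cases hp with
    | hyp c hc =>
      obtain ⟨I, e1, e2⟩ := hF c hc
      exact Or.inr ⟨clause_deg c, fun _ => I, fun _ => e1.trans (by omega),
        fun α y _ _ h => e2 α y (clause_neg h)⟩
    | var l =>
      obtain ⟨u, v, hu, hv, e⟩ := ev_mono hs {l}
      refine Or.inl (Or.inl ((Dz.one hu fun y => (hv y).1).mono (by omega) (by omega)
        fun α y _ _ => ?_))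
      rw [← e, prod_singleton]
    | bool q i =>
      refine Or.inl (Or.inl ((Dz.low Low.zero).mono (by omega) (by omega) fun α y _ _ => ?_))
      cases h : pt α y i <;> simp [val, h]
    | add f g a b hf hg ha hb =>
      obtain ⟨i₁, hi₁, rfl⟩ := hf
      obtain ⟨i₂, hi₂, rfl⟩ := hg
      obtain ⟨c₁, e₁, f₁⟩ := ih i₁ hi₁
      obtain ⟨c₂, e₂, f₂⟩ := ih i₂ hi₂
      refine Or.inl (Or.inr ⟨fun x => a * c₁ x + b * c₂ x, fun x => ⟨add_nonneg
        (mul_nonneg ha (e₁ x).1) (mul_nonneg hb (e₂ x).1), fun h => ?_⟩, fun α y => ?_⟩)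
      · by_cases c : c₁ x = 0
        · exact (e₂ x).2 fun c' => h (by simp [c, c'])
        · exact (e₁ x).2 c
      · have : val (pt α y) (MvPolynomial.C a * L i₁ + MvPolynomial.C b * L i₂) =
            a * val (pt α y) (L i₁) + b * val (pt α y) (L i₂) := by simp [val]
        rw [this, f₁, f₂, mul_sum, mul_sum, ← sum_add_distrib]
        exact sum_congr rfl fun x _ => by ring
    | mul f g M hf hg hf' hg' =>
      obtain ⟨i₁, hi₁, rfl⟩ := hf
      obtain ⟨i₂, hi₂, rfl⟩ := hg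
      obtain ⟨a, b, e, e3⟩ := hlin i₁ (by omega) hf'
      obtain ⟨a', b', e', e3'⟩ := hlin i₂ (by omega) hg'
      refine Or.inl (Or.inl (hM M _ ((dz_mul hσ hk e3 e3').mono le_rfl (by omega)
        fun α y _ _ => ?_)))
      rw [← e, ← e']
      simp [val]
    | sq h M hh =>
      exact Or.inl (Or.inl (hM M _ ((hsq h hh A C).mono (by omega) (by omega)
        fun α y _ _ => by simp [val])))
    | cut f g h hf hg hf' hg' hh hcut =>
      obtain ⟨i₁, hi₁, rfl⟩ := hf
      obtain ⟨i₂, hi₂, rfl⟩ := hg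
      obtain ⟨I₁, e1, e2⟩ := hcv ⟨i₁, by omega⟩ (show i₁ < j by omega)
      obtain ⟨I₂, f1, f2⟩ := hcv ⟨i₂, by omega⟩ (show i₂ < j by omega)
      have hI : ∀ α, (I₁ α ∪ I₂ α).card ≤ 2 * k := fun α =>
        (card_union_le _ _).trans (by linarith [e1 α, f1 α])
      refine Or.inr ⟨hh, fun α => I₁ α ∪ I₂ α, hI, fun α y p q c => ?_⟩
      by_cases c₁ : val (pt α y) (L i₁) < 0
      · exact null_mono hσ subset_union_left ((hI α).trans hk) (e2 α y p q ⟨hf', c₁⟩)
      · refine null_mono hσ subset_union_right ((hI α).trans hk) (f2 α y p q ⟨hg', ?_⟩)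
        exact not_le.1 fun c₂ => not_le.2 c (hcut _ (not_lt.1 c₁) c₂)
  have hrep : ∀ i < j, Rep (L i) := by
    intro i
    induction i using Nat.strong_induction_on with
    | _ i ih =>
      intro hi
      rcases hstep i hi.le (fun i' h => ih i' h (h.trans hi)) _ (hL i (hi.trans hj)) with
        (h | h) | h
      · exact hAR i (hi.trans hj) h
      · exact h
      · exact hAR i (hi.trans hj) (hAl i hi h.1)
  rcases hstep j le_rfl hrep _ (hL j hj) with h | ⟨-, I, e1, e2⟩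
  swap
  · exact (Dz.low ((low_nul hσ e1).mul (fun _ => -1) fun _ => 1)).mono (by nlinarith) (by omega)
      fun α y p q => by rw [ind_of (e2 α y p q (hT α y p q).2)]; ring
  obtain ⟨c, hc1, hc2⟩ : Rep (L j) := h.elim (hAR j hj) id
  have h2 := Dz.sum (σ := σ) (A := A) (B := C) (R := 4 * RR n r Q D (2 * k))
    (s := MM n r Q (2 * k) * 4 + t + 1) (range T)
    (F := fun b α y => c b * 1 * val (pt α y) (L b)) fun b _ => by
      by_cases h : c b = 0
      · exact (Dz.low Low.zero).mono (Nat.zero_le _) (Nat.zero_le _) fun _ _ _ _ => by simp [h]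
      · exact Dz.mul (fun _ => (hc1 b).1) (fun _ => ⟨zero_le_one, le_rfl⟩) ((hc1 b).2 h)
  obtain ⟨a, b, e⟩ := ev_aff hs hjl
  obtain ⟨⟨α₂, y₂⟩, g1, g2⟩ := exists_max_image
    (univ.filter fun x : Row n r Q × Col n r Q => A x.1 ∧ C x.2) (fun x => val (pt x.1 x.2) (L j))
    ⟨(α₁, y₁), by simp [hα₁, hy₁]⟩
  have g3 : val (pt α₂ y₂) (L j) < 0 := (hT α₂ y₂ (mem_filter.1 g1).2.1 (mem_filter.1 g1).2.2).2
  obtain ⟨G₁, -, b1⟩ := exists_bd fun α => -a α + val (pt α₂ y₂) (L j)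
  obtain ⟨G₂, -, b2⟩ := exists_bd fun y => -b y
  have b3 := (abs_nonneg _).trans (b1 α₁)
  have b4 := (abs_nonneg _).trans (b2 y₁)
  obtain ⟨a', b', f1, f2, f⟩ := aff_pos (A := A) (B := C) (G := G₁ + G₂)
    (a := fun α => -a α + val (pt α₂ y₂) (L j)) (b := fun y => -b y) (by linarith)
    (fun α => by linarith [b1 α]) (fun y => by linarith [b2 y]) fun α y p q => by
      linarith [g2 (α, y) (by simp [p, q]), e α y]
  have h3 := (h2.add (Dz.one (fun α => (f1 α).1) fun _ => zero_le_one)).add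
    (Dz.one (fun _ => zero_le_one) fun y => (f2 y).1)
  refine (Dz.mul (u := fun _ => 1 / -val (pt α₂ y₂) (L j)) (v := fun _ => 1)
    (fun _ => (one_div_pos.2 (neg_pos.2 g3)).le) (fun _ => ⟨zero_le_one, le_rfl⟩) h3).mono
    (by simp) (by simp) fun α y p q => ?_
  have h4 := f α y p q
  simp only [mul_one, one_mul]
  rw [← hc2, e α y, add_assoc, ← h4]
  field_simp [g3.ne]
  ring

end Pool.Agent.Lib.MP_8a52c3_lc.LS
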