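import Pool.Agent.Lib.MP_8a52c3_lc.LS.Box

/-! The rank lemma. -/

open Finset
open scoped BigOperators

namespace Pool.Agent.Lib.MP_8a52c3_lc.LS

open Pool.Agent.Lib.MP_8a52c3_lc.Mono

theorem bessel_gen {ι Y : Type} [Fintype ι] [DecidableEq ι] [Fintype Y] (Ψ : ι → Y → ℝ)
    (ho : ∀ i j, 𝔼 y, Ψ i y * Ψ j y = if i = j then 1 else 0) (h : Y → ℝ) :
    ∑ i, (𝔼 y, Ψ i y * h y) ^ 2 ≤ 𝔼 y, h y ^ 2 := by
  set c : ι → ℝ := fun i => 𝔼 y, Ψ i y * h y with hc
  have h0 := ex_nonneg (f := fun y => (h y - ∑ i, Ψ i y * c i) ^ 2) fun _ => sq_nonneg _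
  have e : ∀ y, (h y - ∑ i, Ψ i y * c i) ^ 2 = h y ^ 2 - 2 * ∑ i, c i * (Ψ i y * h y) +
      ∑ i, ∑ j, c i * c j * (Ψ i y * Ψ j y) := by
    intro y
    have e1 : ∑ i, c i * (Ψ i y * h y) = h y * ∑ i, Ψ i y * c i := by
      rw [mul_sum]
      exact sum_congr rfl fun x _ => by ring
    have e2 : ∑ i, ∑ j, c i * c j * (Ψ i y * Ψ j y) = (∑ i, Ψ i y * c i) ^ 2 := by
      rw [sq, sum_mul_sum]
      exact sum_congr rfl fun x _ => sum_congr rfl fun x' _ => by ring
    rw [e1, e2]
    ring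
  simp only [e, expect_add_distrib, expect_sub_distrib] at h0
  rw [← mul_expect, expect_sum_comm] at h0
  simp only [expect_sum_comm, ← mul_expect, ho, mul_ite, mul_one, mul_zero, sum_ite_eq, mem_univ,
    if_true] at h0
  have e2 : ∑ x, c x * c x = ∑ x, c x ^ 2 := by simp only [sq]
  change 0 ≤ _ - 2 * ∑ x, c x * c x + _ at h0
  linarith

theorem rank_gen {ι Y : Type} [Fintype ι] [DecidableEq ι] [Fintype Y] [Nonempty Y]
    (Ψ : ι → Y → ℝ) (ho : ∀ i j, 𝔼 y, Ψ i y * Ψ j y = if i = j then 1 else 0)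
    (V : Submodule ℝ (Y → ℝ)) (B : ι → Y → ℝ) (hB : ∀ i, B i ∈ V) {S : ℝ}
    (hS : ∀ i y, |B i y| ≤ S) :
    (∑ i, 𝔼 y, Ψ i y * B i y) ^ 2 ≤ Fintype.card ι * S ^ 2 * Module.finrank ℝ V := by
  classical
  let e : (Y → ℝ) ≃ₗ[ℝ] EuclideanSpace ℝ Y := (WithLp.linearEquiv 2 ℝ (Y → ℝ)).symm
  let V' : Submodule ℝ (EuclideanSpace ℝ Y) := V.map e.toLinearMap
  have hd : Module.finrank ℝ V' = Module.finrank ℝ V := LinearEquiv.finrank_map_eq e V
  let b := stdOrthonormalBasis ℝ V'
  let β : ι → V' := fun i => ⟨e (B i), Submodule.mem_map_of_mem (hB i)⟩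
  have hY : (0 : ℝ) < Fintype.card Y := by exact_mod_cast Fintype.card_pos
  have h1 : ∀ i y, B i y = ∑ k, b.repr (β i) k * (b k : EuclideanSpace ℝ Y) y := by
    intro i y
    have h := congrArg (fun v : V' => (v : EuclideanSpace ℝ Y) y) (b.sum_repr (β i))
    simp only [Submodule.coe_sum, Submodule.coe_smul, WithLp.ofLp_sum, WithLp.ofLp_smul,
      Finset.sum_apply, Pi.smul_apply, smul_eq_mul] at h
    exact h.symm
  have h2 : ∀ i, ∑ k, b.repr (β i) k ^ 2 ≤ Fintype.card Y * S ^ 2 := by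
    intro i
    have h3 := EuclideanSpace.real_norm_sq_eq (b.repr (β i))
    rw [b.repr.norm_map, Submodule.coe_norm, EuclideanSpace.real_norm_sq_eq] at h3
    rw [← h3]
    refine (sum_le_card_nsmul _ _ (S ^ 2) fun y _ => ?_).trans_eq (by simp)
    exact sq_le_sq' (abs_le.1 (hS i y)).1 (abs_le.1 (hS i y)).2
  have h4 : ∀ k, ∑ i, (𝔼 y, Ψ i y * (b k : EuclideanSpace ℝ Y) y) ^ 2 ≤ 1 / Fintype.card Y := by
    intro k
    refine (bessel_gen Ψ ho _).trans_eq ?_
    rw [ex_eq_sum, ← EuclideanSpace.real_norm_sq_eq, ← Submodule.coe_norm, b.orthonormal.1 k]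
    norm_num
  have h5 : ∑ i, 𝔼 y, Ψ i y * B i y = ∑ x : ι × Fin (Module.finrank ℝ V'),
      b.repr (β x.1) x.2 * 𝔼 y, Ψ x.1 y * (b x.2 : EuclideanSpace ℝ Y) y := by
    rw [Fintype.sum_prod_type]
    refine sum_congr rfl fun i _ => ?_
    simp only [mul_expect]
    rw [← expect_sum_comm]
    refine expect_congr rfl fun y _ => ?_
    rw [h1 i y, mul_sum]
    exact sum_congr rfl fun k _ => by ring
  rw [h5]
  refine (sum_mul_sq_le_sq_mul_sq _ _ _).trans ?_
  rw [Fintype.sum_prod_type, Fintype.sum_prod_type_right]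
  have h6 : ∑ i, ∑ k, b.repr (β i) k ^ 2 ≤ Fintype.card ι * (Fintype.card Y * S ^ 2) :=
    (sum_le_card_nsmul _ _ _ fun i _ => h2 i).trans_eq (by simp)
  have h7 : ∑ k, ∑ i, (𝔼 y, Ψ i y * (b k : EuclideanSpace ℝ Y) y) ^ 2 ≤
      Module.finrank ℝ V * (1 / Fintype.card Y) :=
    (sum_le_card_nsmul _ _ _ fun k _ => h4 k).trans_eq (by simp [hd])
  refine (mul_le_mul h6 h7 (by positivity) (by positivity)).trans_eq ?_
  field_simp

theorem fourier {n : ℕ} (G : (Fin n → Bool) → ℝ) (z : Fin n → Bool) :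
    G z = ∑ S : Finset (Fin n), (𝔼 w, G w * ∏ e ∈ S, psChi (w e)) * ∏ e ∈ S, psChi (z e) := by
  simp only [expect_mul]
  rw [← expect_sum_comm, ← gad_delta G z]
  refine expect_congr rfl fun w _ => ?_
  simp only [mul_assoc, ← prod_mul_distrib]
  rw [← mul_sum]
  congr 1
  rw [← powerset_univ, ← Finset.prod_one_add]
  refine prod_congr rfl fun j _ => ?_
  cases z j <;> cases w j <;> simp [psChi] <;> norm_num

variable {n r : ℕ} {Q : Type} [Fintype Q] [DecidableEq Q] [Nonempty Q]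

/-- The full parity. -/
noncomputable def chi (w : Fin n → Bool) : ℝ := ∏ e, psChi (w e)

theorem chi_sq (w : Fin n → Bool) : chi w * chi w = 1 := by
  rw [chi, ← prod_mul_distrib]
  exact prod_eq_one fun e _ => psChi_mul_self _

theorem chi_abs (w : Fin n → Bool) : |chi w| = 1 := by
  have := chi_sq w
  rcases mul_self_eq_one_iff.1 this with h | h <;> simp [h]

omit [Nonempty Q] in
theorem chi_orth (α α' : Row n r Q) :
    𝔼 y, chi (zz α y) * chi (zz α' y) = if α = α' then 1 else 0 := by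
  split_ifs with h
  · subst h
    simp only [chi_sq, ex_const]
  · obtain ⟨e, he⟩ := Function.ne_iff.1 h
    let f : Col n r Q → Col n r Q := fun y i q =>
      if i = gp e (α e).1 ∧ q = (α e).2 then !y i q else y i q
    have hf : Function.Involutive f := by
      intro y
      funext i q
      simp only [f]
      split_ifs <;> simp
    have h1 : ∀ y, zz α' (f y) = zz α' y := by
      intro y
      funext e'
      simp only [zz, f]
      rw [if_neg]
      rintro ⟨h2, h3⟩
      obtain ⟨rfl, h4⟩ := gp_inj h2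
      exact he (Prod.ext h4.symm h3.symm)
    have h2 : ∀ y, chi (zz α (f y)) = -chi (zz α y) := by
      intro y
      rw [chi, chi, ← mul_prod_erase _ _ (mem_univ e), ← mul_prod_erase _ _ (mem_univ e), ← neg_mul]
      congr 1
      · simp only [zz, f, and_self, if_true]
        cases y (gp e (α e).1) (α e).2 <;> simp [psChi]
      · refine prod_congr rfl fun e' he' => ?_
        simp only [zz, f]
        rw [if_neg fun h3 => (mem_erase.1 he').1 (gp_inj h3.1).1]
    have h3 := ex_equiv hf.toPerm fun y => chi (zz α y) * chi (zz α' y)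
    simp only [Function.Involutive.coe_toPerm, h1, h2, neg_mul, expect_neg_distrib] at h3
    linarith

/-- The rows of the twisted matrix lie in a space of dimension at most `R`. -/
def Low (σ : (Fin n → Bool) → ℝ) (R : ℕ) (N : Row n r Q → Col n r Q → ℝ) : Prop :=
  ∃ V : Submodule ℝ (Col n r Q → ℝ), Module.finrank ℝ V ≤ R ∧
    ∀ α, (fun y => σ (zz α y) * chi (zz α y) * N α y) ∈ V

variable {D : ℕ} {Λ : ℝ} {σ : (Fin n → Bool) → ℝ}

omit [Nonempty Q]

omit [Fintype Q] [DecidableEq Q] in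
theorem Low.mono {R R' : ℕ} {N : Row n r Q → Col n r Q → ℝ} (h : Low σ R N) (hR : R ≤ R') :
    Low σ R' N := by
  obtain ⟨V, h1, h2⟩ := h
  exact ⟨V, h1.trans hR, h2⟩

omit [Fintype Q] [DecidableEq Q] in
theorem Low.zero : Low σ 0 (fun (_ : Row n r Q) _ => 0) :=
  ⟨⊥, by simp, fun α => by simp only [mul_zero]; exact Submodule.zero_mem _⟩

omit [DecidableEq Q] in
theorem Low.add {R R' : ℕ} {N N' : Row n r Q → Col n r Q → ℝ} (h : Low σ R N) (h' : Low σ R' N') :
    Low σ (R + R') fun α y => N α y + N' α y := by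
  obtain ⟨V, h1, h2⟩ := h
  obtain ⟨V', h1', h2'⟩ := h'
  refine ⟨V ⊔ V', (Submodule.finrank_add_le_finrank_add_finrank V V').trans (add_le_add h1 h1'),
    fun α => ?_⟩
  simp only [mul_add]
  exact Submodule.add_mem_sup (h2 α) (h2' α)

omit [DecidableEq Q] in
theorem Low.mul {R : ℕ} {N : Row n r Q → Col n r Q → ℝ} (h : Low σ R N) (u : Row n r Q → ℝ)
    (v : Col n r Q → ℝ) : Low σ R fun α y => u α * v y * N α y := by
  obtain ⟨V, h1, h2⟩ := h
  refine ⟨V.map (LinearMap.mulLeft ℝ v), (Submodule.finrank_map_le _ _).trans h1, fun α => ?_⟩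
  refine ⟨_, V.smul_mem (u α) (h2 α), ?_⟩
  funext y
  simp only [LinearMap.mulLeft_apply, Pi.mul_apply, Pi.smul_apply, smul_eq_mul]
  ring

omit [DecidableEq Q] in
theorem Low.sum {ι : Type} (s : Finset ι) {R : ℕ} {N : ι → Row n r Q → Col n r Q → ℝ}
    (h : ∀ i ∈ s, Low σ R (N i)) : Low σ (s.card * R) fun α y => ∑ i ∈ s, N i α y := by
  classical
  induction s using Finset.induction_on with
  | empty => simpa using Low.zero
  | insert a s ha ih =>
    simp only [sum_insert ha, card_insert_of_notMem ha]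
    exact ((h a (mem_insert_self _ _)).add (ih fun i hi => h i (mem_insert_of_mem hi))).mono
      (le_of_eq (by ring))

theorem Low.vl_sq [NeZero r] [Nonempty Q] (hb : ∀ z, |σ z| ≤ Λ) {R : ℕ}
    {N : Row n r Q → Col n r Q → ℝ} (h : Low σ R N) {S : ℝ} (hS : ∀ α y, |N α y| ≤ S) :
    vl σ N ^ 2 * Fintype.card (Fin r × Q) ^ n ≤ (Λ * S) ^ 2 * R := by
  classical
  obtain ⟨V, h1, h2⟩ := h
  have h3 := rank_gen (fun α y => chi (zz α y)) chi_orth V _ h2 (S := Λ * S) fun α y => by
    rw [abs_mul, abs_mul, chi_abs, mul_one]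
    exact mul_le_mul (hb _) (hS α y) (abs_nonneg _) ((abs_nonneg _).trans (hb fun _ => false))
  have h4 : ∀ (α : Row n r Q) y, chi (zz α y) * (σ (zz α y) * chi (zz α y) * N α y) =
      σ (zz α y) * N α y := fun α y => by
    linear_combination σ (zz α y) * N α y * chi_sq (zz α y)
  simp only [h4] at h3
  have h5 : (Fintype.card (Row n r Q) : ℝ) = Fintype.card (Fin r × Q) ^ n := by
    simp [Row]
  have h6 : (0 : ℝ) < Fintype.card (Row n r Q) := by exact_mod_cast Fintype.card_pos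
  have h7 : (Module.finrank ℝ V : ℝ) ≤ R := by exact_mod_cast h1
  rw [vl, ex_eq_sum, ← h5, div_pow, div_mul_eq_mul_div, div_le_iff₀ (by positivity)]
  have h8 := mul_le_mul_of_nonneg_left h7 (show 0 ≤ (Fintype.card (Row n r Q) : ℝ) * (Λ * S) ^ 2
    by positivity)
  nlinarith

theorem low_agr [NeZero r] [Nonempty Q] (hσ : IsPseudo n D Λ σ) {k : ℕ} {ρ : PA n}
    (hk : sz ρ ≤ k) (h0 : pe σ ρ = 0) :
    Low σ (2 ^ n * Fintype.card (Fin r × Q) ^ (n + k - D))
      fun (α : Row n r Q) y => ind (Agr ρ (zz α y)) := by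
  classical
  let g : (Fin n → Option (Fin r × Q)) → Col n r Q → ℝ := fun π y =>
    ∏ e, (π e).elim 1 fun a => psChi (y (gp e a.1) a.2)
  let s := (univ.filter fun π : Fin n → Option (Fin r × Q) => szo π ≤ n + k - D).image g
  refine ⟨Submodule.span ℝ (s : Set (Col n r Q → ℝ)), (finrank_span_finset_le_card s).trans
    (card_image_le.trans (card_small _)), fun α => ?_⟩
  have h1 : (fun y => σ (zz α y) * chi (zz α y) * ind (Agr ρ (zz α y))) =
      ∑ S : Finset (Fin n), (𝔼 w, σ w * chi w * ind (Agr ρ w) * ∏ e ∈ S, psChi (w e)) •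
        g fun e => if e ∈ S then some (α e) else none := by
    funext y
    rw [fourier (fun w => σ w * chi w * ind (Agr ρ w)) (zz α y), Finset.sum_apply]
    refine sum_congr rfl fun S _ => ?_
    simp only [Pi.smul_apply, smul_eq_mul, g]
    congr 1
    rw [← prod_filter_mul_prod_filter_not univ (· ∈ S), filter_mem_eq_inter, univ_inter,
      prod_eq_one (s := univ.filter _) fun e he => by simp [(mem_filter.1 he).2], mul_one]
    exact prod_congr rfl fun e he => by simp [he, zz]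
  rw [h1]
  refine Submodule.sum_mem _ fun S _ => ?_
  by_cases hS : S.card ≤ n + k - D
  · refine Submodule.smul_mem _ _ (Submodule.subset_span (mem_coe.2 (mem_image_of_mem g ?_)))
    refine mem_filter.2 ⟨mem_univ _, le_trans (le_of_eq ?_) hS⟩
    unfold szo
    congr 1
    ext e
    by_cases h : e ∈ S <;> simp [h]
  · have h2 : ∀ w, σ w * chi w * ind (Agr ρ w) * ∏ e ∈ S, psChi (w e) =
        σ w * (ind (Agr ρ w) * ∏ e ∈ Sᶜ, psChi (w e)) := by
      intro w
      have h3 : (∏ e ∈ S, psChi (w e)) * ∏ e ∈ S, psChi (w e) = 1 := by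
        rw [← prod_mul_distrib]
        exact prod_eq_one fun e _ => psChi_mul_self _
      rw [chi, ← prod_mul_prod_compl S]
      linear_combination σ w * ind (Agr ρ w) * (∏ e ∈ Sᶜ, psChi (w e)) * h3
    have hA : ∀ w w' : Fin n → Bool, (∀ e ∈ Sᶜ ∪ univ.filter (fun j => ρ j ≠ none), w e = w' e) →
        ind (Agr ρ w) = ind (Agr ρ w') := fun w w' h => ind_congr <| forall_congr' fun j =>
      forall_congr' fun c => imp_congr_right fun hc => by rw [h j (by simp [hc])]
    have h4 : 𝔼 w, σ w * (ind (Agr ρ w) * ∏ e ∈ Sᶜ, psChi (w e)) = 0 := by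
      refine null_junta hσ (U := Sᶜ ∪ univ.filter fun j => ρ j ≠ none) ?_ h0 (fun w => ?_) hA
        fun w w' h => ?_
      · have h5 := card_union_le Sᶜ (univ.filter fun j => ρ j ≠ none)
        have h6 := card_compl S
        have h7 := card_le_univ S
        simp only [Fintype.card_fin] at h6 h7
        unfold sz at hk
        omega
      · rw [abs_mul, abs_of_nonneg (ind_nonneg _), abs_prod,
          prod_eq_one fun e _ => by cases w e <;> simp [psChi], mul_one]
      · rw [hA w w' h, prod_congr rfl fun e he => by rw [h e (mem_union_left _ he)]]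
    simp only [h2, h4, zero_smul]
    exact Submodule.zero_mem _

/-- The dimension bound for the null part of a cover of width `k`. -/
def RR (n r : ℕ) (Q : Type) [Fintype Q] (D k : ℕ) : ℕ :=
  3 ^ n * (2 ^ n * Fintype.card (Fin r × Q) ^ (n + k - D))

theorem low_nul [NeZero r] [Nonempty Q] (hσ : IsPseudo n D Λ σ) {k : ℕ}
    {I : Row n r Q → Finset (Fin n)} (hI : ∀ α, (I α).card ≤ k) :
    Low σ (RR n r Q D k) fun α y => ind (pe σ (res (I α) (zz α y)) = 0) := by
  classical
  have h1 := Low.sum (σ := σ) (univ.filter fun ρ : PA n => sz ρ ≤ k ∧ pe σ ρ = 0)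
    (N := fun ρ (α : Row n r Q) y =>
      ind (∀ e, ρ e ≠ none ↔ e ∈ I α) * 1 * ind (Agr ρ (zz α y)))
    fun ρ hρ => (low_agr hσ (mem_filter.1 hρ).2.1 (mem_filter.1 hρ).2.2).mul _ _
  have h2 : (univ.filter fun ρ : PA n => sz ρ ≤ k ∧ pe σ ρ = 0).card ≤ 3 ^ n :=
    (card_le_univ _).trans_eq (by simp)
  unfold RR
  convert h1.mono (Nat.mul_le_mul_right _ h2) using 3 with α y
  rw [sum_filter, sum_eq_single (res (I α) (zz α y))]
  · rw [ind_of (p := ∀ e, _) fun e => by by_cases h : e ∈ I α <;> simp [res, h],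
      ind_of ((agr_res _ _ _).2 fun _ _ => rfl)]
    by_cases h : pe σ (res (I α) (zz α y)) = 0 <;> simp [h, ind, sz_res, hI]
  · intro ρ _ hρ
    split_ifs
    · rw [mul_one, ← ind_and]
      refine ind_of_not fun h => hρ ?_
      funext e
      by_cases he : e ∈ I α
      · obtain ⟨c, hc⟩ := Option.ne_none_iff_exists'.1 ((h.1 e).2 he)
        simp [res, he, hc, h.2 e c hc]
      · have := mt (h.1 e).1 he
        simp only [res, he, if_false]
        exact not_not.1 this
    · rfl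
  · simp

end Pool.Agent.Lib.MP_8a52c3_lc.LS
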